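import Mathlib

/-! Algebraicity of the solutions of the recursion system (for MP_ae9099_mp). -/

namespace Pool.Agent.R748.Cone

open KaehlerDifferential in
theorem algebraic_of_system {K L : Type} [Field K] [CharZero K] [Field L] [Algebra K L]
    {ι : Type} [Fintype ι] [DecidableEq ι] (ξ : ι → L) (s : ι → K) (c : ι → ι → K)
    (hsys : ∀ j, ξ j * (algebraMap K L (s j) + ∑ k, algebraMap K L (c j k) * ξ k) + 1 = 0)
    (hdet : (Matrix.of fun j k => (if j = k then
        algebraMap K L (s j) + ∑ l, algebraMap K L (c j l) * ξ l else 0) +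
        ξ j * algebraMap K L (c j k)).det ≠ 0) :
    ∀ j, IsAlgebraic K (ξ j) := by
  classical
  set E := IntermediateField.adjoin K (Set.range ξ) with hE
  have hmem : ∀ j, ξ j ∈ E := fun j => IntermediateField.subset_adjoin K _ ⟨j, rfl⟩
  let x : ι → E := fun j => ⟨ξ j, hmem j⟩
  have hess : Algebra.EssFiniteType K E := by
    rw [IntermediateField.essFiniteType_iff]
    exact IntermediateField.fg_adjoin_of_finite (Set.finite_range ξ)
  have hsysE : ∀ j, x j * (algebraMap K E (s j) + ∑ k, algebraMap K E (c j k) * x k) + 1 = 0 := by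
    intro j
    apply Subtype.ext
    have := hsys j
    push_cast
    simpa [x] using this
  let J : Matrix ι ι E := Matrix.of fun j k => (if j = k then
        algebraMap K E (s j) + ∑ l, algebraMap K E (c j l) * x l else 0) +
        x j * algebraMap K E (c j k)
  have hJ : J.det ≠ 0 := by
    intro h0
    apply hdet
    have : (algebraMap E L) J.det = 0 := by rw [h0, map_zero]
    rw [RingHom.map_det] at this
    refine Eq.trans ?_ this
    congr 1
    ext j k
    simp only [J, Matrix.of_apply, RingHom.mapMatrix_apply, Matrix.map_apply, map_add, map_mul]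
    congr 1
    split_ifs with h
    · simp only [map_add, map_sum, map_mul]
      rfl
    · simp
  let D := KaehlerDifferential.D K E
  have hlin : ∀ j, ∑ k, J j k • D (x k) = 0 := by
    intro j
    have h1 : D (x j * (algebraMap K E (s j) + ∑ k, algebraMap K E (c j k) * x k) + 1) = 0 := by
      rw [hsysE j, map_zero]
    rw [map_add, Derivation.map_one_eq_zero, add_zero, Derivation.leibniz, map_add,
      Derivation.map_algebraMap, zero_add, map_sum] at h1
    have h2 : ∀ k, D (algebraMap K E (c j k) * x k) = algebraMap K E (c j k) • D (x k) := by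
      intro k
      rw [Derivation.leibniz, Derivation.map_algebraMap, smul_zero, add_zero]
    simp only [h2] at h1
    simp only [J, Matrix.of_apply, add_smul, Finset.sum_add_distrib, ite_smul, zero_smul,
      Finset.sum_ite_eq, Finset.mem_univ, if_true, mul_smul]
    rw [← Finset.smul_sum, add_comm]
    rw [← add_smul]
    exact h1
  have hD : ∀ j, D (x j) = 0 := by
    intro j
    have h1 : ∑ i, (J⁻¹) j i • (∑ k, J i k • D (x k)) = D (x j) := by
      simp only [Finset.smul_sum, smul_smul]
      rw [Finset.sum_comm]
      simp only [← Finset.sum_smul]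
      have h2 : ∀ k, ∑ i, (J⁻¹) j i * J i k = (1 : Matrix ι ι E) j k := by
        intro k
        rw [← Matrix.mul_apply, Matrix.nonsing_inv_mul _ (isUnit_iff_ne_zero.mpr hJ)]
      simp only [h2, Matrix.one_apply, ite_smul, one_smul, zero_smul, Finset.sum_ite_eq,
        Finset.mem_univ, if_true]
    rw [← h1]
    simp [hlin]
  have hDall : ∀ y : E, D y = 0 := by
    rintro ⟨y, hy⟩
    induction hy using IntermediateField.adjoin_induction with
    | mem y hy =>
      obtain ⟨j, rfl⟩ := hy
      exact hD j
    | algebraMap y =>
      exact Derivation.map_algebraMap _ _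
    | add a b ha hb iha ihb =>
      have : (⟨a + b, add_mem ha hb⟩ : E) = ⟨a, ha⟩ + ⟨b, hb⟩ := rfl
      rw [this, map_add, iha, ihb, add_zero]
    | inv a ha iha =>
      have : (⟨a⁻¹, inv_mem ha⟩ : E) = (⟨a, ha⟩ : E)⁻¹ := rfl
      rw [this, Derivation.leibniz_inv, iha, smul_zero]
    | mul a b ha hb iha ihb =>
      have : (⟨a * b, mul_mem ha hb⟩ : E) = ⟨a, ha⟩ * ⟨b, hb⟩ := rfl
      rw [this, Derivation.leibniz, iha, ihb, smul_zero, smul_zero, add_zero]
  have hsub : Subsingleton (Ω[E⁄K]) := by
    have h1 := KaehlerDifferential.span_range_derivation K E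
    have h2 : Submodule.span E (Set.range (KaehlerDifferential.D K E)) = ⊥ := by
      rw [Submodule.span_eq_bot]
      rintro _ ⟨y, rfl⟩
      exact hDall y
    rw [h2] at h1
    exact (Submodule.subsingleton_iff E).mp (subsingleton_of_bot_eq_top h1)
  have hfu : Algebra.FormallyUnramified K E :=
    (Algebra.formallyUnramified_iff K E).mpr hsub
  have hsep : Algebra.IsSeparable K E := Algebra.FormallyUnramified.isSeparable K E
  intro j
  have h1 : IsAlgebraic K (x j) := (Algebra.IsSeparable.isIntegral K (x j)).isAlgebraic
  exact (isAlgebraic_algebraMap_iff (R := K) (S := E) (A := L) (algebraMap E L).injective).mpr h1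

end Pool.Agent.R748.Cone
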