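import Mathlib
import Pool.Agent.R748.ConeAlg

/-! Analytic solutions of the recursion system on the upper half plane are algebraic functions
(for MP_ae9099_mp). -/

namespace Pool.Agent.R748.Cone

open Polynomial

/-- the open upper half plane -/
def HP : Set ℂ := {z : ℂ | 0 < z.im}

theorem isOpen_HP : IsOpen HP := isOpen_lt continuous_const Complex.continuous_im

theorem convex_HP : Convex ℝ HP := convex_halfSpace_im_gt 0

theorem preconnected_HP : IsPreconnected HP := convex_HP.isPreconnected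

/-- the ring of analytic functions on the upper half plane -/
def AnRing : Subring (HP → ℂ) where
  carrier := {g | ∃ F : ℂ → ℂ, AnalyticOnNhd ℂ F HP ∧ ∀ z : HP, g z = F z}
  mul_mem' := by
    rintro a b ⟨F, hF, hF'⟩ ⟨G, hG, hG'⟩
    exact ⟨fun z => F z * G z, hF.mul hG, fun z => by simp [hF', hG']⟩
  one_mem' := ⟨fun _ => 1, analyticOnNhd_const, fun z => rfl⟩
  add_mem' := by
    rintro a b ⟨F, hF, hF'⟩ ⟨G, hG, hG'⟩
    exact ⟨fun z => F z + G z, hF.add hG, fun z => by simp [hF', hG']⟩
  zero_mem' := ⟨fun _ => 0, analyticOnNhd_const, fun z => rfl⟩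
  neg_mem' := by
    rintro a ⟨F, hF, hF'⟩
    exact ⟨fun z => - F z, hF.neg, fun z => by simp [hF']⟩

instance : Nontrivial AnRing := ⟨⟨0, 1, fun h => by
  have h1 : (0 : AnRing).1 ⟨Complex.I, by simp [HP]⟩ = (1 : AnRing).1 ⟨Complex.I, by simp [HP]⟩ := by
    rw [h]
  simp at h1⟩⟩

instance : NoZeroDivisors AnRing := ⟨by
  rintro ⟨a, F, hF, hF'⟩ ⟨b, G, hG, hG'⟩ hab
  have h1 : ∀ z ∈ HP, F z * G z = 0 := by
    intro z hz
    have := congrFun (congrArg Subtype.val hab) ⟨z, hz⟩
    simpa [hF', hG'] using this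
  rcases hF.eq_zero_or_eq_zero_of_mul_eq_zero hG h1 preconnected_HP with h | h
  · left
    apply Subtype.ext
    funext z
    show a z = 0
    rw [hF', h z.1 z.2]
  · right
    apply Subtype.ext
    funext z
    show b z = 0
    rw [hG', h z.1 z.2]⟩

instance : IsDomain AnRing := NoZeroDivisors.to_isDomain _

/-- polynomials as analytic functions -/
noncomputable def polyHom : ℂ[X] →+* AnRing :=
  (RingHom.pi fun z : HP => Polynomial.evalRingHom z.1).codRestrict AnRing
    (fun p => ⟨fun z => p.eval z, fun z _ => by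
      have := (Polynomial.differentiable p).analyticAt z
      exact this, fun z => rfl⟩)

@[simp] theorem polyHom_apply (p : ℂ[X]) (z : HP) : (polyHom p).1 z = p.eval z.1 := rfl

theorem infinite_HP : HP.Infinite := by
  have h : Set.Infinite (Set.range fun n : ℕ => ((n : ℂ) + 1) * Complex.I) := by
    apply Set.infinite_range_of_injective
    intro m n h
    simpa using h
  refine h.mono ?_
  rintro _ ⟨n, rfl⟩
  show (0 : ℝ) < _
  simp
  positivity

theorem polyHom_injective : Function.Injective polyHom := by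
  rw [injective_iff_map_eq_zero]
  intro p hp
  apply Polynomial.eq_zero_of_infinite_isRoot
  refine infinite_HP.mono ?_
  intro z hz
  have := congrFun (congrArg Subtype.val hp) ⟨z, hz⟩
  exact this

theorem exists_poly {ι : Type} [Fintype ι] (f : ι → ℂ → ℂ) (hf : ∀ j, AnalyticOnNhd ℂ (f j) HP)
    (w : ι → ℂ) (c : ι → ι → ℂ)
    (hsys : ∀ j, ∀ z ∈ HP, f j z * ((z - w j) + ∑ k, c j k * f k z) + 1 = 0)
    (hbd : ∀ j, ∀ z ∈ HP, ‖f j z‖ ≤ 1 / z.im) (j : ι) :
    ∃ P : ℂ[X][X], P ≠ 0 ∧ ∀ z ∈ HP, (P.map (evalRingHom z)).eval (f j z) = 0 := by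
  classical
  let K := FractionRing ℂ[X]
  let L := FractionRing AnRing
  letI : Algebra ℂ[X] L := ((algebraMap AnRing L).comp polyHom).toAlgebra
  have hinjL : Function.Injective (algebraMap AnRing L) := IsFractionRing.injective _ _
  have hinj : Function.Injective (algebraMap ℂ[X] L) := hinjL.comp polyHom_injective
  haveI : FaithfulSMul ℂ[X] L := (faithfulSMul_iff_algebraMap_injective ℂ[X] L).mpr hinj
  letI : Algebra K L := FractionRing.liftAlgebra ℂ[X] L
  haveI : IsScalarTower ℂ[X] K L := FractionRing.isScalarTower_liftAlgebra ℂ[X] L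
  let fB : ι → AnRing := fun j => ⟨fun z => f j z.1, f j, hf j, fun z => rfl⟩
  have hKL : ∀ p : ℂ[X], algebraMap K L (algebraMap ℂ[X] K p) = algebraMap AnRing L (polyHom p) := by
    intro p
    rw [← IsScalarTower.algebraMap_apply ℂ[X] K L]
    rfl
  have key := algebraic_of_system (K := K) (L := L) (fun j => algebraMap AnRing L (fB j))
    (fun j => algebraMap ℂ[X] K (X - C (w j))) (fun j k => algebraMap ℂ[X] K (C (c j k))) ?_ ?_ j
  · have h2 : IsAlgebraic ℂ[X] (algebraMap AnRing L (fB j)) :=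
      (IsFractionRing.isAlgebraic_iff ℂ[X] K L).mpr key
    obtain ⟨P, hP0, hP⟩ := h2
    refine ⟨P, hP0, fun z hz => ?_⟩
    have h3 : P.eval₂ polyHom (fB j) = 0 := by
      apply hinjL
      rw [Polynomial.hom_eval₂, map_zero]
      exact hP
    have h4 : (P.eval₂ polyHom (fB j)).1 ⟨z, hz⟩ = 0 := by rw [h3]; rfl
    rw [Polynomial.eval_map]
    rw [← h4]
    let ev : AnRing →+* ℂ := (Pi.evalRingHom (fun _ : HP => ℂ) ⟨z, hz⟩).comp AnRing.subtype
    have h5 : ev (P.eval₂ polyHom (fB j)) = P.eval₂ (ev.comp polyHom) (ev (fB j)) :=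
      Polynomial.hom_eval₂ _ _ _ _
    have h6 : ev.comp polyHom = evalRingHom z := by
      ext <;> simp [ev]
    rw [h6] at h5
    exact h5.symm
  · intro j
    simp only [hKL]
    have : fB j * (polyHom (X - C (w j)) + ∑ k, polyHom (C (c j k)) * fB k) + 1 = 0 := by
      apply Subtype.ext
      funext z
      have := hsys j z.1 z.2
      simpa [fB] using this
    have h2 := congrArg (algebraMap AnRing L) this
    simpa using h2
  · simp only [hKL]
    let JB : Matrix ι ι AnRing := Matrix.of fun j k => (if j = k then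
        polyHom (X - C (w j)) + ∑ l, polyHom (C (c j l)) * fB l else 0) + fB j * polyHom (C (c j k))
    have h1 : (Matrix.of fun j k => (if j = k then
        algebraMap AnRing L (polyHom (X - C (w j))) +
          ∑ l, algebraMap AnRing L (polyHom (C (c j l))) * algebraMap AnRing L (fB l) else 0) +
        algebraMap AnRing L (fB j) * algebraMap AnRing L (polyHom (C (c j k)))) =
        (algebraMap AnRing L).mapMatrix JB := by
      ext j k
      simp only [JB, Matrix.of_apply, RingHom.mapMatrix_apply, Matrix.map_apply, map_add, map_mul]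
      congr 1
      split_ifs with h
      · simp only [map_add, map_sum, map_mul]
      · simp
    rw [h1, ← RingHom.map_det]
    intro h0
    have h2 : JB.det = 0 := hinjL (by rw [h0, map_zero])
    set W : ℝ := ∑ j, ‖w j‖ with hW
    set S : ℝ := ∑ j, ∑ k, ‖c j k‖ with hS
    have hW0 : 0 ≤ W := Finset.sum_nonneg fun _ _ => norm_nonneg _
    have hS0 : 0 ≤ S := Finset.sum_nonneg fun _ _ => Finset.sum_nonneg fun _ _ => norm_nonneg _
    let y : ℝ := W + 2 * S + 1
    have hy : 1 ≤ y := by simp only [y]; linarith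
    have hyHP : ((y : ℂ) * Complex.I) ∈ HP := by
      show 0 < ((y : ℂ) * Complex.I).im
      simp
      linarith
    let z : HP := ⟨(y : ℂ) * Complex.I, hyHP⟩
    let ev : AnRing →+* ℂ := (Pi.evalRingHom (fun _ : HP => ℂ) z).comp AnRing.subtype
    have h3 : (ev.mapMatrix JB).det = 0 := by rw [← RingHom.map_det, h2, map_zero]
    have hfle : ∀ j, ‖f j z.1‖ ≤ 1 := by
      intro j
      refine (hbd j z.1 z.2).trans ?_
      have : z.1.im = y := by simp [z]
      rw [this]
      rw [div_le_one (by linarith)]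
      exact hy
    have hent : ∀ j k, (ev.mapMatrix JB) j k = (if j = k then
        ((z.1 - w j) + ∑ l, c j l * f l z.1) else 0) + f j z.1 * c j k := by
      intro j k
      simp only [RingHom.mapMatrix_apply, Matrix.map_apply, JB, Matrix.of_apply, map_add, map_mul]
      congr 1
      · split_ifs with h
        · simp [ev, fB]
        · simp
      · simp [ev, fB]
    refine det_ne_zero_of_sum_row_lt_diag (A := ev.mapMatrix JB) ?_ h3
    intro k
    have hoff : ∑ j ∈ Finset.univ.erase k, ‖(ev.mapMatrix JB) k j‖ ≤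
        ∑ j ∈ Finset.univ.erase k, ‖c k j‖ := by
      apply Finset.sum_le_sum
      intro j hj
      rw [hent, if_neg (Finset.ne_of_mem_erase hj).symm, zero_add, norm_mul]
      calc ‖f k z.1‖ * ‖c k j‖ ≤ 1 * ‖c k j‖ :=
            mul_le_mul_of_nonneg_right (hfle k) (norm_nonneg _)
        _ = ‖c k j‖ := one_mul _
    have hdiag : y - ‖w k‖ - ∑ l, ‖c k l‖ - ‖c k k‖ ≤ ‖(ev.mapMatrix JB) k k‖ := by
      rw [hent, if_pos rfl]
      have e1 : z.1 = ((z.1 - w k) + ∑ l, c k l * f l z.1 + f k z.1 * c k k) + w k -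
          ∑ l, c k l * f l z.1 - f k z.1 * c k k := by ring
      have e2 : ‖z.1‖ = y := by
        simp only [z, norm_mul, Complex.norm_I, mul_one, Complex.norm_real, Real.norm_eq_abs]
        exact abs_of_pos (by linarith)
      have e3 : ‖∑ l, c k l * f l z.1‖ ≤ ∑ l, ‖c k l‖ := by
        refine (norm_sum_le _ _).trans (Finset.sum_le_sum fun l _ => ?_)
        rw [norm_mul]
        calc ‖c k l‖ * ‖f l z.1‖ ≤ ‖c k l‖ * 1 :=
              mul_le_mul_of_nonneg_left (hfle l) (norm_nonneg _)
          _ = ‖c k l‖ := mul_one _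
      have e4 : ‖f k z.1 * c k k‖ ≤ ‖c k k‖ := by
        rw [norm_mul]
        calc ‖f k z.1‖ * ‖c k k‖ ≤ 1 * ‖c k k‖ :=
              mul_le_mul_of_nonneg_right (hfle k) (norm_nonneg _)
          _ = ‖c k k‖ := one_mul _
      have e5 : ‖z.1‖ ≤ ‖(z.1 - w k) + ∑ l, c k l * f l z.1 + f k z.1 * c k k‖ + ‖w k‖ +
          ‖∑ l, c k l * f l z.1‖ + ‖f k z.1 * c k k‖ := by
        calc ‖z.1‖ = ‖((z.1 - w k) + ∑ l, c k l * f l z.1 + f k z.1 * c k k) + w k -
          ∑ l, c k l * f l z.1 - f k z.1 * c k k‖ := by rw [← e1]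
          _ ≤ ‖((z.1 - w k) + ∑ l, c k l * f l z.1 + f k z.1 * c k k) + w k -
          ∑ l, c k l * f l z.1‖ + ‖f k z.1 * c k k‖ := norm_sub_le _ _
          _ ≤ ‖((z.1 - w k) + ∑ l, c k l * f l z.1 + f k z.1 * c k k) + w k‖ +
          ‖∑ l, c k l * f l z.1‖ + ‖f k z.1 * c k k‖ := by gcongr; exact norm_sub_le _ _
          _ ≤ _ := by gcongr; exact norm_add_le _ _
      linarith
    have hw : ‖w k‖ ≤ W := Finset.single_le_sum (f := fun j => ‖w j‖)
      (fun _ _ => norm_nonneg _) (Finset.mem_univ k)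
    have hs : ∑ l, ‖c k l‖ ≤ S := Finset.single_le_sum (f := fun j => ∑ l, ‖c j l‖)
      (fun _ _ => Finset.sum_nonneg fun _ _ => norm_nonneg _) (Finset.mem_univ k)
    have hsplit : ∑ l, ‖c k l‖ = ‖c k k‖ + ∑ j ∈ Finset.univ.erase k, ‖c k j‖ :=
      (Finset.add_sum_erase _ _ (Finset.mem_univ k)).symm
    simp only [y] at hdiag
    linarith

end Pool.Agent.R748.Cone
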