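import Mathlib

/-!
# Definitions for MP_ae9099_mp

Rooted trees, the weighted spaces `ℓ²(V, ν)`, the truncations of an operator to the cones `V_x`,
and the Green functions `G_x` and `Γ_x`.
-/

namespace Pool.Agent.R748.Cone

open MeasureTheory
open scoped ENNReal

/-- A rooted tree with vertex set `V`, given by its root and the map sending every vertex other
than the root to its parent (and the root to itself). Every vertex is joined to the root by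
iterating the parent map. -/
structure RootedTree (V : Type) where
  /-- the root -/
  root : V
  /-- the parent map -/
  parent : V → V
  parent_root : parent root = root
  reach : ∀ x, ∃ n : ℕ, parent^[n] x = root

namespace RootedTree

variable {V : Type} (𝒯 : RootedTree V)

/-- `y` is a child of `x`. -/
def IsChild (y x : V) : Prop := y ≠ 𝒯.root ∧ 𝒯.parent y = x

/-- `x` and `y` are adjacent: one of them is a child of the other. -/
def Adj (x y : V) : Prop := 𝒯.IsChild y x ∨ 𝒯.IsChild x y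

/-- The cone `V_x`: the vertex `x` and all its descendants. -/
def desc (x : V) : Set V := {y | ∃ n : ℕ, 𝒯.parent^[n] y = x}

theorem self_mem_desc (x : V) : x ∈ 𝒯.desc x := ⟨0, rfl⟩

end RootedTree

variable {V : Type} [MeasurableSpace V] [DiscreteMeasurableSpace V]

/-- The measure `∑ₓ ν(x) δₓ` on the discrete space `V`. -/
noncomputable def wm (ν : V → ℝ) : Measure V :=
  Measure.sum fun x => ENNReal.ofReal (ν x) • Measure.dirac x

/-- The Hilbert space `ℓ²(V, ν)`. -/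
def L2 (ν : V → ℝ) : Type := Lp ℂ 2 (wm ν)

noncomputable instance instNACG (ν : V → ℝ) : NormedAddCommGroup (L2 ν) :=
  @Lp.instNormedAddCommGroup V ℂ _ 2 (wm ν) _ _

noncomputable instance instIPS (ν : V → ℝ) : InnerProductSpace ℂ (L2 ν) :=
  @L2.innerProductSpace V ℂ ℂ _ _ (wm ν) _ _

instance instComplete (ν : V → ℝ) : CompleteSpace (L2 ν) :=
  (inferInstance : CompleteSpace (Lp ℂ 2 (wm ν)))

/-- The values of an element of `ℓ²(V, ν)`. -/
noncomputable def val {ν : V → ℝ} (φ : L2 ν) : V → ℂ :=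
  ((show Lp ℂ 2 (wm ν) from φ) : V → ℂ)

noncomputable instance instCoeFun (ν : V → ℝ) : CoeFun (L2 ν) fun _ => V → ℂ := ⟨val⟩

theorem memLp_val {ν : V → ℝ} (φ : L2 ν) : MemLp φ 2 (wm ν) :=
  Lp.memLp (show Lp ℂ 2 (wm ν) from φ)

theorem val_add {ν : V → ℝ} (φ ψ : L2 ν) : ((φ + ψ : L2 ν) : V → ℂ) =ᵐ[wm ν] (φ : V → ℂ) + ψ :=
  Lp.coeFn_add (show Lp ℂ 2 (wm ν) from φ) (show Lp ℂ 2 (wm ν) from ψ)

theorem val_sub {ν : V → ℝ} (φ ψ : L2 ν) : ((φ - ψ : L2 ν) : V → ℂ) =ᵐ[wm ν] (φ : V → ℂ) - ψ :=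
  Lp.coeFn_sub (show Lp ℂ 2 (wm ν) from φ) (show Lp ℂ 2 (wm ν) from ψ)

theorem val_smul {ν : V → ℝ} (c : ℂ) (φ : L2 ν) :
    ((c • φ : L2 ν) : V → ℂ) =ᵐ[wm ν] c • (φ : V → ℂ) :=
  Lp.coeFn_smul c (show Lp ℂ 2 (wm ν) from φ)

theorem val_zero {ν : V → ℝ} : ((0 : L2 ν) : V → ℂ) =ᵐ[wm ν] 0 :=
  Lp.coeFn_zero ℂ 2 (wm ν)

theorem L2_ext {ν : V → ℝ} {φ ψ : L2 ν} (h : (φ : V → ℂ) =ᵐ[wm ν] (ψ : V → ℂ)) : φ = ψ :=
  Lp.ext h

theorem wm_singleton (ν : V → ℝ) (x : V) : wm ν {x} = ENNReal.ofReal (ν x) := by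
  rw [wm, Measure.sum_apply _ (measurableSet_singleton x), tsum_eq_single x]
  · simp
  · intro y hy
    simp [hy]

theorem wm_singleton_ne_top (ν : V → ℝ) (x : V) : wm ν {x} ≠ ∞ := by
  rw [wm_singleton]
  exact ENNReal.ofReal_ne_top

/-- The function `δ_x` in `ℓ²(V, ν)`, equal to `1` at `x` and to `0` elsewhere. -/
noncomputable def delta (ν : V → ℝ) (x : V) : L2 ν :=
  (indicatorConstLp 2 (measurableSet_singleton x) (wm_singleton_ne_top ν x) (1 : ℂ) :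
    Lp ℂ 2 (wm ν))

theorem vanish_add (ν : V → ℝ) (W : Set V) {φ ψ : L2 ν}
    (hφ : ∀ᵐ y ∂(wm ν), y ∉ W → φ y = 0) (hψ : ∀ᵐ y ∂(wm ν), y ∉ W → ψ y = 0) :
    ∀ᵐ y ∂(wm ν), y ∉ W → (φ + ψ) y = 0 := by
  filter_upwards [hφ, hψ, val_add φ ψ] with y h1 h2 h3 hy
  rw [h3, Pi.add_apply, h1 hy, h2 hy, add_zero]

theorem vanish_zero (ν : V → ℝ) (W : Set V) : ∀ᵐ y ∂(wm ν), y ∉ W → (0 : L2 ν) y = 0 := by
  filter_upwards [val_zero (ν := ν)] with y h hy
  rw [h, Pi.zero_apply]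

theorem vanish_smul (ν : V → ℝ) (W : Set V) (c : ℂ) {φ : L2 ν}
    (hφ : ∀ᵐ y ∂(wm ν), y ∉ W → φ y = 0) : ∀ᵐ y ∂(wm ν), y ∉ W → (c • φ) y = 0 := by
  filter_upwards [hφ, val_smul c φ] with y h1 h2 hy
  rw [h2, Pi.smul_apply, h1 hy, smul_zero]

/-- The space `ℓ²(W, ν)`, as the subspace of `ℓ²(V, ν)` of the functions vanishing off `W`. -/
noncomputable def sub (ν : V → ℝ) (W : Set V) : Submodule ℂ (L2 ν) where
  carrier := {φ | ∀ᵐ y ∂(wm ν), y ∉ W → φ y = 0}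
  add_mem' := vanish_add ν W
  zero_mem' := vanish_zero ν W
  smul_mem' := vanish_smul ν W

theorem delta_mem (ν : V → ℝ) {W : Set V} {x : V} (hx : x ∈ W) : delta ν x ∈ sub ν W := by
  show ∀ᵐ y ∂(wm ν), y ∉ W → delta ν x y = 0
  filter_upwards [indicatorConstLp_coeFn_notMem (p := 2) (hs := measurableSet_singleton x)
    (hμs := wm_singleton_ne_top ν x) (c := (1 : ℂ))] with y h hy
  exact h fun hyx => hy (by rw [Set.mem_singleton_iff.mp hyx]; exact hx)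

/-- Multiplication of a function in `ℓ²(V, ν)` by the indicator function of `W`. -/
noncomputable def cutFun (ν : V → ℝ) (W : Set V) (φ : L2 ν) : L2 ν :=
  (((memLp_val φ).indicator (MeasurableSet.of_discrete (s := W))).toLp (W.indicator φ) :
    Lp ℂ 2 (wm ν))

theorem cutFun_coe (ν : V → ℝ) (W : Set V) (φ : L2 ν) :
    (cutFun ν W φ : V → ℂ) =ᵐ[wm ν] W.indicator φ :=
  ((memLp_val φ).indicator (MeasurableSet.of_discrete (s := W))).coeFn_toLp

theorem cutFun_add (ν : V → ℝ) (W : Set V) (φ ψ : L2 ν) :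
    cutFun ν W (φ + ψ) = cutFun ν W φ + cutFun ν W ψ := by
  apply L2_ext
  filter_upwards [cutFun_coe ν W (φ + ψ), cutFun_coe ν W φ, cutFun_coe ν W ψ,
    val_add φ ψ, val_add (cutFun ν W φ) (cutFun ν W ψ)] with y h1 h2 h3 h4 h5
  rw [h1, h5, Pi.add_apply, h2, h3]
  by_cases hy : y ∈ W
  · simp only [Set.indicator_of_mem hy, h4, Pi.add_apply]
  · simp only [Set.indicator_of_notMem hy, add_zero]

theorem cutFun_smul (ν : V → ℝ) (W : Set V) (c : ℂ) (φ : L2 ν) :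
    cutFun ν W (c • φ) = c • cutFun ν W φ := by
  apply L2_ext
  filter_upwards [cutFun_coe ν W (c • φ), cutFun_coe ν W φ,
    val_smul c φ, val_smul c (cutFun ν W φ)] with y h1 h2 h3 h4
  rw [h1, h4, Pi.smul_apply, h2]
  by_cases hy : y ∈ W
  · simp only [Set.indicator_of_mem hy, h3, Pi.smul_apply]
  · simp only [Set.indicator_of_notMem hy, smul_zero]

theorem cutFun_norm (ν : V → ℝ) (W : Set V) (φ : L2 ν) : ‖cutFun ν W φ‖ ≤ 1 * ‖φ‖ := by
  rw [one_mul]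
  show ‖(((memLp_val φ).indicator (MeasurableSet.of_discrete (s := W))).toLp (W.indicator φ) :
    Lp ℂ 2 (wm ν))‖ ≤ ‖(show Lp ℂ 2 (wm ν) from φ)‖
  rw [Lp.norm_toLp, Lp.norm_def]
  exact ENNReal.toReal_mono (Lp.eLpNorm_ne_top _) (eLpNorm_indicator_le _)

theorem cutFun_mem (ν : V → ℝ) (W : Set V) (φ : L2 ν) : cutFun ν W φ ∈ sub ν W := by
  show ∀ᵐ y ∂(wm ν), y ∉ W → cutFun ν W φ y = 0
  filter_upwards [cutFun_coe ν W φ] with y h hy
  rw [h, Set.indicator_of_notMem hy]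

/-- The Hilbert space `ℓ²(W, ν)`, i.e. the subspace `sub ν W` of `ℓ²(V, ν)`. -/
def Sub (ν : V → ℝ) (W : Set V) : Type := sub ν W

noncomputable instance instNACGSub (ν : V → ℝ) (W : Set V) : NormedAddCommGroup (Sub ν W) :=
  Submodule.normedAddCommGroup (sub ν W)

noncomputable instance instIPSSub (ν : V → ℝ) (W : Set V) : InnerProductSpace ℂ (Sub ν W) :=
  Submodule.innerProductSpace (sub ν W)

/-- The function `φ ↦ (T φ)|_W` on `ℓ²(W, ν)`. -/
noncomputable def truncFun {ν : V → ℝ} (T : L2 ν →L[ℂ] L2 ν) (W : Set V) (φ : Sub ν W) :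
    Sub ν W :=
  ⟨cutFun ν W (T φ.1), cutFun_mem ν W (T φ.1)⟩

theorem truncFun_add {ν : V → ℝ} (T : L2 ν →L[ℂ] L2 ν) (W : Set V) (φ ψ : Sub ν W) :
    truncFun T W (φ + ψ) = truncFun T W φ + truncFun T W ψ := by
  apply Subtype.ext
  show cutFun ν W (T (φ.1 + ψ.1)) = cutFun ν W (T φ.1) + cutFun ν W (T ψ.1)
  rw [map_add, cutFun_add]

theorem truncFun_smul {ν : V → ℝ} (T : L2 ν →L[ℂ] L2 ν) (W : Set V) (c : ℂ) (φ : Sub ν W) :
    truncFun T W (c • φ) = c • truncFun T W φ := by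
  apply Subtype.ext
  show cutFun ν W (T (c • φ.1)) = c • cutFun ν W (T φ.1)
  rw [map_smul, cutFun_smul]

theorem truncFun_norm {ν : V → ℝ} (T : L2 ν →L[ℂ] L2 ν) (W : Set V) (φ : Sub ν W) :
    ‖truncFun T W φ‖ ≤ ‖T‖ * ‖φ‖ := by
  show ‖cutFun ν W (T φ.1)‖ ≤ ‖T‖ * ‖φ.1‖
  have h1 := cutFun_norm ν W (T φ.1)
  rw [one_mul] at h1
  exact h1.trans (T.le_opNorm φ.1)

/-- The operator `T_W` on `ℓ²(W, ν)`: apply `T` to a function on `W` (extended by zero) and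
restrict the result to `W`. If `T` is given by the formula
`(T φ)(x) = ∑ t(x, y) φ(y) + w(x) φ(x)`, then `T_W` is given by the same formula, for `x` in `W`
and with the sum restricted to `y` in `W`. -/
noncomputable def trunc {ν : V → ℝ} (T : L2 ν →L[ℂ] L2 ν) (W : Set V) :
    Sub ν W →L[ℂ] Sub ν W :=
  LinearMap.mkContinuous ⟨⟨truncFun T W, truncFun_add T W⟩, truncFun_smul T W⟩ ‖T‖
    (truncFun_norm T W)

/-- `δ_x` as an element of `ℓ²(W, ν)`, for `x` in `W`. -/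
noncomputable def deltaSub (ν : V → ℝ) (W : Set V) (x : V) (hx : x ∈ W) : Sub ν W :=
  ⟨delta ν x, delta_mem ν hx⟩

/-- `⟨d, (S - z)⁻¹ d⟩`, for an operator `S` on a Hilbert space `H` and `d` in `H`. -/
noncomputable def resInner {H : Type} [NormedAddCommGroup H] [InnerProductSpace ℂ H]
    (S : H →L[ℂ] H) (d : H) (z : ℂ) : ℂ :=
  inner ℂ d (Ring.inverse (S - z • (1 : H →L[ℂ] H)) d)

/-- `G_x(z, T) = ⟨δ_x, (T - z)⁻¹ δ_x⟩`. -/
noncomputable def greenG {ν : V → ℝ} (T : L2 ν →L[ℂ] L2 ν) (x : V) (z : ℂ) : ℂ :=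
  resInner T (delta ν x) z

/-- `Γ_x(z, T) = ⟨δ_x, (T_x - z)⁻¹ δ_x⟩`, where `T_x` is the truncation of `T` to `V_x`. -/
noncomputable def greenΓ (𝒯 : RootedTree V) {ν : V → ℝ} (T : L2 ν →L[ℂ] L2 ν) (x : V) (z : ℂ) :
    ℂ :=
  resInner (trunc T (𝒯.desc x)) (deltaSub ν (𝒯.desc x) x (𝒯.self_mem_desc x)) z

/-- `T` is a label invariant operator on `ℓ²(V, ν)` with coefficients `t` and `w`, for the tree
`𝒯` with labelling `a` and the matrix `M`. -/
structure IsLabelInvariant {A : Type} (M : A → A → ℕ) (𝒯 : RootedTree V) (a : V → A)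
    (ν : V → ℝ) (t : V → V → ℂ) (w : V → ℝ) (T : L2 ν →L[ℂ] L2 ν) : Prop where
  selfAdjoint : IsSelfAdjoint T
  formula : ∀ (φ : L2 ν) (x : V), T φ x = (∑ᶠ y, t x y * φ y) + w x * φ x
  ne_zero_iff : ∀ x y, t x y ≠ 0 ↔ 𝒯.Adj x y
  symm : ∀ x y, t x y * ν x = (starRingEnd ℂ) (t y x) * ν y
  exists_m : ∃ (m : A → A → ℝ) (m' : A → ℝ), ∀ x y, 𝒯.Adj x y →
    ‖t x y‖ ^ 2 * M (a x) (a y) = m (a x) (a y) ∧ w x = m' (a x)

end Pool.Agent.R748.Cone
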