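import Mathlib
import Pool.Agent.R748.ConeDefs

/-! Hilbert space facts for MP_ae9099_mp. -/

namespace Pool.Agent.R748.Cone

open MeasureTheory
open scoped ENNReal InnerProductSpace

section abstract

variable {H : Type} [NormedAddCommGroup H] [InnerProductSpace ℂ H] [CompleteSpace H]

theorem isUnit_sub {S : H →L[ℂ] H} (hS : IsSelfAdjoint S) {z : ℂ} (hz : 0 < z.im) :
    IsUnit (S - z • (1 : H →L[ℂ] H)) := by
  have h1 : z ∉ spectrum ℂ S := by
    intro h
    have := hS.mem_spectrum_eq_re h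
    rw [this] at hz
    simp at hz
  rw [spectrum.notMem_iff] at h1
  have h2 : S - z • (1 : H →L[ℂ] H) = -(algebraMap ℂ (H →L[ℂ] H) z - S) := by
    rw [Algebra.algebraMap_eq_smul_one, neg_sub]
  rw [h2]
  exact h1.neg

theorem inverse_spec {S : H →L[ℂ] H} (hS : IsSelfAdjoint S) {z : ℂ} (hz : 0 < z.im) (d : H) :
    (S - z • (1 : H →L[ℂ] H)) (Ring.inverse (S - z • (1 : H →L[ℂ] H)) d) = d := by
  have h := Ring.mul_inverse_cancel _ (isUnit_sub hS hz)
  have h2 := congrArg (fun A : H →L[ℂ] H => A d) h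
  simpa using h2

theorem inj_of_sa {S : H →L[ℂ] H} (hS : IsSelfAdjoint S) {z : ℂ} (hz : 0 < z.im) {u v : H}
    (h : (S - z • (1 : H →L[ℂ] H)) u = (S - z • (1 : H →L[ℂ] H)) v) : u = v := by
  have h1 := Ring.inverse_mul_cancel _ (isUnit_sub hS hz)
  have h2 := congrArg (fun A : H →L[ℂ] H => A u) h1
  have h3 := congrArg (fun A : H →L[ℂ] H => A v) h1
  simp only [mul_apply_eq_comp, one_apply_eq_self] at h2 h3
  rw [← h2, ← h3, h]

theorem im_inner_eq {S : H →L[ℂ] H} (hS : IsSelfAdjoint S) {z : ℂ} (u : H) :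
    (inner ℂ ((S - z • (1 : H →L[ℂ] H)) u) u).im = z.im * ‖u‖ ^ 2 := by
  have h1 : (inner ℂ (S u) u).im = 0 := by
    have h2 : inner ℂ (S u) u = inner ℂ u (S u) := by
      have := hS.isSymmetric u u
      simpa using this
    have h3 : (starRingEnd ℂ) (inner ℂ (S u) u) = inner ℂ (S u) u := by
      rw [inner_conj_symm, ← h2]
    exact Complex.conj_eq_iff_im.mp h3
  have h4 : (S - z • (1 : H →L[ℂ] H)) u = S u - z • u := by simp
  rw [h4, inner_sub_left, inner_smul_left, inner_self_eq_norm_sq_to_K, Complex.sub_im, h1]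
  have h5 : ((starRingEnd ℂ) z * ((‖u‖ : ℝ) : ℂ) ^ 2).im = - (z.im * ‖u‖ ^ 2) := by
    rw [← Complex.ofReal_pow, Complex.mul_im, Complex.ofReal_re, Complex.ofReal_im]
    simp
  have h6 : ((starRingEnd ℂ) z * ((RCLike.ofReal ‖u‖ : ℂ)) ^ 2).im = - (z.im * ‖u‖ ^ 2) := h5
  rw [h6]
  ring

theorem green_im {S : H →L[ℂ] H} (hS : IsSelfAdjoint S) {z : ℂ} (hz : 0 < z.im) (d : H) :
    (inner ℂ d (Ring.inverse (S - z • (1 : H →L[ℂ] H)) d)).im =
      z.im * ‖Ring.inverse (S - z • (1 : H →L[ℂ] H)) d‖ ^ 2 := by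
  have h := im_inner_eq hS (z := z) (Ring.inverse (S - z • (1 : H →L[ℂ] H)) d)
  rw [inverse_spec hS hz] at h
  exact h

theorem green_norm_le {S : H →L[ℂ] H} (hS : IsSelfAdjoint S) {z : ℂ} (hz : 0 < z.im) (d : H) :
    ‖inner ℂ d (Ring.inverse (S - z • (1 : H →L[ℂ] H)) d)‖ ≤ ‖d‖ ^ 2 / z.im := by
  set u := Ring.inverse (S - z • (1 : H →L[ℂ] H)) d with hu
  have h1 := green_im hS hz d
  rw [← hu] at h1
  have h2 : ‖inner ℂ d u‖ ≤ ‖d‖ * ‖u‖ := norm_inner_le_norm d u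
  have h3 : (inner ℂ d u).im ≤ ‖inner ℂ d u‖ := (le_abs_self _).trans (Complex.abs_im_le_norm _)
  have h4 : z.im * ‖u‖ ^ 2 ≤ ‖d‖ * ‖u‖ := by rw [← h1]; exact h3.trans h2
  have h5 : z.im * ‖u‖ ≤ ‖d‖ := by
    rcases (norm_nonneg u).eq_or_lt with h | h
    · rw [← h, mul_zero]; exact norm_nonneg d
    · have : z.im * ‖u‖ * ‖u‖ ≤ ‖d‖ * ‖u‖ := by nlinarith
      exact le_of_mul_le_mul_right this h
  rw [le_div_iff₀ hz]
  calc ‖inner ℂ d u‖ * z.im ≤ (‖d‖ * ‖u‖) * z.im := by gcongr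
    _ = ‖d‖ * (z.im * ‖u‖) := by ring
    _ ≤ ‖d‖ * ‖d‖ := by gcongr
    _ = ‖d‖ ^ 2 := by ring

theorem green_analytic {S : H →L[ℂ] H} (hS : IsSelfAdjoint S) (d : H) :
    DifferentiableOn ℂ (fun z => inner ℂ d (Ring.inverse (S - z • (1 : H →L[ℂ] H)) d))
      {z : ℂ | 0 < z.im} := by
  intro z hz
  have h1 : DifferentiableAt ℂ (fun z : ℂ => S - z • (1 : H →L[ℂ] H)) z := by fun_prop
  have h2 : DifferentiableAt ℂ (Ring.inverse : (H →L[ℂ] H) → (H →L[ℂ] H))
      (S - z • (1 : H →L[ℂ] H)) := differentiableAt_inverse (isUnit_sub hS hz)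
  have h3' : DifferentiableAt ℂ ((Ring.inverse : (H →L[ℂ] H) → (H →L[ℂ] H)) ∘
      fun z : ℂ => S - z • (1 : H →L[ℂ] H)) z := h2.comp z h1
  have h3 : DifferentiableAt ℂ (fun z : ℂ => Ring.inverse (S - z • (1 : H →L[ℂ] H))) z := h3'
  have h4 : DifferentiableAt ℂ (fun z : ℂ => Ring.inverse (S - z • (1 : H →L[ℂ] H)) d) z :=
    h3.clm_apply (differentiableAt_const d)
  have h5 : DifferentiableAt ℂ (fun v : H => inner ℂ d v) (Ring.inverse (S - z • (1 : H →L[ℂ] H)) d) :=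
    (innerSL ℂ d).differentiableAt
  exact (h5.comp z h4).differentiableWithinAt

end abstract

variable {V : Type} [MeasurableSpace V] [DiscreteMeasurableSpace V] {ν : V → ℝ}

theorem ae_wm (hν : ∀ x, 0 < ν x) {p : V → Prop} (h : ∀ᵐ x ∂(wm ν), p x) (x : V) : p x := by
  by_contra hx
  rw [ae_iff] at h
  have h1 : wm ν {x} ≤ wm ν {a | ¬ p a} := measure_mono (by simpa using hx)
  rw [h, wm_singleton] at h1
  have := hν x
  simp at h1
  linarith

theorem L2ext (φ ψ : L2 ν) (h : ∀ x, φ x = ψ x) : φ = ψ :=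
  L2_ext (Filter.Eventually.of_forall h)

theorem add_apply' (hν : ∀ x, 0 < ν x) (φ ψ : L2 ν) (x : V) : (φ + ψ) x = φ x + ψ x :=
  ae_wm hν (val_add φ ψ) x

theorem sub_apply' (hν : ∀ x, 0 < ν x) (φ ψ : L2 ν) (x : V) : (φ - ψ) x = φ x - ψ x :=
  ae_wm hν (val_sub φ ψ) x

theorem smul_apply' (hν : ∀ x, 0 < ν x) (c : ℂ) (φ : L2 ν) (x : V) : (c • φ) x = c * φ x :=
  ae_wm hν (val_smul c φ) x

theorem cut_apply (hν : ∀ x, 0 < ν x) (W : Set V) (φ : L2 ν) (x : V) :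
    cutFun ν W φ x = W.indicator φ x :=
  ae_wm hν (cutFun_coe ν W φ) x

theorem mem_sub_iff (hν : ∀ x, 0 < ν x) (W : Set V) (φ : L2 ν) :
    φ ∈ sub ν W ↔ ∀ y ∉ W, φ y = 0 :=
  ⟨fun h y => ae_wm hν h y, fun h =>
    (Filter.Eventually.of_forall h : ∀ᵐ y ∂(wm ν), y ∉ W → φ y = 0)⟩

open Classical in
theorem delta_apply (hν : ∀ x, 0 < ν x) (x y : V) : delta ν x y = if y = x then 1 else 0 := by
  split_ifs with h
  · exact ae_wm hν (indicatorConstLp_coeFn_mem (p := 2) (hs := measurableSet_singleton x)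
      (hμs := wm_singleton_ne_top ν x) (c := (1 : ℂ))) y h
  · exact ae_wm hν (indicatorConstLp_coeFn_notMem (p := 2) (hs := measurableSet_singleton x)
      (hμs := wm_singleton_ne_top ν x) (c := (1 : ℂ))) y h

theorem inner_delta (hν : ∀ x, 0 < ν x) (x : V) (φ : L2 ν) :
    inner ℂ (delta ν x) φ = ν x * φ x := by
  have h := L2.inner_indicatorConstLp_one (𝕜 := ℂ) (measurableSet_singleton x)
    (wm_singleton_ne_top ν x) (show Lp ℂ 2 (wm ν) from φ)
  rw [integral_singleton, Measure.real, wm_singleton, ENNReal.toReal_ofReal (hν x).le] at h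
  refine Eq.trans h ?_
  simp
  left
  rfl

theorem norm_delta_sq (hν : ∀ x, 0 < ν x) (x : V) : ‖delta ν x‖ ^ 2 = ν x := by
  have h1 := inner_delta hν x (delta ν x)
  have h3 : inner ℂ (delta ν x) (delta ν x) = ((‖delta ν x‖ : ℂ)) ^ 2 :=
    inner_self_eq_norm_sq_to_K (𝕜 := ℂ) (delta ν x)
  rw [delta_apply hν, if_pos rfl, mul_one] at h1
  have h2 : ((‖delta ν x‖ ^ 2 : ℝ) : ℂ) = (ν x : ℂ) := by
    rw [← h1, Complex.ofReal_pow]; exact h3.symm
  exact_mod_cast h2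

theorem cut_eq_self_iff (hν : ∀ x, 0 < ν x) (W : Set V) (φ : L2 ν) :
    cutFun ν W φ = φ ↔ φ ∈ sub ν W := by
  constructor
  · intro h
    rw [← h]
    exact cutFun_mem ν W φ
  · intro h
    apply L2ext
    intro x
    rw [cut_apply hν]
    by_cases hx : x ∈ W
    · rw [Set.indicator_of_mem hx]
    · rw [Set.indicator_of_notMem hx, (mem_sub_iff hν W φ).mp h x hx]

theorem cutFun_continuous (W : Set V) : Continuous (cutFun ν W) := by
  have h : Continuous (LinearMap.mkContinuous ⟨⟨cutFun ν W, cutFun_add ν W⟩, cutFun_smul ν W⟩ 1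
    (cutFun_norm ν W) : L2 ν →L[ℂ] L2 ν) := ContinuousLinearMap.continuous _
  exact h

theorem isClosed_sub (hν : ∀ x, 0 < ν x) (W : Set V) : IsClosed (sub ν W : Set (L2 ν)) := by
  have : (sub ν W : Set (L2 ν)) = {φ | cutFun ν W φ = φ} := by
    ext φ
    exact (cut_eq_self_iff hν W φ).symm
  rw [this]
  exact isClosed_eq (cutFun_continuous W) continuous_id

theorem complete_Sub (hν : ∀ x, 0 < ν x) (W : Set V) : CompleteSpace (Sub ν W) :=
  (isClosed_sub hν W).completeSpace_coe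

theorem cut_symm (W : Set V) (φ ψ : L2 ν) :
    inner ℂ (cutFun ν W φ) ψ = inner ℂ φ (cutFun ν W ψ) := by
  show inner ℂ (show Lp ℂ 2 (wm ν) from cutFun ν W φ) (show Lp ℂ 2 (wm ν) from ψ) =
    inner ℂ (show Lp ℂ 2 (wm ν) from φ) (show Lp ℂ 2 (wm ν) from cutFun ν W ψ)
  rw [MeasureTheory.L2.inner_def, MeasureTheory.L2.inner_def]
  apply integral_congr_ae
  filter_upwards [cutFun_coe ν W φ, cutFun_coe ν W ψ] with x h1 h2
  show inner ℂ (val (cutFun ν W φ) x) (val ψ x) = inner ℂ (val φ x) (val (cutFun ν W ψ) x)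
  rw [h1, h2]
  by_cases hx : x ∈ W
  · rw [Set.indicator_of_mem hx, Set.indicator_of_mem hx]
  · rw [Set.indicator_of_notMem hx, Set.indicator_of_notMem hx]
    simp

theorem trunc_sa (hν : ∀ x, 0 < ν x) {T : L2 ν →L[ℂ] L2 ν} (hT : IsSelfAdjoint T) (W : Set V) :
    haveI : CompleteSpace (Sub ν W) := complete_Sub hν W
    IsSelfAdjoint (trunc T W) := by
  haveI : CompleteSpace (Sub ν W) := complete_Sub hν W
  rw [ContinuousLinearMap.isSelfAdjoint_iff_isSymmetric]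
  intro φ ψ
  show inner ℂ (cutFun ν W (T φ.1)) ψ.1 = inner ℂ φ.1 (cutFun ν W (T ψ.1))
  rw [cut_symm, ← cut_symm W φ.1, (cut_eq_self_iff hν W ψ.1).mpr ψ.2,
    (cut_eq_self_iff hν W φ.1).mpr φ.2]
  exact hT.isSymmetric φ.1 ψ.1

/-- the solution `(T_W - z)⁻¹ δ_x`, as an element of `ℓ²(W, ν)`. -/
noncomputable def solS (T : L2 ν →L[ℂ] L2 ν) (W : Set V) (x : V) (hx : x ∈ W) (z : ℂ) : Sub ν W :=
  Ring.inverse (trunc T W - z • (1 : Sub ν W →L[ℂ] Sub ν W)) (deltaSub ν W x hx)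

/-- the solution `(T_W - z)⁻¹ δ_x`, as a function on `V`. -/
noncomputable def sol (T : L2 ν →L[ℂ] L2 ν) (W : Set V) (x : V) (hx : x ∈ W) (z : ℂ) : L2 ν :=
  (solS T W x hx z).1

theorem sol_mem (T : L2 ν →L[ℂ] L2 ν) (W : Set V) (x : V) (hx : x ∈ W) (z : ℂ) :
    sol T W x hx z ∈ sub ν W := (solS T W x hx z).2

open Classical in
theorem sol_eq (hν : ∀ x, 0 < ν x) {T : L2 ν →L[ℂ] L2 ν} (hT : IsSelfAdjoint T) {W : Set V}
    {x : V} (hx : x ∈ W) {z : ℂ} (hz : 0 < z.im) {y : V} (hy : y ∈ W) :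
    T (sol T W x hx z) y - z * sol T W x hx z y = if y = x then 1 else 0 := by
  have : CompleteSpace (Sub ν W) := complete_Sub hν W
  have h := inverse_spec (trunc_sa hν hT W) hz (deltaSub ν W x hx)
  have h2 : cutFun ν W (T (sol T W x hx z)) - z • sol T W x hx z = delta ν x :=
    congrArg Subtype.val h
  have h3 : (cutFun ν W (T (sol T W x hx z)) - z • sol T W x hx z) y = delta ν x y := by rw [h2]
  rw [sub_apply' hν, cut_apply hν, Set.indicator_of_mem hy, smul_apply' hν, delta_apply hν] at h3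
  exact h3

open Classical in
theorem sol_unique (hν : ∀ x, 0 < ν x) {T : L2 ν →L[ℂ] L2 ν} (hT : IsSelfAdjoint T) {W : Set V}
    {x : V} (hx : x ∈ W) {z : ℂ} (hz : 0 < z.im) (v : L2 ν) (hv : ∀ y ∉ W, v y = 0) (a : ℂ)
    (h : ∀ y ∈ W, T v y - z * v y = a * if y = x then 1 else 0) :
    v = a • sol T W x hx z := by
  have : CompleteSpace (Sub ν W) := complete_Sub hν W
  have hvm : v ∈ sub ν W := (mem_sub_iff hν W v).mpr hv
  let v' : Sub ν W := ⟨v, hvm⟩
  have key : v' = a • solS T W x hx z := by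
    apply inj_of_sa (trunc_sa hν hT W) hz
    rw [map_smul, solS, inverse_spec (trunc_sa hν hT W) hz]
    apply Subtype.ext
    show cutFun ν W (T v) - z • v = a • delta ν x
    apply L2ext
    intro y
    rw [sub_apply' hν, cut_apply hν, smul_apply' hν, smul_apply' hν, delta_apply hν]
    by_cases hy : y ∈ W
    · rw [Set.indicator_of_mem hy, h y hy]
    · rw [Set.indicator_of_notMem hy, hv y hy]
      have : y ≠ x := fun h => hy (h ▸ hx)
      rw [if_neg this]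
      simp
  exact congrArg Subtype.val key

theorem inner_sol (hν : ∀ x, 0 < ν x) {T : L2 ν →L[ℂ] L2 ν} {W : Set V}
    {x : V} (hx : x ∈ W) (z : ℂ) :
    inner ℂ (deltaSub ν W x hx) (solS T W x hx z) = ν x * sol T W x hx z x :=
  inner_delta hν x (sol T W x hx z)

theorem sol_im_pos (hν : ∀ x, 0 < ν x) {T : L2 ν →L[ℂ] L2 ν} (hT : IsSelfAdjoint T) {W : Set V}
    {x : V} (hx : x ∈ W) {z : ℂ} (hz : 0 < z.im) : 0 < (sol T W x hx z x).im := by
  have : CompleteSpace (Sub ν W) := complete_Sub hν W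
  have h1 := green_im (trunc_sa hν hT W) hz (deltaSub ν W x hx)
  have h1' : (inner ℂ (deltaSub ν W x hx) (solS T W x hx z)).im =
      z.im * ‖solS T W x hx z‖ ^ 2 := h1
  rw [inner_sol hν hx z] at h1'
  have h2 : ((ν x : ℂ) * sol T W x hx z x).im = ν x * (sol T W x hx z x).im := by
    rw [Complex.im_ofReal_mul]
  rw [h2] at h1'
  have h3 : 0 < ‖solS T W x hx z‖ := by
    rw [norm_pos_iff]
    intro h0
    have h4 := inverse_spec (trunc_sa hν hT W) hz (deltaSub ν W x hx)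
    have h4' : (trunc T W - z • (1 : Sub ν W →L[ℂ] Sub ν W)) (solS T W x hx z) =
      deltaSub ν W x hx := h4
    rw [h0, map_zero] at h4'
    have h5 : (0 : L2 ν) = delta ν x := congrArg Subtype.val h4'
    have h6 := norm_delta_sq hν x
    rw [← h5] at h6
    have := hν x
    simp at h6
    linarith
  have h7 : 0 < ν x * (sol T W x hx z x).im := by
    rw [h1']; positivity
  exact (pos_iff_pos_of_mul_pos h7).mp (hν x)

theorem sol_norm_le (hν : ∀ x, 0 < ν x) {T : L2 ν →L[ℂ] L2 ν} (hT : IsSelfAdjoint T)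
    {W : Set V} {x : V} (hx : x ∈ W) {z : ℂ} (hz : 0 < z.im) :
    ‖sol T W x hx z x‖ ≤ 1 / z.im := by
  have : CompleteSpace (Sub ν W) := complete_Sub hν W
  have h1 := green_norm_le (trunc_sa hν hT W) hz (deltaSub ν W x hx)
  have h1' : ‖inner ℂ (deltaSub ν W x hx) (solS T W x hx z)‖ ≤
      ‖deltaSub ν W x hx‖ ^ 2 / z.im := h1
  rw [inner_sol hν hx z, norm_mul, Complex.norm_real, Real.norm_of_nonneg (hν x).le] at h1'
  have h2 : ‖deltaSub ν W x hx‖ ^ 2 = ν x := norm_delta_sq hν x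
  rw [h2, div_eq_mul_one_div] at h1'
  exact le_of_mul_le_mul_left h1' (hν x)

theorem sol_differentiableOn (hν : ∀ x, 0 < ν x) {T : L2 ν →L[ℂ] L2 ν} (hT : IsSelfAdjoint T)
    {W : Set V} {x : V} (hx : x ∈ W) :
    DifferentiableOn ℂ (fun z => sol T W x hx z x) {z : ℂ | 0 < z.im} := by
  have : CompleteSpace (Sub ν W) := complete_Sub hν W
  have h1 := green_analytic (trunc_sa hν hT W) (deltaSub ν W x hx)
  have h2 : (fun z => sol T W x hx z x) = fun z => (ν x : ℂ)⁻¹ *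
      inner ℂ (deltaSub ν W x hx)
      (Ring.inverse (trunc T W - z • (1 : Sub ν W →L[ℂ] Sub ν W)) (deltaSub ν W x hx)) := by
    funext z
    have h3 := inner_sol (T := T) hν hx z
    have h3' : inner ℂ (deltaSub ν W x hx)
      (Ring.inverse (trunc T W - z • (1 : Sub ν W →L[ℂ] Sub ν W)) (deltaSub ν W x hx)) =
      ν x * sol T W x hx z x := h3
    rw [h3', ← mul_assoc, inv_mul_cancel₀, one_mul]
    exact_mod_cast (hν x).ne'
  rw [h2]
  exact h1.const_mul _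

end Pool.Agent.R748.Cone
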