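import Mathlib
import Pool.Agent.R748.ConeAlg2

/-! Boundary limits of bounded algebraic functions on the upper half plane (for MP_ae9099_mp). -/

namespace Pool.Agent.R748.Cone

open Polynomial Filter Topology

theorem exists_nonvanishing (f : ℂ → ℂ) (E : ℂ) (hE : E ∉ HP) (i : ℕ) :
    ∀ (n : ℕ) (P : ℂ[X][X]), (P.coeff i).natDegree ≤ n → P.coeff i ≠ 0 →
      (∀ z ∈ HP, (P.map (evalRingHom z)).eval (f z) = 0) →
      ∃ Q : ℂ[X][X], Q.map (evalRingHom E) ≠ 0 ∧
        ∀ z ∈ HP, (Q.map (evalRingHom z)).eval (f z) = 0 := by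
  intro n
  induction n with
  | zero =>
    intro P hn hi hP
    refine ⟨P, fun h => ?_, hP⟩
    have h1 : (P.map (evalRingHom E)).coeff i = 0 := by rw [h]; simp
    rw [coeff_map] at h1
    rw [Nat.le_zero, natDegree_eq_zero] at hn
    obtain ⟨a, ha⟩ := hn
    rw [← ha] at h1 hi
    simp at h1
    exact hi (by rw [h1, map_zero])
  | succ n ih =>
    intro P hn hi hP
    by_cases h : P.map (evalRingHom E) = 0
    · have hdvd : C (X - C E) ∣ P := by
        rw [C_dvd_iff_dvd_coeff]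
        intro k
        rw [dvd_iff_isRoot]
        have h1 : (P.map (evalRingHom E)).coeff k = 0 := by rw [h]; simp
        rw [coeff_map] at h1
        exact h1
      obtain ⟨Q, rfl⟩ := hdvd
      rw [coeff_C_mul] at hn hi
      have hQi : Q.coeff i ≠ 0 := right_ne_zero_of_mul hi
      have hdeg : ((X - C E) * Q.coeff i).natDegree = 1 + (Q.coeff i).natDegree := by
        rw [natDegree_mul (X_sub_C_ne_zero E) hQi, natDegree_X_sub_C]
      refine ih Q (by omega) hQi ?_
      intro z hz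
      have h2 := hP z hz
      rw [Polynomial.map_mul, eval_mul, map_C, eval_C] at h2
      rcases mul_eq_zero.mp h2 with h3 | h3
      · exfalso
        simp at h3
        have : z = E := sub_eq_zero.mp h3
        exact hE (this ▸ hz)
      · exact h3
    · exact ⟨P, h, hP⟩

theorem continuous_eval2 (Q : ℂ[X][X]) :
    Continuous fun p : ℂ × ℂ => (Q.map (evalRingHom p.1)).eval p.2 := by
  have h : ∀ p : ℂ × ℂ, (Q.map (evalRingHom p.1)).eval p.2 =
      ∑ k ∈ Finset.range (Q.natDegree + 1), (Q.coeff k).eval p.1 * p.2 ^ k := by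
    intro p
    rw [eval_map, eval₂_eq_sum_range]
    rfl
  simp only [h]
  refine continuous_finset_sum _ fun k _ => ?_
  exact ((Polynomial.continuous _).comp continuous_fst).mul (continuous_snd.pow k)

theorem exists_lim (f : ℂ → ℂ) (hf : ContinuousOn f HP) (B : ℝ) (hB : ∀ z ∈ HP, ‖f z‖ ≤ B)
    (P : ℂ[X][X]) (hP : P ≠ 0)
    (hPf : ∀ z ∈ HP, (P.map (evalRingHom z)).eval (f z) = 0) (E : ℂ) (hE : E.im = 0) :
    ∃ L, Tendsto f (𝓝[HP] E) (𝓝 L) := by
  have hEHP : E ∉ HP := by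
    intro h
    have h' : 0 < E.im := h
    rw [hE] at h'
    exact lt_irrefl _ h'
  obtain ⟨i, hi⟩ : ∃ i, P.coeff i ≠ 0 := by
    by_contra h
    push Not at h
    exact hP (Polynomial.ext fun n => by rw [h n, coeff_zero])
  obtain ⟨Q, hQ0, hQ⟩ := exists_nonvanishing f E hEHP i _ P le_rfl hi hPf
  have hne : (𝓝[HP] E).NeBot := by
    rw [← mem_closure_iff_nhdsWithin_neBot]
    rw [Metric.mem_closure_iff]
    intro ε hε
    refine ⟨E + (ε / 2 : ℝ) * Complex.I, ?_, ?_⟩
    · show 0 < (E + (ε / 2 : ℝ) * Complex.I).im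
      simp [hE]
      exact hε
    · rw [dist_eq_norm]
      simp only [sub_add_cancel_left, norm_neg, norm_mul, Complex.norm_I, mul_one,
        Complex.norm_real, Real.norm_eq_abs]
      rw [abs_of_pos (by linarith)]
      linarith
  have hcauchy : Cauchy (map f (𝓝[HP] E)) := by
    rw [Metric.cauchy_iff]
    refine ⟨hne.map f, fun ε hε => ?_⟩
    set Z : Set ℂ := {ζ | (Q.map (evalRingHom E)).eval ζ = 0} with hZ
    have hZfin : Z.Finite := by
      have : Z ⊆ ((Q.map (evalRingHom E)).roots.toFinset : Set ℂ) := by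
        intro ζ hζ
        simp only [Finset.mem_coe, Multiset.mem_toFinset]
        rw [mem_roots hQ0]
        exact hζ
      exact (Finset.finite_toSet _).subset this
    obtain ⟨U, hU, hUd⟩ := hZfin.t2_separation
    let V : ℂ → Set ℂ := fun ζ => U ζ ∩ Metric.ball ζ (ε / 2)
    have hVo : ∀ ζ, IsOpen (V ζ) := fun ζ => (hU ζ).2.inter Metric.isOpen_ball
    have hVd : ∀ ζ ∈ Z, ∀ ζ' ∈ Z, ζ ≠ ζ' → Disjoint (V ζ) (V ζ') := fun ζ hζ ζ' hζ' hne' =>
      (hUd hζ hζ' hne').mono Set.inter_subset_left Set.inter_subset_left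
    have hWo : IsOpen (⋃ ζ ∈ Z, V ζ) := isOpen_biUnion fun ζ _ => hVo ζ
    have hKc : IsCompact (Metric.closedBall (0 : ℂ) B \ ⋃ ζ ∈ Z, V ζ) :=
      (isCompact_closedBall 0 B).diff hWo
    have hev : ∀ᶠ z in 𝓝 E, ∀ w ∈ Metric.closedBall (0 : ℂ) B \ ⋃ ζ ∈ Z, V ζ,
        (Q.map (evalRingHom z)).eval w ≠ 0 := by
      apply hKc.eventually_forall_of_forall_eventually
      intro w hw
      have hw0 : (Q.map (evalRingHom E)).eval w ≠ 0 := by
        intro h0
        apply hw.2
        simp only [Set.mem_iUnion]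
        exact ⟨w, h0, (hU w).1, Metric.mem_ball_self (by linarith)⟩
      exact (continuous_eval2 Q).continuousAt.eventually_ne hw0
    obtain ⟨δ, hδ, hδ'⟩ := Metric.eventually_nhds_iff_ball.mp hev
    have hS : HP ∩ Metric.ball E δ ∈ 𝓝[HP] E :=
      inter_mem self_mem_nhdsWithin (mem_nhdsWithin_of_mem_nhds (Metric.ball_mem_nhds E hδ))
    have hSpre : IsPreconnected (HP ∩ Metric.ball E δ) :=
      (convex_HP.inter (convex_ball E δ)).isPreconnected
    have himg : IsPreconnected (f '' (HP ∩ Metric.ball E δ)) :=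
      hSpre.image f (hf.mono Set.inter_subset_left)
    have hsub : f '' (HP ∩ Metric.ball E δ) ⊆ ⋃ ζ ∈ Z, V ζ := by
      rintro _ ⟨z, ⟨hz, hzb⟩, rfl⟩
      by_contra hcon
      refine hδ' z hzb (f z) ⟨?_, hcon⟩ (hQ z hz)
      rw [mem_closedBall_zero_iff]
      exact hB z hz
    obtain ⟨z0, hz0⟩ : (HP ∩ Metric.ball E δ).Nonempty := nonempty_of_mem hS
    have hz0' := hsub ⟨z0, hz0, rfl⟩
    simp only [Set.mem_iUnion] at hz0'
    obtain ⟨ζ0, hζ0, hζ0'⟩ := hz0'
    have hA : f '' (HP ∩ Metric.ball E δ) ⊆ V ζ0 := by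
      refine IsPreconnected.subset_left_of_subset_union (hVo ζ0)
        (v := ⋃ ζ ∈ Z \ {ζ0}, V ζ) (isOpen_biUnion fun ζ _ => hVo ζ) ?_ ?_
        ⟨f z0, ⟨z0, hz0, rfl⟩, hζ0'⟩ himg
      · rw [Set.disjoint_iUnion₂_right]
        intro ζ hζ
        exact hVd ζ0 hζ0 ζ hζ.1 (fun h => hζ.2 h.symm)
      · intro x hx
        have := hsub hx
        simp only [Set.mem_iUnion] at this
        obtain ⟨ζ, hζ, hζ'⟩ := this
        by_cases h : ζ = ζ0
        · left; rw [← h]; exact hζ'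
        · right
          simp only [Set.mem_iUnion]
          exact ⟨ζ, ⟨hζ, h⟩, hζ'⟩
    refine ⟨f '' (HP ∩ Metric.ball E δ), image_mem_map hS, ?_⟩
    intro x hx y hy
    have h1 := (hA hx).2
    have h2 := (hA hy).2
    rw [Metric.mem_ball] at h1 h2
    calc dist x y ≤ dist x ζ0 + dist y ζ0 := dist_triangle_right _ _ _
      _ < ε / 2 + ε / 2 := add_lt_add h1 h2
      _ = ε := by ring
  obtain ⟨L, hL⟩ := CompleteSpace.complete hcauchy
  exact ⟨L, hL⟩

end Pool.Agent.R748.Cone
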