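import Mathlib
import Pool.Agent.R748.ConeHilb

/-! Tree combinatorics and the recursion formulas for MP_ae9099_mp. -/

namespace Pool.Agent.R748.Cone

open MeasureTheory

namespace RootedTree

variable {V : Type} (𝒯 : RootedTree V)

theorem iter_root (n : ℕ) : 𝒯.parent^[n] 𝒯.root = 𝒯.root := by
  induction n with
  | zero => rfl
  | succ n ih => rw [Function.iterate_succ_apply, 𝒯.parent_root, ih]

theorem eq_root_of_periodic {x : V} {m : ℕ} (hm : 1 ≤ m) (h : 𝒯.parent^[m] x = x) :
    x = 𝒯.root := by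
  obtain ⟨k, hk⟩ := 𝒯.reach x
  have h1 : ∀ n : ℕ, 𝒯.parent^[m * n] x = x := by
    intro n
    induction n with
    | zero => rfl
    | succ n ih => rw [Nat.mul_succ, Function.iterate_add_apply, h, ih]
  have h2 : 𝒯.parent^[m * k] x = 𝒯.root := by
    have : m * k = (m * k - k) + k := by
      have : k ≤ m * k := Nat.le_mul_of_pos_left k hm
      omega
    rw [this, Function.iterate_add_apply, hk, iter_root]
  rw [← h1 k, h2]

theorem not_mem_desc_child {c x : V} (h : 𝒯.IsChild c x) : x ∉ 𝒯.desc c := by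
  rintro ⟨n, hn⟩
  have h1 : 𝒯.parent^[n + 1] x = x := by
    rw [Function.iterate_succ_apply', hn, h.2]
  have h2 := 𝒯.eq_root_of_periodic (by omega) h1
  rw [h2, iter_root] at hn
  exact h.1 hn.symm

theorem desc_child_subset {c x : V} (h : 𝒯.IsChild c x) : 𝒯.desc c ⊆ 𝒯.desc x := by
  rintro y ⟨n, hn⟩
  exact ⟨n + 1, by rw [Function.iterate_succ_apply', hn, h.2]⟩

theorem adj_desc {c x : V} (h : 𝒯.IsChild c x) {y y' : V} (hy : y ∈ 𝒯.desc c)
    (hyy' : 𝒯.Adj y y') : y' ∈ 𝒯.desc c ∨ (y = c ∧ y' = x) := by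
  obtain ⟨n, hn⟩ := hy
  rcases hyy' with h1 | h1
  · left
    exact ⟨n + 1, by rw [Function.iterate_succ_apply, h1.2, hn]⟩
  · cases n with
    | zero =>
      right
      have hyc : y = c := hn
      refine ⟨hyc, ?_⟩
      rw [← h1.2, hyc, h.2]
    | succ n =>
      left
      refine ⟨n, ?_⟩
      rw [Function.iterate_succ_apply, h1.2] at hn
      exact hn

theorem adj_symm {x y : V} (h : 𝒯.Adj x y) : 𝒯.Adj y x := h.symm

theorem desc_root : 𝒯.desc 𝒯.root = Set.univ := by
  ext x
  simp only [Set.mem_univ, iff_true]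
  exact 𝒯.reach x

end RootedTree

variable {A V : Type} [MeasurableSpace V] [DiscreteMeasurableSpace V] {M : A → A → ℕ}
  {𝒯 : RootedTree V} {a : V → A} {ν : V → ℝ} {t : V → V → ℂ} {w : V → ℝ} {T : L2 ν →L[ℂ] L2 ν}

omit [MeasurableSpace V] [DiscreteMeasurableSpace V] in
theorem children_finite [Finite A]
    (hch : ∀ x l, {y | 𝒯.IsChild y x ∧ a y = l}.encard = M (a x) l) (x : V) :
    {y | 𝒯.IsChild y x}.Finite := by
  have h : {y | 𝒯.IsChild y x} = ⋃ l, {y | 𝒯.IsChild y x ∧ a y = l} := by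
    ext y
    simp
  rw [h]
  apply Set.finite_iUnion
  intro l
  apply Set.finite_of_encard_eq_coe (hch x l)

omit [MeasurableSpace V] [DiscreteMeasurableSpace V] in
theorem adj_finite [Finite A]
    (hch : ∀ x l, {y | 𝒯.IsChild y x ∧ a y = l}.encard = M (a x) l) (x : V) :
    {y | 𝒯.Adj x y}.Finite := by
  refine ((children_finite hch x).union (Set.finite_singleton (𝒯.parent x))).subset ?_
  rintro y (h | h)
  · left; exact h
  · right; exact h.2.symm

theorem supp_finite [Finite A]
    (hch : ∀ x l, {y | 𝒯.IsChild y x ∧ a y = l}.encard = M (a x) l)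
    (hL : IsLabelInvariant M 𝒯 a ν t w T) (x : V) (φ : V → ℂ) :
    (Function.support fun y => t x y * φ y).Finite := by
  refine (adj_finite hch x).subset ?_
  intro y hy
  exact (hL.ne_zero_iff x y).mp (left_ne_zero_of_mul hy)

/-- the value at `x` of `(T_x - z)⁻¹ δ_x`. -/
noncomputable def γ (𝒯 : RootedTree V) (T : L2 ν →L[ℂ] L2 ν) (x : V) (z : ℂ) : ℂ :=
  sol T (𝒯.desc x) x (𝒯.self_mem_desc x) z x

theorem restrict_child [Finite A] (hν : ∀ x, 0 < ν x)
    (hch : ∀ x l, {y | 𝒯.IsChild y x ∧ a y = l}.encard = M (a x) l)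
    (hL : IsLabelInvariant M 𝒯 a ν t w T) {c x : V} (hc : 𝒯.IsChild c x) {z : ℂ}
    (hz : 0 < z.im) (u : L2 ν) (hu : ∀ y ∈ 𝒯.desc c, T u y - z * u y = 0) :
    u c = -(t c x * u x) * γ 𝒯 T c z := by
  classical
  have hcut : ∀ y ∉ 𝒯.desc c, cutFun ν (𝒯.desc c) u y = 0 := by
    intro y hy
    rw [cut_apply hν, Set.indicator_of_notMem hy]
  have hcut' : ∀ y ∈ 𝒯.desc c, cutFun ν (𝒯.desc c) u y = u y := by
    intro y hy
    rw [cut_apply hν, Set.indicator_of_mem hy]
  have h := sol_unique hν hL.selfAdjoint (𝒯.self_mem_desc c) hz (cutFun ν (𝒯.desc c) u) hcut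
    (-(t c x * u x)) ?_
  · have h1 : cutFun ν (𝒯.desc c) u c =
        (-(t c x * u x) • sol T (𝒯.desc c) c (𝒯.self_mem_desc c) z) c := by rw [← h]
    rw [hcut' c (𝒯.self_mem_desc c), smul_apply' hν] at h1
    exact h1
  · intro y hy
    have h1 := hu y hy
    rw [hL.formula] at h1
    rw [hL.formula, hcut' y hy]
    have h2 : ∑ᶠ y', t y y' * u y' - ∑ᶠ y', t y y' * cutFun ν (𝒯.desc c) u y' =
        if y = c then t c x * u x else 0 := by
      rw [← finsum_sub_distrib (supp_finite hch hL y _) (supp_finite hch hL y _)]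
      have h3 : ∀ y', t y y' * u y' - t y y' * cutFun ν (𝒯.desc c) u y' =
          if y = c ∧ y' = x then t c x * u x else 0 := by
        intro y'
        by_cases hy' : y' ∈ 𝒯.desc c
        · rw [hcut' y' hy', sub_self, if_neg]
          rintro ⟨-, rfl⟩
          exact 𝒯.not_mem_desc_child hc hy'
        · rw [hcut y' hy', mul_zero, sub_zero]
          by_cases ht : t y y' = 0
          · rw [ht, zero_mul]
            split_ifs with h4
            · rw [← h4.1, ← h4.2, ht, zero_mul]
            · rfl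
          · rcases 𝒯.adj_desc hc hy ((hL.ne_zero_iff y y').mp ht) with h4 | h4
            · exact absurd h4 hy'
            · rw [if_pos h4, h4.1, h4.2]
      simp only [h3]
      by_cases hyc : y = c
      · simp only [hyc, true_and, if_true]
        rw [finsum_eq_single _ x]
        · simp
        · intro y' hy'
          simp [hy']
      · simp [hyc]
    have h4 : ∑ᶠ y', t y y' * cutFun ν (𝒯.desc c) u y' = ∑ᶠ y', t y y' * u y' -
        if y = c then t c x * u x else 0 := by rw [← h2]; ring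
    rw [h4]
    split_ifs with hyc
    · linear_combination h1
    · linear_combination h1

theorem recursion [Finite A] (hν : ∀ x, 0 < ν x)
    (hch : ∀ x l, {y | 𝒯.IsChild y x ∧ a y = l}.encard = M (a x) l)
    (hL : IsLabelInvariant M 𝒯 a ν t w T) (x : V) {z : ℂ} (hz : 0 < z.im) :
    γ 𝒯 T x z * (w x - z - ∑ c ∈ (children_finite hch x).toFinset,
      t x c * t c x * γ 𝒯 T c z) = 1 := by
  classical
  set u := sol T (𝒯.desc x) x (𝒯.self_mem_desc x) z with hu
  have h1 := sol_eq hν hL.selfAdjoint (𝒯.self_mem_desc x) hz (𝒯.self_mem_desc x)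
  rw [← hu, if_pos rfl, hL.formula] at h1
  have hu0 : ∀ y ∉ 𝒯.desc x, u y = 0 := (mem_sub_iff hν _ _).mp (sol_mem T _ x _ z)
  have h2 : ∑ᶠ y, t x y * u y = ∑ y ∈ (children_finite hch x).toFinset, t x y * u y := by
    apply finsum_eq_sum_of_support_subset
    intro y hy
    simp only [Set.Finite.coe_toFinset, Set.mem_ofPred_eq]
    rcases (hL.ne_zero_iff x y).mp (left_ne_zero_of_mul hy) with h | h
    · exact h
    · exact absurd (hu0 y (𝒯.not_mem_desc_child h)) (right_ne_zero_of_mul hy)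
  have h3 : ∀ y ∈ (children_finite hch x).toFinset,
      t x y * u y = - (u x * (t x y * t y x * γ 𝒯 T y z)) := by
    intro y hy
    have hy' : 𝒯.IsChild y x := by simpa using hy
    have h4 := restrict_child hν hch hL hy' hz u ?_
    · rw [h4]; ring
    · intro y' hy''
      rw [hu, sol_eq hν hL.selfAdjoint (𝒯.self_mem_desc x) hz (𝒯.desc_child_subset hy' hy''),
        if_neg]
      rintro rfl
      exact 𝒯.not_mem_desc_child hy' hy''
  rw [h2, Finset.sum_congr rfl h3, Finset.sum_neg_distrib, ← Finset.mul_sum] at h1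
  have h5 : γ 𝒯 T x z = u x := rfl
  rw [h5]
  linear_combination h1

theorem full_child [Finite A] (hν : ∀ x, 0 < ν x)
    (hch : ∀ x l, {y | 𝒯.IsChild y x ∧ a y = l}.encard = M (a x) l)
    (hL : IsLabelInvariant M 𝒯 a ν t w T) {c x : V} (hc : 𝒯.IsChild c x) {z : ℂ}
    (hz : 0 < z.im) :
    (Ring.inverse (T - z • 1) (delta ν c) : L2 ν) c = γ 𝒯 T c z +
      t x c * t c x * γ 𝒯 T c z ^ 2 * (Ring.inverse (T - z • 1) (delta ν x) : L2 ν) x := by
  classical
  set U := (Ring.inverse (T - z • 1) (delta ν x) : L2 ν) with hU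
  set g := sol T (𝒯.desc c) c (𝒯.self_mem_desc c) z with hg
  have hU1 : (T - z • (1 : L2 ν →L[ℂ] L2 ν)) U = delta ν x :=
    inverse_spec hL.selfAdjoint hz _
  have hU2 : ∀ y, T U y - z * U y = if y = x then 1 else 0 := by
    intro y
    have h1 : (T U - z • U) y = delta ν x y := by rw [← hU1]; simp
    rw [sub_apply' hν, smul_apply' hν, delta_apply hν] at h1
    exact h1
  have hUc : U c = -(t c x * U x) * γ 𝒯 T c z := by
    apply restrict_child hν hch hL hc hz U
    intro y hy
    rw [hU2, if_neg]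
    rintro rfl
    exact 𝒯.not_mem_desc_child hc hy
  have hg0 : ∀ y ∉ 𝒯.desc c, g y = 0 := (mem_sub_iff hν _ _).mp (sol_mem T _ c _ z)
  have hgx : ∀ y, T g y - z * g y = (if y = c then 1 else 0) +
      (t x c * g c) * (if y = x then 1 else 0) := by
    intro y
    by_cases hy : y ∈ 𝒯.desc c
    · have h1 := sol_eq hν hL.selfAdjoint (𝒯.self_mem_desc c) hz hy
      rw [← hg] at h1
      have h2 : y ≠ x := by
        rintro rfl
        exact 𝒯.not_mem_desc_child hc hy
      rw [h1, if_neg h2, mul_zero, add_zero]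
    · rw [hg0 y hy, mul_zero, sub_zero, hL.formula, hg0 y hy, mul_zero, add_zero]
      have hyc : y ≠ c := by
        rintro rfl
        exact hy (𝒯.self_mem_desc y)
      rw [if_neg hyc, zero_add]
      have h3 : ∀ y', t y y' * g y' = if y = x ∧ y' = c then t x c * g c else 0 := by
        intro y'
        by_cases hy' : y' ∈ 𝒯.desc c
        · by_cases ht : t y y' = 0
          · rw [ht, zero_mul]
            split_ifs with h4
            · rw [← h4.1, ← h4.2, ht, zero_mul]
            · rfl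
          · rcases 𝒯.adj_desc hc hy' (𝒯.adj_symm ((hL.ne_zero_iff y y').mp ht)) with h4 | h4
            · exact absurd h4 hy
            · rw [if_pos ⟨h4.2, h4.1⟩, h4.1, h4.2]
        · rw [hg0 y' hy', mul_zero, if_neg]
          rintro ⟨-, rfl⟩
          exact hy' (𝒯.self_mem_desc y')
      simp only [h3]
      by_cases hyx : y = x
      · simp only [hyx, true_and, if_true, mul_one]
        rw [finsum_eq_single _ c]
        · simp
        · intro y' hy'
          simp [hy']
      · simp [hyx]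
  have key : (Ring.inverse (T - z • 1) (delta ν c) : L2 ν) = g - (t x c * g c) • U := by
    apply inj_of_sa hL.selfAdjoint hz
    rw [inverse_spec hL.selfAdjoint hz, map_sub, map_smul, hU1]
    apply L2ext
    intro y
    have h1 : (T - z • (1 : L2 ν →L[ℂ] L2 ν)) g = T g - z • g := by simp
    rw [h1, sub_apply' hν, sub_apply' hν, smul_apply' hν, smul_apply' hν, hgx, delta_apply hν,
      delta_apply hν]
    ring
  rw [key, sub_apply' hν, smul_apply' hν, hUc]
  have h5 : γ 𝒯 T c z = g c := rfl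
  rw [h5]
  ring

theorem full_root (hν : ∀ x, 0 < ν x) (hT : IsSelfAdjoint T) {z : ℂ} (hz : 0 < z.im) :
    (Ring.inverse (T - z • 1) (delta ν 𝒯.root) : L2 ν) 𝒯.root = γ 𝒯 T 𝒯.root z := by
  classical
  have key : (Ring.inverse (T - z • 1) (delta ν 𝒯.root) : L2 ν) =
      sol T (𝒯.desc 𝒯.root) 𝒯.root (𝒯.self_mem_desc 𝒯.root) z := by
    apply inj_of_sa hT hz
    rw [inverse_spec hT hz]
    apply L2ext
    intro y
    have hy : y ∈ 𝒯.desc 𝒯.root := by rw [𝒯.desc_root]; trivial
    have h1 := sol_eq hν hT (𝒯.self_mem_desc 𝒯.root) hz hy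
    set g := sol T (𝒯.desc 𝒯.root) 𝒯.root (𝒯.self_mem_desc 𝒯.root) z
    have h2 : (T - z • (1 : L2 ν →L[ℂ] L2 ν)) g = T g - z • g := by simp
    rw [h2, sub_apply' hν, smul_apply' hν, h1, delta_apply hν]
  rw [key]
  rfl

theorem greenΓ_eq (hν : ∀ x, 0 < ν x) (x : V) (z : ℂ) :
    greenΓ 𝒯 T x z = ν x * γ 𝒯 T x z :=
  inner_sol hν (𝒯.self_mem_desc x) z

theorem greenG_eq (hν : ∀ x, 0 < ν x) (x : V) (z : ℂ) :
    greenG T x z = ν x * (Ring.inverse (T - z • 1) (delta ν x) : L2 ν) x :=
  inner_delta hν x _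

end Pool.Agent.R748.Cone
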