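import Mathlib
import Pool.Agent.R748.ConeTree
import Pool.Agent.R748.ConeLim

/-! Dependence on labels and the boundary limits, for MP_ae9099_mp. -/

namespace Pool.Agent.R748.Cone

open MeasureTheory Filter Topology

variable {A V : Type} [MeasurableSpace V] [DiscreteMeasurableSpace V] {M : A → A → ℕ}
  {𝒯 : RootedTree V} {a : V → A} {ν : V → ℝ} {t : V → V → ℂ} {w : V → ℝ} {T : L2 ν →L[ℂ] L2 ν}

omit [MeasurableSpace V] [DiscreteMeasurableSpace V] in
/-- grouping the children by their labels -/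
theorem sum_children [Fintype A] [DecidableEq A] {R : Type} [CommSemiring R]
    (hch : ∀ x l, {y | 𝒯.IsChild y x ∧ a y = l}.encard = M (a x) l) (x : V) (g : A → R) :
    ∑ c ∈ (children_finite hch x).toFinset, g (a c) = ∑ k, (M (a x) k : R) * g k := by
  classical
  rw [← Finset.sum_fiberwise (children_finite hch x).toFinset a (fun c => g (a c))]
  apply Finset.sum_congr rfl
  intro k _
  have h1 : ∀ c ∈ (children_finite hch x).toFinset.filter (fun c => a c = k), g (a c) = g k := by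
    intro c hc
    rw [(Finset.mem_filter.mp hc).2]
  rw [Finset.sum_congr rfl h1, Finset.sum_const, nsmul_eq_mul]
  congr 1
  have h2 : (((children_finite hch x).toFinset.filter (fun c => a c = k) : Finset V) : Set V) =
      {y | 𝒯.IsChild y x ∧ a y = k} := by
    ext y
    simp
  have h3 := hch x k
  rw [← h2, Set.encard_coe_eq_coe_finsetCard] at h3
  have h4 : ((children_finite hch x).toFinset.filter (fun c => a c = k)).card = M (a x) k := by
    exact_mod_cast h3
  rw [h4]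

/-- the coefficients of the recursion depend only on the labels -/
theorem exists_alpha (hν : ∀ x, 0 < ν x) (hνa : ∀ x y, a x = a y → ν x = ν y)
    (hch : ∀ x l, {y | 𝒯.IsChild y x ∧ a y = l}.encard = M (a x) l)
    (hL : IsLabelInvariant M 𝒯 a ν t w T) :
    ∃ α : A → A → ℝ, ∀ x c, 𝒯.IsChild c x → t x c * t c x = α (a x) (a c) ∧
      0 < α (a x) (a c) := by
  obtain ⟨m, m', hm⟩ := hL.exists_m
  obtain ⟨νA, hνA⟩ : ∃ νA : A → ℝ, ν = νA ∘ a := by
    rw [← Function.factorsThrough_iff]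
    intro x y h
    exact hνa x y h
  refine ⟨fun j k => m j k / M j k * (νA j / νA k), fun x c hc => ?_⟩
  have hadj : 𝒯.Adj x c := Or.inl hc
  have h1 := (hm x c hadj).1
  have hMpos : 0 < M (a x) (a c) := by
    rw [Nat.pos_iff_ne_zero]
    intro h0
    have h2 := hch x (a c)
    rw [h0, Nat.cast_zero, Set.encard_eq_zero] at h2
    have : c ∈ {y | 𝒯.IsChild y x ∧ a y = a c} := ⟨hc, rfl⟩
    rw [h2] at this
    exact this
  have hMpos' : (0 : ℝ) < M (a x) (a c) := by exact_mod_cast hMpos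
  have hx : νA (a x) = ν x := by rw [hνA]; rfl
  have hc' : νA (a c) = ν c := by rw [hνA]; rfl
  have htpos : 0 < ‖t x c‖ ^ 2 := by
    have : t x c ≠ 0 := (hL.ne_zero_iff x c).mpr hadj
    positivity
  have h3 : m (a x) (a c) / M (a x) (a c) = ‖t x c‖ ^ 2 := by
    rw [← h1, mul_div_assoc, div_self hMpos'.ne', mul_one]
  simp only
  rw [h3, hx, hc']
  have hνx := hν x
  have hνc := hν c
  constructor
  · have h4 := hL.symm c x
    have h5 : t x c * (starRingEnd ℂ) (t x c) = ((‖t x c‖ ^ 2 : ℝ) : ℂ) := by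
      rw [Complex.mul_conj, Complex.normSq_eq_norm_sq]
    have hνc' : (ν c : ℂ) ≠ 0 := by exact_mod_cast hνc.ne'
    have h6 : t x c * t c x = t x c * ((starRingEnd ℂ) (t x c) * ν x / ν c) := by
      rw [← h4]
      field_simp
    rw [h6]
    push_cast at h5 ⊢
    rw [← h5]
    ring
  · positivity

theorem γ_im_pos (hν : ∀ x, 0 < ν x) (hT : IsSelfAdjoint T) (x : V) {z : ℂ} (hz : 0 < z.im) :
    0 < (γ 𝒯 T x z).im :=
  sol_im_pos hν hT (𝒯.self_mem_desc x) hz

theorem γ_norm_le (hν : ∀ x, 0 < ν x) (hT : IsSelfAdjoint T) (x : V) {z : ℂ} (hz : 0 < z.im) :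
    ‖γ 𝒯 T x z‖ ≤ 1 / z.im :=
  sol_norm_le hν hT (𝒯.self_mem_desc x) hz

theorem γ_analytic (hν : ∀ x, 0 < ν x) (hT : IsSelfAdjoint T) (x : V) :
    AnalyticOnNhd ℂ (γ 𝒯 T x) HP :=
  (sol_differentiableOn hν hT (𝒯.self_mem_desc x)).analyticOnNhd isOpen_HP

/-- `γ` depends only on the label -/
theorem γ_label [Fintype A] (hν : ∀ x, 0 < ν x) (hνa : ∀ x y, a x = a y → ν x = ν y)
    (hM1 : ∀ j, 1 ≤ M j j)
    (hch : ∀ x l, {y | 𝒯.IsChild y x ∧ a y = l}.encard = M (a x) l)
    (hL : IsLabelInvariant M 𝒯 a ν t w T) (rep : A → V) (hrep : ∀ x, a (rep (a x)) = a x)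
    (x : V) : ∀ z ∈ HP, γ 𝒯 T x z = γ 𝒯 T (rep (a x)) z := by
  classical
  obtain ⟨α, hα⟩ := exists_alpha hν hνa hch hL
  obtain ⟨m, m', hm⟩ := hL.exists_m
  have hwl : ∀ x y, a x = a y → w x = w y := by
    have h1 : ∀ x, w x = m' (a x) := by
      intro x
      have h2 : {y | 𝒯.IsChild y x ∧ a y = a x}.Nonempty := by
        rw [← Set.encard_ne_zero, hch]
        have := hM1 (a x)
        simp
        omega
      obtain ⟨y, hy, -⟩ := h2
      exact (hm x y (Or.inl hy)).2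
    intro x y h
    rw [h1, h1, h]
  let S : V → ℂ → ℂ := fun x z => ∑ c ∈ (children_finite hch x).toFinset,
    t x c * t c x * γ 𝒯 T c z
  let F : A → ℂ → ℂ := fun k z => γ 𝒯 T (rep k) z
  let Sb : A → ℂ → ℂ := fun j z => ∑ k, (M j k : ℂ) * ((α j k : ℂ) * F k z)
  set K : ℝ := ∑ j, ∑ k, (M j k : ℝ) * |α j k| with hK
  have hK0 : 0 ≤ K := Finset.sum_nonneg fun _ _ => Finset.sum_nonneg fun _ _ => by positivity
  have hKj : ∀ j, ∑ k, (M j k : ℝ) * |α j k| ≤ K := fun j =>
    Finset.single_le_sum (f := fun j => ∑ k, (M j k : ℝ) * |α j k|)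
      (fun _ _ => Finset.sum_nonneg fun _ _ => by positivity) (Finset.mem_univ j)
  have hSS : ∀ (D : ℝ) (z : ℂ), (∀ x, ‖γ 𝒯 T x z - F (a x) z‖ ≤ D) →
      ∀ x, ‖S x z - Sb (a x) z‖ ≤ K * D := by
    intro D z hD x
    have hD0 : 0 ≤ D := (norm_nonneg _).trans (hD x)
    have h1 : Sb (a x) z = ∑ c ∈ (children_finite hch x).toFinset,
        (α (a x) (a c) : ℂ) * F (a c) z :=
      (sum_children hch x (fun k => (α (a x) k : ℂ) * F k z)).symm
    have h2 : S x z - Sb (a x) z = ∑ c ∈ (children_finite hch x).toFinset,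
        (α (a x) (a c) : ℂ) * (γ 𝒯 T c z - F (a c) z) := by
      rw [h1]
      simp only [S]
      rw [← Finset.sum_sub_distrib]
      apply Finset.sum_congr rfl
      intro c hc
      have hc' : 𝒯.IsChild c x := by simpa using hc
      rw [(hα x c hc').1]
      ring
    rw [h2]
    calc ‖∑ c ∈ (children_finite hch x).toFinset,
        (α (a x) (a c) : ℂ) * (γ 𝒯 T c z - F (a c) z)‖
        ≤ ∑ c ∈ (children_finite hch x).toFinset,
          ‖(α (a x) (a c) : ℂ) * (γ 𝒯 T c z - F (a c) z)‖ := norm_sum_le _ _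
      _ ≤ ∑ c ∈ (children_finite hch x).toFinset, |α (a x) (a c)| * D := by
          apply Finset.sum_le_sum
          intro c _
          rw [norm_mul, Complex.norm_real, Real.norm_eq_abs]
          exact mul_le_mul_of_nonneg_left (hD c) (abs_nonneg _)
      _ = ∑ k, (M (a x) k : ℝ) * (|α (a x) k| * D) :=
          sum_children hch x (fun k => |α (a x) k| * D)
      _ = (∑ k, (M (a x) k : ℝ) * |α (a x) k|) * D := by
          rw [Finset.sum_mul]
          apply Finset.sum_congr rfl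
          intro k _
          ring
      _ ≤ K * D := mul_le_mul_of_nonneg_right (hKj (a x)) hD0
  have hrec : ∀ x, ∀ z, 0 < z.im → γ 𝒯 T x z * (w x - z - S x z) = 1 := fun x z hz =>
    recursion hν hch hL x hz
  have hstep : ∀ (D : ℝ) (z : ℂ), 0 < z.im → (∀ x, ‖γ 𝒯 T x z - F (a x) z‖ ≤ D) →
      ∀ x, ‖γ 𝒯 T x z - F (a x) z‖ ≤ (1 / z.im) * (1 / z.im) * (2 * K * D) := by
    intro D z hz hD x
    have hD0 : 0 ≤ D := (norm_nonneg _).trans (hD x)
    have e1 := hrec x z hz
    have e2 := hrec (rep (a x)) z hz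
    have hw : w (rep (a x)) = w x := hwl _ _ (hrep x)
    rw [hw] at e2
    have e3 : γ 𝒯 T x z - F (a x) z = γ 𝒯 T x z * γ 𝒯 T (rep (a x)) z *
        (S x z - S (rep (a x)) z) := by
      simp only [F]
      linear_combination (γ 𝒯 T (rep (a x)) z) * e1 - γ 𝒯 T x z * e2
    have e4 : ‖S x z - S (rep (a x)) z‖ ≤ 2 * K * D := by
      have f1 := hSS D z hD x
      have f2 := hSS D z hD (rep (a x))
      rw [hrep x] at f2
      calc ‖S x z - S (rep (a x)) z‖ = ‖(S x z - Sb (a x) z) - (S (rep (a x)) z - Sb (a x) z)‖ := by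
            congr 1; ring
        _ ≤ ‖S x z - Sb (a x) z‖ + ‖S (rep (a x)) z - Sb (a x) z‖ := norm_sub_le _ _
        _ ≤ K * D + K * D := add_le_add f1 f2
        _ = 2 * K * D := by ring
    rw [e3, norm_mul, norm_mul]
    have g1 := γ_norm_le (𝒯 := 𝒯) hν hL.selfAdjoint x hz
    have g2 := γ_norm_le (𝒯 := 𝒯) hν hL.selfAdjoint (rep (a x)) hz
    have hz' : 0 ≤ 1 / z.im := by positivity
    exact mul_le_mul (mul_le_mul g1 g2 (norm_nonneg _) hz') e4 (norm_nonneg _) (by positivity)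
  have hiter : ∀ (z : ℂ), 0 < z.im → ∀ n : ℕ, ∀ x, ‖γ 𝒯 T x z - F (a x) z‖ ≤
      (2 / z.im) * (2 * K / z.im ^ 2) ^ n := by
    intro z hz n
    induction n with
    | zero =>
      intro x
      rw [pow_zero, mul_one]
      have g1 := γ_norm_le (𝒯 := 𝒯) hν hL.selfAdjoint x hz
      have g2 := γ_norm_le (𝒯 := 𝒯) hν hL.selfAdjoint (rep (a x)) hz
      calc ‖γ 𝒯 T x z - F (a x) z‖ ≤ ‖γ 𝒯 T x z‖ + ‖F (a x) z‖ := norm_sub_le _ _
        _ ≤ 1 / z.im + 1 / z.im := add_le_add g1 g2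
        _ = 2 / z.im := by ring
    | succ n ih =>
      intro x
      refine (hstep _ z hz ih x).trans (le_of_eq ?_)
      rw [pow_succ (2 * K / z.im ^ 2) n]
      generalize (2 * K / z.im ^ 2) ^ n = Q
      field_simp
  have hlarge : ∀ z : ℂ, 2 * K + 1 < z.im → γ 𝒯 T x z = F (a x) z := by
    intro z hz
    have hz0 : 0 < z.im := by linarith
    have hz1 : 1 < z.im := by linarith
    have hq : 2 * K / z.im ^ 2 < 1 := by
      rw [div_lt_one (by positivity)]
      nlinarith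
    have hq0 : 0 ≤ 2 * K / z.im ^ 2 := by positivity
    have hlim : Tendsto (fun n : ℕ => (2 / z.im) * (2 * K / z.im ^ 2) ^ n) atTop (𝓝 0) := by
      have := (tendsto_pow_atTop_nhds_zero_of_lt_one hq0 hq).const_mul (2 / z.im)
      rwa [mul_zero] at this
    have h1 : ‖γ 𝒯 T x z - F (a x) z‖ ≤ 0 :=
      ge_of_tendsto' hlim fun n => hiter z hz0 n x
    exact sub_eq_zero.mp (norm_le_zero_iff.mp h1)
  have h1 := γ_analytic (𝒯 := 𝒯) hν hL.selfAdjoint x
  have h2 := γ_analytic (𝒯 := 𝒯) hν hL.selfAdjoint (rep (a x))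
  have hz0 : (((2 * K + 2 : ℝ) : ℂ) * Complex.I) ∈ HP := by
    show 0 < (((2 * K + 2 : ℝ) : ℂ) * Complex.I).im
    rw [Complex.im_ofReal_mul, Complex.I_im]
    linarith
  refine h1.eqOn_of_preconnected_of_eventuallyEq h2 preconnected_HP hz0 ?_
  have h3 : {z : ℂ | 2 * K + 1 < z.im} ∈ 𝓝 (((2 * K + 2 : ℝ) : ℂ) * Complex.I) := by
    apply (isOpen_lt continuous_const Complex.continuous_im).mem_nhds
    show 2 * K + 1 < (((2 * K + 2 : ℝ) : ℂ) * Complex.I).im
    rw [Complex.im_ofReal_mul, Complex.I_im]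
    linarith
  filter_upwards [h3] with z hz
  exact hlarge z hz

/-- boundary limits of `γ` -/
theorem γ_lim [Fintype A] (hsurj : Function.Surjective a)
    (hν : ∀ x, 0 < ν x) (hνa : ∀ x y, a x = a y → ν x = ν y)
    (hM1 : ∀ j, 1 ≤ M j j)
    (hch : ∀ x l, {y | 𝒯.IsChild y x ∧ a y = l}.encard = M (a x) l)
    (hL : IsLabelInvariant M 𝒯 a ν t w T) (x : V) (E : ℂ) (hE : E.im = 0) :
    ∃ L, Tendsto (γ 𝒯 T x) (𝓝[HP] E) (𝓝 L) := by
  classical
  obtain ⟨rep, hrep⟩ := hsurj.hasRightInverse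
  have hrep' : ∀ x, a (rep (a x)) = a x := fun x => hrep (a x)
  have hlab : ∀ x, ∀ z ∈ HP, γ 𝒯 T x z = γ 𝒯 T (rep (a x)) z := fun x =>
    γ_label hν hνa hM1 hch hL rep hrep' x
  obtain ⟨α, hα⟩ := exists_alpha hν hνa hch hL
  have hsys : ∀ j, ∀ z ∈ HP, γ 𝒯 T (rep j) z * ((z - w (rep j)) +
      ∑ k, ((M j k : ℝ) * α j k : ℝ) * γ 𝒯 T (rep k) z) + 1 = 0 := by
    intro j z hz
    have h1 := recursion hν hch hL (rep j) hz
    have h2 : ∑ c ∈ (children_finite hch (rep j)).toFinset, t (rep j) c * t c (rep j) *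
        γ 𝒯 T c z = ∑ k, ((M j k : ℝ) * α j k : ℝ) * γ 𝒯 T (rep k) z := by
      have h3 : ∀ c ∈ (children_finite hch (rep j)).toFinset, t (rep j) c * t c (rep j) *
          γ 𝒯 T c z = (α j (a c) : ℂ) * γ 𝒯 T (rep (a c)) z := by
        intro c hc
        have hc' : 𝒯.IsChild c (rep j) := by simpa using hc
        rw [(hα (rep j) c hc').1, hlab c z hz, hrep j]
      rw [Finset.sum_congr rfl h3, sum_children hch (rep j)
        (fun k => (α j k : ℂ) * γ 𝒯 T (rep k) z), hrep j]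
      apply Finset.sum_congr rfl
      intro k _
      push_cast
      ring
    rw [h2] at h1
    linear_combination -h1
  set j := a x with hj
  -- a child of `x` with the same label
  have hMα : 0 < (M j j : ℝ) * α j j := by
    have h2 : {y | 𝒯.IsChild y x ∧ a y = a x}.Nonempty := by
      rw [← Set.encard_ne_zero, hch]
      have := hM1 (a x)
      simp
      omega
    obtain ⟨y, hy, hya⟩ := h2
    have h3 := (hα x y hy).2
    rw [hya] at h3
    have h4 : (0 : ℝ) < M j j := by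
      have := hM1 j
      exact_mod_cast this
    exact mul_pos h4 h3
  have hnn : ∀ k, 0 ≤ (M j k : ℝ) * α j k := by
    intro k
    by_cases hk : M j k = 0
    · rw [hk]; simp
    · have h2 : {y | 𝒯.IsChild y x ∧ a y = k}.Nonempty := by
        rw [← Set.encard_ne_zero, hch]
        exact_mod_cast hk
      obtain ⟨y, hy, hya⟩ := h2
      have h3 := (hα x y hy).2
      rw [hya] at h3
      exact mul_nonneg (by positivity) h3.le
  have hbdd : ∀ z ∈ HP, ‖γ 𝒯 T (rep j) z‖ ≤ Real.sqrt (1 / ((M j j : ℝ) * α j j)) := by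
    intro z hz
    set g := γ 𝒯 T (rep j) z with hg
    have hgim : 0 < g.im := γ_im_pos hν hL.selfAdjoint (rep j) hz
    have hg0 : g ≠ 0 := by
      intro h0
      rw [h0] at hgim
      simp at hgim
    have h1 := hsys j z hz
    rw [← hg] at h1
    set R := (z - (w (rep j) : ℂ)) + ∑ k, ((M j k : ℝ) * α j k : ℝ) * γ 𝒯 T (rep k) z with hR
    have h2 : R = -g⁻¹ := by
      field_simp
      linear_combination h1
    have h3 : R.im = g.im / ‖g‖ ^ 2 := by
      rw [h2, Complex.neg_im, Complex.inv_im, Complex.normSq_eq_norm_sq]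
      ring
    have h4 : R.im = z.im + ∑ k, ((M j k : ℝ) * α j k) * (γ 𝒯 T (rep k) z).im := by
      rw [hR, Complex.add_im, Complex.sub_im, Complex.ofReal_im, sub_zero, Complex.im_sum]
      congr 1
      apply Finset.sum_congr rfl
      intro k _
      rw [Complex.im_ofReal_mul]
    have h5 : ((M j j : ℝ) * α j j) * g.im ≤ R.im := by
      rw [h4]
      have h6 : ((M j j : ℝ) * α j j) * g.im ≤
          ∑ k, ((M j k : ℝ) * α j k) * (γ 𝒯 T (rep k) z).im :=
        Finset.single_le_sum (f := fun k => ((M j k : ℝ) * α j k) * (γ 𝒯 T (rep k) z).im)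
          (fun k _ => mul_nonneg (hnn k) (γ_im_pos hν hL.selfAdjoint (rep k) hz).le)
          (Finset.mem_univ j)
      have hz' : 0 < z.im := hz
      linarith
    rw [h3] at h5
    have hgn : 0 < ‖g‖ ^ 2 := by positivity
    rw [le_div_iff₀ hgn] at h5
    have h7 : ((M j j : ℝ) * α j j) * ‖g‖ ^ 2 ≤ 1 := by
      have : g.im * (((M j j : ℝ) * α j j) * ‖g‖ ^ 2) ≤ g.im * 1 := by nlinarith
      exact le_of_mul_le_mul_left this hgim
    apply Real.le_sqrt_of_sq_le
    rw [le_div_iff₀ hMα]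
    linarith
  obtain ⟨P, hP0, hP⟩ := exists_poly (fun k => γ 𝒯 T (rep k))
    (fun k => γ_analytic hν hL.selfAdjoint (rep k)) (fun k => (w (rep k) : ℂ))
    (fun j k => (((M j k : ℝ) * α j k : ℝ) : ℂ)) hsys
    (fun k z hz => γ_norm_le hν hL.selfAdjoint (rep k) hz) j
  obtain ⟨L, hL'⟩ := exists_lim (γ 𝒯 T (rep j))
    (γ_analytic hν hL.selfAdjoint (rep j)).continuousOn _ hbdd P hP0 hP E hE
  refine ⟨L, hL'.congr' ?_⟩
  filter_upwards [self_mem_nhdsWithin] with z hz
  exact (hlab x z hz).symm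

end Pool.Agent.R748.Cone
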