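import Mathlib

/-!
# Definitions for MP_3a21c3_co

Convex polyhedra, faces, pyramids, g-domes and admissible cutting sequences in `ℝ³`.
-/

namespace Pool.Agent.R748.Dome

open scoped InnerProductSpace

/-- Euclidean 3-space. -/
abbrev E3 := EuclideanSpace ℝ (Fin 3)

/-- A convex polyhedron: the convex hull of finitely many points, with nonempty interior. -/
def IsPolyhedron (P : Set E3) : Prop :=
  (∃ S : Finset E3, P = convexHull ℝ (S : Set E3)) ∧ (interior P).Nonempty

/-- `F` is a `d`-dimensional face of the convex set `P`: the (nonempty) set of points of `P` where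
a linear functional attains its maximum over `P`, and the affine hull of `F` has dimension `d`.
For a convex polyhedron `P` the cases `d = 2, 1, 0` are the faces, the edges and the vertices (as
singletons); for a convex polygon the cases `d = 1, 0` are its edges and its vertices. -/
def IsFace (d : ℕ) (P F : Set E3) : Prop :=
  (∃ (n : E3) (c : ℝ), (∀ p ∈ P, ⟪n, p⟫_ℝ ≤ c) ∧ F = {p | p ∈ P ∧ ⟪n, p⟫_ℝ = c}) ∧
    F.Nonempty ∧ Module.finrank ℝ (vectorSpan ℝ F) = d

/-- A convex polygon: the convex hull of finitely many points, of dimension two. -/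
def IsPolygon (B : Set E3) : Prop :=
  (∃ S : Finset E3, B = convexHull ℝ (S : Set E3)) ∧ Module.finrank ℝ (vectorSpan ℝ B) = 2

/-- A pyramid: the convex hull of a convex polygon and a point outside the plane of the polygon. -/
def IsPyramid (Q : Set E3) : Prop :=
  ∃ (B : Set E3) (v : E3), IsPolygon B ∧ v ∉ affineSpan ℝ B ∧ Q = convexHull ℝ (insert v B)

/-- A g-dome with base `X`: a convex polyhedron with the face `X`, such that every other face has
an edge or a vertex in common with `X`. -/
def IsGDome (G X : Set E3) : Prop :=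
  IsPolyhedron G ∧ IsFace 2 G X ∧ ∀ F, IsFace 2 G F → F ≠ X →
    ((∃ e, IsFace 1 X e ∧ IsFace 1 F e) ∨ (∃ v, IsFace 0 X {v} ∧ IsFace 0 F {v}))

/-- `P'` arises from `P` by an admissible cut: there is a plane `⟪n, p⟫ = c` that contains an edge
`e` of `X` and does not meet the interior of `D`, which lies on the side `⟪n, p⟫ < c`; the closed
part `c ≤ ⟪n, p⟫` of `P` is a pyramid, and `P'` is the closure of the rest of `P`. -/
def Cut (X D P P' : Set E3) : Prop :=
  ∃ (n : E3) (c : ℝ) (e : Set E3), n ≠ 0 ∧ IsFace 1 X e ∧ (∀ p ∈ e, ⟪n, p⟫_ℝ = c) ∧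
    (∀ p ∈ interior D, ⟪n, p⟫_ℝ < c) ∧
    IsPyramid {p | p ∈ P ∧ c ≤ ⟪n, p⟫_ℝ} ∧ P' = closure (P \ {p | p ∈ P ∧ c ≤ ⟪n, p⟫_ℝ})

/-- A successful admissible cutting sequence from `P` to `D`: finitely many admissible cuts. -/
def Succeeds (X D P : Set E3) : Prop := Relation.ReflTransGen (Cut X D) P D

end Pool.Agent.R748.Dome
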