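import Mathlib
import Pool.Agent.R748.DomeDefs

/-! The cube and the pyramid in it, for MP_3a21c3_co. -/

namespace Pool.Agent.R748.Dome

open scoped InnerProductSpace

theorem inner3 (n p : E3) : ⟪n, p⟫_ℝ = n 0 * p 0 + n 1 * p 1 + n 2 * p 2 := by
  rw [PiLp.inner_apply, Fin.sum_univ_three]
  simp only [RCLike.inner_apply, conj_trivial]
  ring

theorem ext3 {p q : E3} (h0 : p 0 = q 0) (h1 : p 1 = q 1) (h2 : p 2 = q 2) : p = q := by
  ext i
  fin_cases i
  · exact h0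
  · exact h1
  · exact h2

/-- the point with the given coordinates -/
noncomputable def pt (x y z : ℝ) : E3 := !₂[x, y, z]

@[simp] theorem pt0 (x y z : ℝ) : pt x y z 0 = x := by simp [pt]
@[simp] theorem pt1 (x y z : ℝ) : pt x y z 1 = y := by simp [pt]
@[simp] theorem pt2 (x y z : ℝ) : pt x y z 2 = z := by simp [pt]

/-- the unit cube -/
def cube : Set E3 := {p | (0 ≤ p 0 ∧ p 0 ≤ 1) ∧ (0 ≤ p 1 ∧ p 1 ≤ 1) ∧ (0 ≤ p 2 ∧ p 2 ≤ 1)}

/-- its bottom face -/
def bot : Set E3 := {p | (0 ≤ p 0 ∧ p 0 ≤ 1) ∧ (0 ≤ p 1 ∧ p 1 ≤ 1) ∧ p 2 = 0}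

open Classical in
/-- the vertices of the pyramid -/
noncomputable def pyrV : Finset E3 :=
  {pt 0 0 0, pt 1 0 0, pt 0 1 0, pt 1 1 0, pt (1/2) (1/2) (1/2)}

/-- the pyramid with the base `bot` and apex the centre of the cube -/
noncomputable def pyr : Set E3 := convexHull ℝ (pyrV : Set E3)

open Classical in
/-- the vertices of the cube -/
noncomputable def cubeV : Finset E3 :=
  {pt 0 0 0, pt 1 0 0, pt 0 1 0, pt 1 1 0, pt 0 0 1, pt 1 0 1, pt 0 1 1, pt 1 1 1}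

theorem mix {C : Set E3} (hC : Convex ℝ C) {p q r : E3} (hp : p ∈ C) (hq : q ∈ C) {s : ℝ}
    (h0 : 0 ≤ s) (h1 : s ≤ 1) (h : r = (1 - s) • p + s • q) : r ∈ C := by
  rw [h]
  exact hC hp hq (by linarith) h0 (by ring)

theorem square_mem {C : Set E3} (hC : Convex ℝ C) {z : ℝ} (h00 : pt 0 0 z ∈ C)
    (h10 : pt 1 0 z ∈ C) (h01 : pt 0 1 z ∈ C) (h11 : pt 1 1 z ∈ C) {x y : ℝ}
    (hx0 : 0 ≤ x) (hx1 : x ≤ 1) (hy0 : 0 ≤ y) (hy1 : y ≤ 1) : pt x y z ∈ C := by
  have a : pt x 0 z ∈ C := mix hC h00 h10 hx0 hx1 (by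
    apply ext3 <;> simp <;> ring)
  have b : pt x 1 z ∈ C := mix hC h01 h11 hx0 hx1 (by
    apply ext3 <;> simp <;> ring)
  exact mix hC a b hy0 hy1 (by apply ext3 <;> simp <;> ring)

theorem eq_pt (p : E3) : p = pt (p 0) (p 1) (p 2) := by
  apply ext3 <;> simp

theorem cube_convex : Convex ℝ cube := by
  intro p hp q hq a b ha hb hab
  obtain ⟨⟨p0, p0'⟩, ⟨p1, p1'⟩, ⟨p2, p2'⟩⟩ := hp
  obtain ⟨⟨q0, q0'⟩, ⟨q1, q1'⟩, ⟨q2, q2'⟩⟩ := hq
  refine ⟨⟨?_, ?_⟩, ⟨?_, ?_⟩, ⟨?_, ?_⟩⟩ <;>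
    simp only [PiLp.add_apply, PiLp.smul_apply, smul_eq_mul] <;> nlinarith

theorem cube_hull : cube = convexHull ℝ (cubeV : Set E3) := by
  apply Set.Subset.antisymm
  · intro p hp
    obtain ⟨⟨p0, p0'⟩, ⟨p1, p1'⟩, ⟨p2, p2'⟩⟩ := hp
    have hC := convex_convexHull ℝ (cubeV : Set E3)
    have hs : ∀ q ∈ cubeV, q ∈ convexHull ℝ (cubeV : Set E3) := fun q hq =>
      subset_convexHull ℝ _ hq
    have a : pt (p 0) (p 1) 0 ∈ convexHull ℝ (cubeV : Set E3) :=
      square_mem hC (hs _ (by simp [cubeV])) (hs _ (by simp [cubeV])) (hs _ (by simp [cubeV]))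
        (hs _ (by simp [cubeV])) p0 p0' p1 p1'
    have b : pt (p 0) (p 1) 1 ∈ convexHull ℝ (cubeV : Set E3) :=
      square_mem hC (hs _ (by simp [cubeV])) (hs _ (by simp [cubeV])) (hs _ (by simp [cubeV]))
        (hs _ (by simp [cubeV])) p0 p0' p1 p1'
    exact mix hC a b p2 p2' (by apply ext3 <;> simp <;> ring)
  · apply convexHull_min _ cube_convex
    intro p hp
    simp only [cubeV, Finset.coe_insert, Finset.coe_singleton, Set.mem_insert_iff,
      Set.mem_singleton_iff] at hp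
    rcases hp with h | h | h | h | h | h | h | h <;> rw [h] <;>
      refine ⟨⟨?_, ?_⟩, ⟨?_, ?_⟩, ⟨?_, ?_⟩⟩ <;> simp

/-- the inequalities satisfied on the pyramid -/
theorem pyr_ineq {p : E3} (hp : p ∈ pyr) :
    0 ≤ p 2 ∧ p 2 ≤ p 0 ∧ p 0 ≤ 1 - p 2 ∧ p 2 ≤ p 1 ∧ p 1 ≤ 1 - p 2 := by
  have hC : Convex ℝ {p : E3 | 0 ≤ p 2 ∧ p 2 ≤ p 0 ∧ p 0 ≤ 1 - p 2 ∧ p 2 ≤ p 1 ∧
      p 1 ≤ 1 - p 2} := by
    intro p hp q hq a b ha hb hab
    obtain ⟨a1, a2, a3, a4, a5⟩ := hp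
    obtain ⟨b1, b2, b3, b4, b5⟩ := hq
    refine ⟨?_, ?_, ?_, ?_, ?_⟩ <;>
      simp only [PiLp.add_apply, PiLp.smul_apply, smul_eq_mul] <;> nlinarith
  have : pyr ⊆ {p : E3 | 0 ≤ p 2 ∧ p 2 ≤ p 0 ∧ p 0 ≤ 1 - p 2 ∧ p 2 ≤ p 1 ∧ p 1 ≤ 1 - p 2} := by
    apply convexHull_min _ hC
    intro p hp
    simp only [pyrV, Finset.coe_insert, Finset.coe_singleton, Set.mem_insert_iff,
      Set.mem_singleton_iff] at hp
    rcases hp with h | h | h | h | h <;> rw [h] <;>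
      refine ⟨?_, ?_, ?_, ?_, ?_⟩ <;> simp <;> norm_num
  exact this hp

theorem pyr_corner {x y : ℝ} (hx : x = 0 ∨ x = 1) (hy : y = 0 ∨ y = 1) : pt x y 0 ∈ pyr := by
  apply subset_convexHull ℝ
  rcases hx with rfl | rfl <;> rcases hy with rfl | rfl <;> simp [pyrV]

theorem pyr_apex : pt (1/2) (1/2) (1/2) ∈ pyr := by
  apply subset_convexHull ℝ
  simp [pyrV]

theorem bot_sub_pyr : bot ⊆ pyr := by
  intro p hp
  obtain ⟨⟨p0, p0'⟩, ⟨p1, p1'⟩, p2⟩ := hp
  rw [eq_pt p, p2]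
  exact square_mem (convex_convexHull ℝ _) (pyr_corner (Or.inl rfl) (Or.inl rfl))
    (pyr_corner (Or.inr rfl) (Or.inl rfl)) (pyr_corner (Or.inl rfl) (Or.inr rfl))
    (pyr_corner (Or.inr rfl) (Or.inr rfl)) p0 p0' p1 p1'

theorem pyr_sub_cube : pyr ⊆ cube := by
  intro p hp
  obtain ⟨a1, a2, a3, a4, a5⟩ := pyr_ineq hp
  exact ⟨⟨by linarith, by linarith⟩, ⟨by linarith, by linarith⟩, ⟨by linarith, by linarith⟩⟩

theorem pyr_interior : (interior pyr).Nonempty := by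
  rw [pyr, interior_convexHull_nonempty_iff_affineSpan_eq_top]
  have hne : (pyrV : Set E3).Nonempty := ⟨pt 0 0 0, by simp [pyrV]⟩
  rw [AffineSubspace.affineSpan_eq_top_iff_vectorSpan_eq_top_of_nonempty ℝ E3 E3 hne]
  rw [eq_top_iff]
  intro v _
  have h1 : pt 1 0 0 - pt 0 0 0 ∈ vectorSpan ℝ (pyrV : Set E3) :=
    vsub_mem_vectorSpan ℝ (by simp [pyrV]) (by simp [pyrV])
  have h2 : pt 0 1 0 - pt 0 0 0 ∈ vectorSpan ℝ (pyrV : Set E3) :=
    vsub_mem_vectorSpan ℝ (by simp [pyrV]) (by simp [pyrV])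
  have h3 : pt (1/2) (1/2) (1/2) - pt 0 0 0 ∈ vectorSpan ℝ (pyrV : Set E3) :=
    vsub_mem_vectorSpan ℝ (by simp [pyrV]) (by simp [pyrV])
  have h4 : v = (v 0 - v 2) • (pt 1 0 0 - pt 0 0 0) + (v 1 - v 2) • (pt 0 1 0 - pt 0 0 0) +
      (2 * v 2) • (pt (1/2) (1/2) (1/2) - pt 0 0 0) := by
    apply ext3 <;> simp <;> ring
  rw [h4]
  exact Submodule.add_mem _ (Submodule.add_mem _ (Submodule.smul_mem _ _ h1)
    (Submodule.smul_mem _ _ h2)) (Submodule.smul_mem _ _ h3)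

theorem pyr_polyhedron : IsPolyhedron pyr := ⟨⟨pyrV, rfl⟩, pyr_interior⟩

theorem cube_polyhedron : IsPolyhedron cube :=
  ⟨⟨cubeV, cube_hull⟩, pyr_interior.mono (interior_mono pyr_sub_cube)⟩

theorem finrank_bot : Module.finrank ℝ (vectorSpan ℝ bot) = 2 := by
  have hspan : vectorSpan ℝ bot = Submodule.span ℝ (Set.range ![pt 1 0 0, pt 0 1 0]) := by
    apply le_antisymm
    · rw [vectorSpan, Submodule.span_le]
      rintro _ ⟨p, hp, q, hq, rfl⟩
      obtain ⟨-, -, p2⟩ := hp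
      obtain ⟨-, -, q2⟩ := hq
      have : p -ᵥ q = (p 0 - q 0) • pt 1 0 0 + (p 1 - q 1) • pt 0 1 0 := by
        rw [vsub_eq_sub]
        apply ext3 <;> simp [p2, q2]
      rw [SetLike.mem_coe]
      show p -ᵥ q ∈ _
      rw [this]
      exact Submodule.add_mem _ (Submodule.smul_mem _ _ (Submodule.subset_span ⟨0, rfl⟩))
        (Submodule.smul_mem _ _ (Submodule.subset_span ⟨1, rfl⟩))
    · rw [Submodule.span_le]
      rintro _ ⟨i, rfl⟩
      have h0 : pt 0 0 0 ∈ bot := by refine ⟨⟨?_, ?_⟩, ⟨?_, ?_⟩, ?_⟩ <;> simp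
      have h1 : pt 1 0 0 ∈ bot := by refine ⟨⟨?_, ?_⟩, ⟨?_, ?_⟩, ?_⟩ <;> simp
      have h2 : pt 0 1 0 ∈ bot := by refine ⟨⟨?_, ?_⟩, ⟨?_, ?_⟩, ?_⟩ <;> simp
      fin_cases i
      · have := vsub_mem_vectorSpan ℝ h1 h0
        have e : pt 1 0 0 -ᵥ pt 0 0 0 = pt 1 0 0 := by
          rw [vsub_eq_sub]; apply ext3 <;> simp
        rw [e] at this
        exact this
      · have := vsub_mem_vectorSpan ℝ h2 h0
        have e : pt 0 1 0 -ᵥ pt 0 0 0 = pt 0 1 0 := by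
          rw [vsub_eq_sub]; apply ext3 <;> simp
        rw [e] at this
        exact this
  rw [hspan, finrank_span_eq_card]
  · simp
  · rw [LinearIndependent.pair_iff]
    intro s t h
    have h0 : (s • pt 1 0 0 + t • pt 0 1 0) 0 = (0 : E3) 0 := by rw [h]
    have h1 : (s • pt 1 0 0 + t • pt 0 1 0) 1 = (0 : E3) 1 := by rw [h]
    simp at h0 h1
    exact ⟨h0, h1⟩

theorem bot_face_of {P : Set E3} (hsub : bot ⊆ P) (hP : ∀ p ∈ P, 0 ≤ p 2)
    (hP' : ∀ p ∈ P, p 2 = 0 → p ∈ bot) : IsFace 2 P bot := by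
  refine ⟨⟨pt 0 0 (-1), 0, ?_, ?_⟩, ⟨pt 0 0 0, ?_⟩, finrank_bot⟩
  · intro p hp
    rw [inner3]
    have := hP p hp
    simp
    exact this
  · ext p
    constructor
    · intro hp
      refine ⟨hsub hp, ?_⟩
      rw [inner3]
      obtain ⟨-, -, h2⟩ := hp
      simp [h2]
    · rintro ⟨hp, h⟩
      rw [inner3] at h
      simp at h
      exact hP' p hp h
  · refine ⟨⟨?_, ?_⟩, ⟨?_, ?_⟩, ?_⟩ <;> simp

theorem bot_face_cube : IsFace 2 cube bot := by
  apply bot_face_of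
  · exact bot_sub_pyr.trans pyr_sub_cube
  · intro p hp
    exact hp.2.2.1
  · intro p hp h
    exact ⟨hp.1, hp.2.1, h⟩

theorem bot_face_pyr : IsFace 2 pyr bot := by
  apply bot_face_of bot_sub_pyr
  · intro p hp
    exact (pyr_ineq hp).1
  · intro p hp h
    obtain ⟨a1, a2, a3, a4, a5⟩ := pyr_ineq hp
    exact ⟨⟨by linarith, by linarith⟩, ⟨by linarith, by linarith⟩, h⟩

/-- a corner of the base is a vertex of every set between the corner and the pyramid -/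
theorem corner_face {x y : ℝ} (hx : x = 0 ∨ x = 1) (hy : y = 0 ∨ y = 1) {F : Set E3}
    (hF : F ⊆ pyr) (hv : pt x y 0 ∈ F) : IsFace 0 F {pt x y 0} := by
  have hval : ∀ p ∈ pyr, (2 * x - 1) * p 0 + (2 * y - 1) * p 1 ≤ (2 * x - 1) * x + (2 * y - 1) * y ∧
      ((2 * x - 1) * p 0 + (2 * y - 1) * p 1 = (2 * x - 1) * x + (2 * y - 1) * y →
        p = pt x y 0) := by
    intro p hp
    obtain ⟨a1, a2, a3, a4, a5⟩ := pyr_ineq hp
    constructor
    · rcases hx with rfl | rfl <;> rcases hy with rfl | rfl <;> nlinarith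
    · intro h
      apply ext3 <;> rcases hx with rfl | rfl <;> rcases hy with rfl | rfl <;> simp <;> linarith
  refine ⟨⟨pt (2 * x - 1) (2 * y - 1) 0, (2 * x - 1) * x + (2 * y - 1) * y, ?_, ?_⟩,
    ⟨pt x y 0, rfl⟩, ?_⟩
  · intro p hp
    rw [inner3]
    have := (hval p (hF hp)).1
    simp only [pt0, pt1, pt2, zero_mul, add_zero]
    exact this
  · ext p
    simp only [Set.mem_singleton_iff, Set.mem_ofPred_eq]
    constructor
    · rintro rfl
      refine ⟨hv, ?_⟩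
      rw [inner3]
      simp
    · rintro ⟨hp, h⟩
      rw [inner3] at h
      simp only [pt0, pt1, pt2, zero_mul, add_zero] at h
      exact (hval p (hF hp)).2 h
  · rw [vectorSpan_singleton]
    simp

theorem pyr_gdome : IsGDome pyr bot := by
  refine ⟨pyr_polyhedron, bot_face_pyr, ?_⟩
  intro F hF _
  right
  obtain ⟨⟨n, c, hle, hFeq⟩, hne, hdim⟩ := hF
  have hFsub : F ⊆ pyr := by
    intro p hp
    rw [hFeq] at hp
    exact hp.1
  by_contra hcon
  push Not at hcon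
  have hcor : ∀ x y : ℝ, (x = 0 ∨ x = 1) → (y = 0 ∨ y = 1) → ⟪n, pt x y 0⟫_ℝ < c := by
    intro x y hx hy
    refine lt_of_le_of_ne (hle _ (pyr_corner hx hy)) ?_
    intro h
    have hm : pt x y 0 ∈ F := by
      rw [hFeq]
      exact ⟨pyr_corner hx hy, h⟩
    refine hcon (pt x y 0) ?_ (corner_face hx hy hFsub hm)
    refine corner_face hx hy bot_sub_pyr ?_
    refine ⟨⟨?_, ?_⟩, ⟨?_, ?_⟩, ?_⟩ <;> rcases hx with rfl | rfl <;> rcases hy with rfl | rfl <;>
      simp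
  have hap : ⟪n, pt (1/2) (1/2) (1/2)⟫_ℝ ≤ c := hle _ pyr_apex
  have hC : Convex ℝ {p : E3 | p = pt (1/2) (1/2) (1/2) ∨ ⟪n, p⟫_ℝ < c} := by
    intro p hp q hq a b ha hb hab
    have key : ∀ r : E3, (r = pt (1/2) (1/2) (1/2) ∨ ⟪n, r⟫_ℝ < c) → ⟪n, r⟫_ℝ ≤ c := by
      rintro r (rfl | h)
      · exact hap
      · exact h.le
    have hp' := key p hp
    have hq' := key q hq
    rcases hp with hp | hp
    · rcases hq with hq | hq
      · left
        rw [hp, hq, ← add_smul, hab, one_smul]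
      · rcases hb.eq_or_lt with hb0 | hb0
        · left
          rw [← hb0] at hab ⊢
          rw [hp, show a = 1 by linarith]
          simp
        · right
          show ⟪n, a • p + b • q⟫_ℝ < c
          rw [inner_add_right, inner_smul_right, inner_smul_right]
          have e1 := mul_le_mul_of_nonneg_left hp' ha
          have e2 := mul_lt_mul_of_pos_left hq hb0
          have e3 : a * c + b * c = c := by rw [← add_mul, hab, one_mul]
          linarith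
    · rcases ha.eq_or_lt with ha0 | ha0
      · rw [← ha0] at hab ⊢
        rw [show b = 1 by linarith]
        simpa using hq
      · right
        show ⟪n, a • p + b • q⟫_ℝ < c
        rw [inner_add_right, inner_smul_right, inner_smul_right]
        have e1 := mul_lt_mul_of_pos_left hp ha0
        have e2 := mul_le_mul_of_nonneg_left hq' hb
        have e3 : a * c + b * c = c := by rw [← add_mul, hab, one_mul]
        linarith
  have hsub : pyr ⊆ {p : E3 | p = pt (1/2) (1/2) (1/2) ∨ ⟪n, p⟫_ℝ < c} := by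
    apply convexHull_min _ hC
    intro p hp
    simp only [pyrV, Finset.coe_insert, Finset.coe_singleton, Set.mem_insert_iff,
      Set.mem_singleton_iff] at hp
    rcases hp with h | h | h | h | h
    · right; rw [h]; exact hcor 0 0 (Or.inl rfl) (Or.inl rfl)
    · right; rw [h]; exact hcor 1 0 (Or.inr rfl) (Or.inl rfl)
    · right; rw [h]; exact hcor 0 1 (Or.inl rfl) (Or.inr rfl)
    · right; rw [h]; exact hcor 1 1 (Or.inr rfl) (Or.inr rfl)
    · left; exact h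
  have hFs : F ⊆ {pt (1/2) (1/2) (1/2)} := by
    intro p hp
    have h1 := hsub (hFsub hp)
    rw [hFeq] at hp
    rcases h1 with h1 | h1
    · exact h1
    · exact absurd hp.2 h1.ne
  have h0 : Module.finrank ℝ (vectorSpan ℝ F) = 0 := by
    have : F = {pt (1/2) (1/2) (1/2)} := by
      apply Set.Subset.antisymm hFs
      obtain ⟨p, hp⟩ := hne
      have := hFs hp
      rw [Set.mem_singleton_iff] at this
      intro q hq
      rw [Set.mem_singleton_iff] at hq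
      rw [hq, ← this]
      exact hp
    rw [this, vectorSpan_singleton]
    simp
  omega

end Pool.Agent.R748.Dome
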