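import Mathlib
import Pool.Agent.R748.DomeBase

/-! No admissible first cut of the cube, for MP_3a21c3_co. -/

namespace Pool.Agent.R748.Dome

open scoped InnerProductSpace

theorem edge_cases {e : Set E3} (he : IsFace 1 bot e) {n : E3} {c : ℝ}
    (hn : ∀ p ∈ e, ⟪n, p⟫_ℝ = c) :
    (n 0 = 0 ∧ (c = 0 ∨ c = n 1)) ∨ (n 1 = 0 ∧ (c = 0 ∨ c = n 0)) := by
  obtain ⟨⟨m, c', hle, heq⟩, ⟨q, hq⟩, hdim⟩ := he
  have hcorner : ∀ x y : ℝ, 0 ≤ x → x ≤ 1 → 0 ≤ y → y ≤ 1 → pt x y 0 ∈ bot := by
    intro x y hx hx' hy hy'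
    refine ⟨⟨?_, ?_⟩, ⟨?_, ?_⟩, ?_⟩ <;> simp <;> assumption
  have hval : ∀ x y : ℝ, 0 ≤ x → x ≤ 1 → 0 ≤ y → y ≤ 1 → m 0 * x + m 1 * y ≤ c' := by
    intro x y hx hx' hy hy'
    have := hle _ (hcorner x y hx hx' hy hy')
    rw [inner3] at this
    simpa using this
  have hmem : ∀ x y : ℝ, 0 ≤ x → x ≤ 1 → 0 ≤ y → y ≤ 1 → m 0 * x + m 1 * y = c' →
      n 0 * x + n 1 * y = c := by
    intro x y hx hx' hy hy' h
    have h1 : pt x y 0 ∈ e := by
      rw [heq]
      refine ⟨hcorner x y hx hx' hy hy', ?_⟩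
      rw [inner3]
      simpa using h
    have := hn _ h1
    rw [inner3] at this
    simpa using this
  have hq' := hq
  rw [heq] at hq'
  obtain ⟨⟨⟨q0, q0'⟩, ⟨q1, q1'⟩, q2⟩, hqc⟩ := hq'
  rw [inner3, q2] at hqc
  simp only [mul_zero, add_zero] at hqc
  by_cases hm0 : m 0 = 0
  · by_cases hm1 : m 1 = 0
    · exfalso
      have : e = bot := by
        rw [heq]
        apply Set.Subset.antisymm
        · exact fun p hp => hp.1
        · intro p hp
          refine ⟨hp, ?_⟩
          rw [inner3, hm0, hm1, hp.2.2]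
          rw [hm0, hm1] at hqc
          simpa using hqc
      rw [this, finrank_bot] at hdim
      omega
    · left
      rw [hm0] at hqc hval hmem
      simp only [zero_mul, zero_add] at hqc hval hmem
      rcases lt_or_gt_of_ne hm1 with h | h
      · have h1 := hval 0 0 (by norm_num) (by norm_num) (by norm_num) (by norm_num)
        have hc0 : c' = 0 := by nlinarith
        have h2 := hmem 0 0 (by norm_num) (by norm_num) (by norm_num) (by norm_num)
          (by rw [hc0]; ring)
        have h3 := hmem 1 0 (by norm_num) (by norm_num) (by norm_num) (by norm_num)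
          (by rw [hc0]; ring)
        exact ⟨by linarith, Or.inl (by linarith)⟩
      · have h1 := hval 0 1 (by norm_num) (by norm_num) (by norm_num) (by norm_num)
        have hc0 : c' = m 1 := by nlinarith
        have h2 := hmem 0 1 (by norm_num) (by norm_num) (by norm_num) (by norm_num)
          (by rw [hc0]; ring)
        have h3 := hmem 1 1 (by norm_num) (by norm_num) (by norm_num) (by norm_num)
          (by rw [hc0]; ring)
        exact ⟨by linarith, Or.inr (by linarith)⟩
  · by_cases hm1 : m 1 = 0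
    · right
      rw [hm1] at hqc hval hmem
      simp only [zero_mul, add_zero] at hqc hval hmem
      rcases lt_or_gt_of_ne hm0 with h | h
      · have h1 := hval 0 0 (by norm_num) (by norm_num) (by norm_num) (by norm_num)
        have hc0 : c' = 0 := by nlinarith
        have h2 := hmem 0 0 (by norm_num) (by norm_num) (by norm_num) (by norm_num)
          (by rw [hc0]; ring)
        have h3 := hmem 0 1 (by norm_num) (by norm_num) (by norm_num) (by norm_num)
          (by rw [hc0]; ring)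
        exact ⟨by linarith, Or.inl (by linarith)⟩
      · have h1 := hval 1 0 (by norm_num) (by norm_num) (by norm_num) (by norm_num)
        have hc0 : c' = m 0 := by nlinarith
        have h2 := hmem 1 0 (by norm_num) (by norm_num) (by norm_num) (by norm_num)
          (by rw [hc0]; ring)
        have h3 := hmem 1 1 (by norm_num) (by norm_num) (by norm_num) (by norm_num)
          (by rw [hc0]; ring)
        exact ⟨by linarith, Or.inr (by linarith)⟩
    · exfalso
      obtain ⟨x, hx0, hx1, hx⟩ : ∃ x : ℝ, 0 ≤ x ∧ x ≤ 1 ∧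
          ∀ s : ℝ, 0 ≤ s → s ≤ 1 → m 0 * s ≤ m 0 * x ∧ (m 0 * s = m 0 * x → s = x) := by
        rcases lt_or_gt_of_ne hm0 with h | h
        · refine ⟨0, le_rfl, by norm_num, fun s hs hs' => ⟨by nlinarith, fun h' => ?_⟩⟩
          exact mul_left_cancel₀ hm0 h'
        · refine ⟨1, by norm_num, le_rfl, fun s hs hs' => ⟨by nlinarith, fun h' => ?_⟩⟩
          exact mul_left_cancel₀ hm0 h'
      obtain ⟨y, hy0, hy1, hy⟩ : ∃ x : ℝ, 0 ≤ x ∧ x ≤ 1 ∧
          ∀ s : ℝ, 0 ≤ s → s ≤ 1 → m 1 * s ≤ m 1 * x ∧ (m 1 * s = m 1 * x → s = x) := by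
        rcases lt_or_gt_of_ne hm1 with h | h
        · refine ⟨0, le_rfl, by norm_num, fun s hs hs' => ⟨by nlinarith, fun h' => ?_⟩⟩
          exact mul_left_cancel₀ hm1 h'
        · refine ⟨1, by norm_num, le_rfl, fun s hs hs' => ⟨by nlinarith, fun h' => ?_⟩⟩
          exact mul_left_cancel₀ hm1 h'
      have hsub : e ⊆ {pt x y 0} := by
        intro p hp
        rw [heq] at hp
        obtain ⟨⟨⟨p0, p0'⟩, ⟨p1, p1'⟩, p2⟩, hpc⟩ := hp
        rw [inner3, p2] at hpc
        simp only [mul_zero, add_zero] at hpc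
        have h1 := hval x y hx0 hx1 hy0 hy1
        have h2 := hx _ p0 p0'
        have h3 := hy _ p1 p1'
        rw [Set.mem_singleton_iff]
        apply ext3
        · rw [pt0]
          exact h2.2 (by linarith [h2.1, h3.1])
        · rw [pt1]
          exact h3.2 (by linarith [h2.1, h3.1])
        · rw [pt2, p2]
      have : e = {pt x y 0} := by
        apply Set.Subset.antisymm hsub
        intro p hp
        rw [Set.mem_singleton_iff] at hp
        have := hsub hq
        rw [Set.mem_singleton_iff] at this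
        rw [hp, ← this]
        exact hq
      rw [this, vectorSpan_singleton] at hdim
      simp at hdim

/-- points with extreme coordinates are extreme points -/
theorem corner_extreme {Q : Set E3} {p : E3} (hp : p ∈ Q)
    (h : ∀ i, (∀ q ∈ Q, q i ≤ p i) ∨ (∀ q ∈ Q, p i ≤ q i)) : p ∈ Q.extremePoints ℝ := by
  rw [mem_extremePoints]
  refine ⟨hp, ?_⟩
  intro x hx y hy hxy
  obtain ⟨a, b, ha, hb, hab, he⟩ := hxy
  have key : ∀ i, x i = p i ∧ y i = p i := by
    intro i
    have hi : a * x i + b * y i = p i := by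
      rw [← he]
      simp
    have hc : a * p i + b * p i = p i := by rw [← add_mul, hab, one_mul]
    rcases h i with h | h
    · have h1 := mul_le_mul_of_nonneg_left (h x hx) ha.le
      have h2 := mul_le_mul_of_nonneg_left (h y hy) hb.le
      constructor
      · have : a * x i = a * p i := by linarith
        exact mul_left_cancel₀ ha.ne' this
      · have : b * y i = b * p i := by linarith
        exact mul_left_cancel₀ hb.ne' this
    · have h1 := mul_le_mul_of_nonneg_left (h x hx) ha.le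
      have h2 := mul_le_mul_of_nonneg_left (h y hy) hb.le
      constructor
      · have : a * x i = a * p i := by linarith
        exact mul_left_cancel₀ ha.ne' this
      · have : b * y i = b * p i := by linarith
        exact mul_left_cancel₀ hb.ne' this
  exact ⟨by ext i; exact (key i).1, by ext i; exact (key i).2⟩

/-- a polygon lies in a plane -/
theorem polygon_plane {B : Set E3} (hB : IsPolygon B) :
    ∃ (k : E3) (b : ℝ), k ≠ 0 ∧ ∀ p ∈ B, ⟪k, p⟫_ℝ = b := by
  have hne : B.Nonempty := by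
    by_contra h
    rw [Set.not_nonempty_iff_eq_empty] at h
    have := hB.2
    rw [h, vectorSpan_empty, _root_.finrank_bot] at this
    omega
  obtain ⟨q, hq⟩ := hne
  have h1 : (vectorSpan ℝ B)ᗮ ≠ ⊥ := by
    intro h
    rw [Submodule.orthogonal_eq_bot_iff] at h
    have := hB.2
    rw [h] at this
    simp at this
  obtain ⟨k, hk, hk0⟩ := Submodule.exists_mem_ne_zero_of_ne_bot h1
  refine ⟨k, ⟪k, q⟫_ℝ, hk0, ?_⟩
  intro p hp
  rw [Submodule.mem_orthogonal'] at hk
  have := hk (p -ᵥ q) (vsub_mem_vectorSpan ℝ hp hq)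
  rw [vsub_eq_sub, inner_sub_right] at this
  linarith

theorem core_aux {B : Set E3} {a a' d1 d2 k : E3} {b : ℝ} (hk : ∀ p ∈ B, ⟪k, p⟫_ℝ = b)
    (h0 : a ∈ B) (h1 : a + d1 ∈ B) (h2 : a + d2 ∈ B) (h3 : a' ∈ B ∨ a' + d1 ∈ B) :
    ⟪k, d1⟫_ℝ = 0 ∧ ⟪k, d2⟫_ℝ = 0 ∧ ⟪k, a' - a⟫_ℝ = 0 := by
  have e0 := hk _ h0
  have e1 := hk _ h1
  have e2 := hk _ h2
  rw [inner_add_right] at e1 e2
  rw [inner_sub_right]
  rcases h3 with h3 | h3
  · have e3 := hk _ h3
    exact ⟨by linarith, by linarith, by linarith⟩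
  · have e3 := hk _ h3
    rw [inner_add_right] at e3
    exact ⟨by linarith, by linarith, by linarith⟩

/-- a set with these six extreme points is not a pyramid -/
theorem core {Q : Set E3} {a a' d1 d2 : E3} {t : Fin 3} (hd : d1 ≠ 0)
    (hk : ∀ k : E3, ⟪k, d1⟫_ℝ = 0 → ⟪k, d2⟫_ℝ = 0 → ⟪k, a' - a⟫_ℝ = 0 → k = 0)
    (t0 : a t = 0) (t1 : (a + d1) t = 0) (t2 : (a + d2) t = 0) (t0' : a' t = 1)
    (t1' : (a' + d1) t = 1) (t2' : (a' + d2) t = 1)
    (h0 : a ∈ Q.extremePoints ℝ) (h1 : a + d1 ∈ Q.extremePoints ℝ)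
    (h2 : a + d2 ∈ Q.extremePoints ℝ) (h0' : a' ∈ Q.extremePoints ℝ)
    (h1' : a' + d1 ∈ Q.extremePoints ℝ) (h2' : a' + d2 ∈ Q.extremePoints ℝ) :
    ¬ IsPyramid Q := by
  rintro ⟨B, v, hB, -, rfl⟩
  obtain ⟨k, b, hk0, hkB⟩ := polygon_plane hB
  have hs := extremePoints_convexHull_subset (𝕜 := ℝ) (A := insert v B)
  have hor : ∀ x : E3, x = v ∨ x ∈ B → x ≠ v → x ∈ B := by
    intro x hx hne
    rcases hx with hx | hx
    · exact absurd hx hne
    · exact hx
  have hne : ∀ x : E3, x ≠ v ∨ x + d1 ≠ v := by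
    intro x
    by_contra hcon
    push Not at hcon
    apply hd
    have : x + d1 = x := by rw [hcon.2, hcon.1]
    simpa using this
  by_cases hv : v t = 0
  · have g : ∀ x : E3, x t = 1 → x ≠ v := by
      intro x hx h
      rw [h, hv] at hx
      norm_num at hx
    have m0 := hor _ (hs h0') (g _ t0')
    have m1 := hor _ (hs h1') (g _ t1')
    have m2 := hor _ (hs h2') (g _ t2')
    have m3 : a ∈ B ∨ a + d1 ∈ B := by
      rcases hne a with h | h
      · exact Or.inl (hor _ (hs h0) h)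
      · exact Or.inr (hor _ (hs h1) h)
    obtain ⟨e1, e2, e3⟩ := core_aux hkB m0 m1 m2 m3
    apply hk0
    apply hk k e1 e2
    rw [← neg_sub, inner_neg_right, e3, neg_zero]
  · have g : ∀ x : E3, x t = 0 → x ≠ v := by
      intro x hx h
      rw [h] at hx
      exact hv hx
    have m0 := hor _ (hs h0) (g _ t0)
    have m1 := hor _ (hs h1) (g _ t1)
    have m2 := hor _ (hs h2) (g _ t2)
    have m3 : a' ∈ B ∨ a' + d1 ∈ B := by
      rcases hne a' with h | h
      · exact Or.inl (hor _ (hs h0') h)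
      · exact Or.inr (hor _ (hs h1') h)
    obtain ⟨e1, e2, e3⟩ := core_aux hkB m0 m1 m2 m3
    exact hk0 (hk k e1 e2 e3)

/-- a pyramid does not lie in a plane parallel to two of the axes -/
theorem flat_not_pyramid {Q : Set E3} {i : Fin 3} {r : ℝ} (h : ∀ p ∈ Q, p i = r) :
    ¬ IsPyramid Q := by
  rintro ⟨B, v, hB, hv, rfl⟩
  have hne : B.Nonempty := by
    by_contra h
    rw [Set.not_nonempty_iff_eq_empty] at h
    have := hB.2
    rw [h, vectorSpan_empty, _root_.finrank_bot] at this
    omega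
  obtain ⟨q, hq⟩ := hne
  let k : E3 := EuclideanSpace.single i 1
  have hk0 : k ≠ 0 := by
    intro h
    have : k i = 0 := by rw [h]; rfl
    simp [k] at this
  have hki : ∀ p : E3, ⟪k, p⟫_ℝ = p i := by
    intro p
    show ⟪EuclideanSpace.single i (1 : ℝ), p⟫_ℝ = p i
    rw [EuclideanSpace.inner_single_left]
    simp
  have : Fact (Module.finrank ℝ E3 = 2 + 1) := ⟨by simp⟩
  have h2 : Module.finrank ℝ (Submodule.span ℝ {k})ᗮ = 2 := Submodule.finrank_orthogonal_span_singleton hk0
  have hsub : ∀ p ∈ insert v B, p i = r := fun p hp => h p (subset_convexHull ℝ _ hp)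
  have hle : vectorSpan ℝ B ≤ (Submodule.span ℝ {k})ᗮ := by
    rw [vectorSpan, Submodule.span_le]
    rintro _ ⟨x, hx, y, hy, rfl⟩
    rw [SetLike.mem_coe, Submodule.mem_orthogonal_singleton_iff_inner_right]
    show ⟪k, x -ᵥ y⟫_ℝ = 0
    rw [vsub_eq_sub, inner_sub_right, hki, hki, hsub x (Set.mem_insert_of_mem _ hx),
      hsub y (Set.mem_insert_of_mem _ hy), sub_self]
  have heq : vectorSpan ℝ B = (Submodule.span ℝ {k})ᗮ :=
    Submodule.eq_of_le_of_finrank_eq hle (by rw [hB.2, h2])
  apply hv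
  have hvq : v -ᵥ q ∈ vectorSpan ℝ B := by
    rw [heq, Submodule.mem_orthogonal_singleton_iff_inner_right]
    rw [vsub_eq_sub, inner_sub_right, hki, hki, hsub v (Set.mem_insert _ _),
      hsub q (Set.mem_insert_of_mem _ hq), sub_self]
  have := AffineSubspace.vadd_mem_of_mem_direction (s := affineSpan ℝ B)
    (by rw [direction_affineSpan]; exact hvq) (mem_affineSpan ℝ hq)
  simpa using this

end Pool.Agent.R748.Dome
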