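import Mathlib
import Pool.Agent.R748.DomeMain

/-! No admissible first cut of the cube, for MP_3a21c3_co: the wedges. -/

namespace Pool.Agent.R748.Dome

open scoped InnerProductSpace

/-- the point with the given coordinates relative to an edge of the base -/
noncomputable def qt (i : Fin 3) (r w t z : ℝ) : E3 :=
  if i = 0 then pt (r + (1 - 2 * r) * w) t z else pt t (r + (1 - 2 * r) * w) z

theorem wedge_not_pyramid {i j : Fin 3} (hij : (i = 0 ∧ j = 1) ∨ (i = 1 ∧ j = 0)) {r : ℝ}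
    (hr : r = 0 ∨ r = 1) {α β : ℝ} (hα : 0 ≤ α) (hβ : β ≤ α) (hne : α ≠ 0 ∨ β ≠ 0) {Q : Set E3}
    (hQ : ∀ p, p ∈ Q ↔ p ∈ cube ∧ α * (r + (1 - 2 * r) * p i) ≤ β * p 2) : ¬ IsPyramid Q := by
  have hw0 : ∀ p ∈ cube, 0 ≤ r + (1 - 2 * r) * p i ∧ r + (1 - 2 * r) * p i ≤ 1 := by
    rintro p ⟨⟨p0, p0'⟩, ⟨p1, p1'⟩, -⟩
    rcases hij with ⟨rfl, rfl⟩ | ⟨rfl, rfl⟩ <;> rcases hr with rfl | rfl <;> constructor <;>
      linarith
  rcases le_or_gt β 0 with hβ0 | hβ0
  · rcases hβ0.lt_or_eq with hβ0 | hβ0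
    · apply flat_not_pyramid (i := 2) (r := 0)
      intro p hp
      obtain ⟨hc, hp⟩ := (hQ p).1 hp
      have h1 := mul_nonneg hα (hw0 p hc).1
      have h2 := hc.2.2.1
      nlinarith
    · have hα' : α ≠ 0 := by
        rcases hne with h | h
        · exact h
        · exact absurd hβ0 h
      have hα'' : 0 < α := lt_of_le_of_ne hα (Ne.symm hα')
      apply flat_not_pyramid (i := i) (r := r)
      intro p hp
      obtain ⟨hc, hp⟩ := (hQ p).1 hp
      rw [hβ0, zero_mul] at hp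
      have h1 := (hw0 p hc).1
      have h2 : r + (1 - 2 * r) * p i = 0 := by nlinarith
      rcases hr with rfl | rfl <;> linarith
  · have hα0 : 0 < α := lt_of_lt_of_le hβ0 hβ
    obtain ⟨s, hs⟩ : ∃ s, s = β / α := ⟨_, rfl⟩
    have hs0 : 0 < s := by rw [hs]; positivity
    have hs1 : s ≤ 1 := by rw [hs]; exact (div_le_one hα0).2 hβ
    have hsa : α * s = β := by rw [hs]; field_simp
    have hws : ∀ p ∈ Q, r + (1 - 2 * r) * p i ≤ s := by
      intro p hp
      obtain ⟨hc, hp⟩ := (hQ p).1 hp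
      have h2 := hc.2.2.2
      have h3 : α * (r + (1 - 2 * r) * p i) ≤ α * s := by
        rw [hsa]
        nlinarith
      exact le_of_mul_le_mul_left h3 hα0
    have hmem : ∀ w t z : ℝ, 0 ≤ w → w ≤ 1 → 0 ≤ t → t ≤ 1 → 0 ≤ z → z ≤ 1 → w ≤ s * z →
        qt i r w t z ∈ Q := by
      intro w t z w0 w1 t0 t1 z0 z1 hwz
      rw [hQ]
      constructor
      · rcases hij with ⟨rfl, rfl⟩ | ⟨rfl, rfl⟩ <;> rcases hr with rfl | rfl <;>
          refine ⟨⟨?_, ?_⟩, ⟨?_, ?_⟩, ⟨?_, ?_⟩⟩ <;> simp [qt] <;> linarith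
      · have h1 : r + (1 - 2 * r) * (qt i r w t z) i = w := by
          rcases hij with ⟨rfl, rfl⟩ | ⟨rfl, rfl⟩ <;> rcases hr with rfl | rfl <;>
            simp [qt] <;> ring
        have h2 : (qt i r w t z) 2 = z := by
          rcases hij with ⟨rfl, rfl⟩ | ⟨rfl, rfl⟩ <;> simp [qt]
        rw [h1, h2, ← hsa, mul_assoc]
        exact mul_le_mul_of_nonneg_left hwz hα
    have hQc : ∀ p ∈ Q, p ∈ cube := fun p hp => ((hQ p).1 hp).1
    -- the extreme points
    have hext : ∀ w t z : ℝ, (t = 0 ∨ t = 1) → ((w = 0 ∧ (z = 0 ∨ z = 1)) ∨ (w = s ∧ z = 1)) →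
        qt i r w t z ∈ Q.extremePoints ℝ := by
      intro w t z ht hwz
      have hwI : 0 ≤ w ∧ w ≤ 1 := by
        rcases hwz with ⟨rfl, -⟩ | ⟨rfl, -⟩
        · exact ⟨le_rfl, by norm_num⟩
        · exact ⟨hs0.le, hs1⟩
      have hzI : 0 ≤ z ∧ z ≤ 1 := by
        rcases hwz with ⟨-, rfl | rfl⟩ | ⟨-, rfl⟩ <;> norm_num
      have htI : 0 ≤ t ∧ t ≤ 1 := by
        rcases ht with rfl | rfl <;> norm_num
      have hwz' : w ≤ s * z := by
        rcases hwz with ⟨rfl, -⟩ | ⟨rfl, rfl⟩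
        · exact mul_nonneg hs0.le hzI.1
        · linarith
      have hm := hmem w t z hwI.1 hwI.2 htI.1 htI.2 hzI.1 hzI.2 hwz'
      apply corner_extreme hm
      have hT : (∀ q ∈ Q, q j ≤ t) ∨ (∀ q ∈ Q, t ≤ q j) := by
        rcases ht with rfl | rfl
        · right
          intro q hq
          obtain ⟨⟨p0, p0'⟩, ⟨p1, p1'⟩, -⟩ := hQc q hq
          rcases hij with ⟨rfl, rfl⟩ | ⟨rfl, rfl⟩ <;> assumption
        · left
          intro q hq
          obtain ⟨⟨p0, p0'⟩, ⟨p1, p1'⟩, -⟩ := hQc q hq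
          rcases hij with ⟨rfl, rfl⟩ | ⟨rfl, rfl⟩ <;> assumption
      have hZ : (∀ q ∈ Q, q 2 ≤ z) ∨ (∀ q ∈ Q, z ≤ q 2) := by
        rcases hwz with ⟨-, rfl | rfl⟩ | ⟨-, rfl⟩
        · exact Or.inr fun q hq => (hQc q hq).2.2.1
        · exact Or.inl fun q hq => (hQc q hq).2.2.2
        · exact Or.inl fun q hq => (hQc q hq).2.2.2
      have hW : (∀ q ∈ Q, q i ≤ r + (1 - 2 * r) * w) ∨ (∀ q ∈ Q, r + (1 - 2 * r) * w ≤ q i) := by
        rcases hwz with ⟨rfl, -⟩ | ⟨rfl, -⟩
        · rcases hr with rfl | rfl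
          · right
            intro q hq
            have := (hw0 q (hQc q hq)).1
            linarith
          · left
            intro q hq
            have := (hw0 q (hQc q hq)).1
            linarith
        · rcases hr with rfl | rfl
          · left
            intro q hq
            have := hws q hq
            linarith
          · right
            intro q hq
            have := hws q hq
            linarith
      intro m
      rcases hij with ⟨rfl, rfl⟩ | ⟨rfl, rfl⟩
      · fin_cases m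
        · simpa [qt] using hW
        · simpa [qt] using hT
        · simpa [qt] using hZ
      · fin_cases m
        · simpa [qt] using hT
        · simpa [qt] using hW
        · simpa [qt] using hZ
    have add1 : ∀ t : ℝ, qt i r 0 t 0 + pt 0 0 1 = qt i r 0 t 1 := by
      intro t
      rcases hij with ⟨rfl, rfl⟩ | ⟨rfl, rfl⟩ <;> rcases hr with rfl | rfl <;> apply ext3 <;>
        simp [qt]
    have add2 : ∀ t : ℝ, qt i r 0 t 0 + (qt i r s 0 1 - qt i r 0 0 0) = qt i r s t 1 := by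
      intro t
      rcases hij with ⟨rfl, rfl⟩ | ⟨rfl, rfl⟩ <;> rcases hr with rfl | rfl <;> apply ext3 <;>
        simp [qt]
    have htc : ∀ w t z : ℝ, (qt i r w t z) j = t := by
      intro w t z
      rcases hij with ⟨rfl, rfl⟩ | ⟨rfl, rfl⟩ <;> simp [qt]
    apply core (a := qt i r 0 0 0) (a' := qt i r 0 1 0) (d1 := pt 0 0 1)
      (d2 := qt i r s 0 1 - qt i r 0 0 0) (t := j)
    · intro h
      have : (pt 0 0 1 : E3) 2 = (0 : E3) 2 := by rw [h]
      simp at this
    · intro k k1 k2 k3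
      rw [inner3] at k1 k2 k3
      rcases hij with ⟨rfl, rfl⟩ | ⟨rfl, rfl⟩ <;> rcases hr with rfl | rfl <;>
        simp [qt] at k1 k2 k3 <;>
        apply ext3 <;> simp <;> nlinarith
    · exact htc _ _ _
    · rw [add1]; exact htc _ _ _
    · rw [add2]; exact htc _ _ _
    · exact htc _ _ _
    · rw [add1]; exact htc _ _ _
    · rw [add2]; exact htc _ _ _
    · exact hext _ _ _ (Or.inl rfl) (Or.inl ⟨rfl, Or.inl rfl⟩)
    · rw [add1]; exact hext _ _ _ (Or.inl rfl) (Or.inl ⟨rfl, Or.inr rfl⟩)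
    · rw [add2]; exact hext _ _ _ (Or.inl rfl) (Or.inr ⟨rfl, rfl⟩)
    · exact hext _ _ _ (Or.inr rfl) (Or.inl ⟨rfl, Or.inl rfl⟩)
    · rw [add1]; exact hext _ _ _ (Or.inr rfl) (Or.inl ⟨rfl, Or.inr rfl⟩)
    · rw [add2]; exact hext _ _ _ (Or.inr rfl) (Or.inr ⟨rfl, rfl⟩)

/-- no admissible first cut of the cube -/
theorem no_cut (P' : Set E3) : ¬ Cut bot pyr cube P' := by
  rintro ⟨n, c, e, hn, he, hec, hint, hpyr, -⟩
  -- the inequality on the whole pyramid
  have hle : ∀ p ∈ pyr, ⟪n, p⟫_ℝ ≤ c := by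
    have hcl : IsClosed {p : E3 | ⟪n, p⟫_ℝ ≤ c} :=
      isClosed_le (by fun_prop) continuous_const
    have h1 : closure (interior pyr) ⊆ {p : E3 | ⟪n, p⟫_ℝ ≤ c} :=
      closure_minimal (fun p hp => (hint p hp).le) hcl
    have h2 : closure (interior pyr) = closure pyr :=
      (convex_convexHull ℝ _).closure_interior_eq_closure_of_nonempty_interior pyr_interior
    intro p hp
    exact h1 (h2 ▸ subset_closure hp)
  have hcor : ∀ x y : ℝ, (x = 0 ∨ x = 1) → (y = 0 ∨ y = 1) → n 0 * x + n 1 * y ≤ c := by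
    intro x y hx hy
    have := hle _ (pyr_corner hx hy)
    rw [inner3] at this
    simpa using this
  have hap := hle _ pyr_apex
  rw [inner3] at hap
  simp only [pt0, pt1, pt2] at hap
  have h00 := hcor 0 0 (Or.inl rfl) (Or.inl rfl)
  have h10 := hcor 1 0 (Or.inr rfl) (Or.inl rfl)
  have h01 := hcor 0 1 (Or.inl rfl) (Or.inr rfl)
  have hnn : ¬ (n 0 = 0 ∧ n 1 = 0 ∧ n 2 = 0) := by
    rintro ⟨a, b, c⟩
    apply hn
    apply ext3
    · simpa using a
    · simpa using b
    · simpa using c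
  rcases edge_cases he hec with ⟨hn0, hc⟩ | ⟨hn1, hc⟩
  · rcases hc with hc | hc
    · -- edge `y = 0`
      refine wedge_not_pyramid (i := 1) (j := 0) (Or.inr ⟨rfl, rfl⟩) (r := 0) (Or.inl rfl)
        (α := - n 1) (β := n 2) (by linarith) (by linarith) ?_ ?_ hpyr
      · by_contra hcon
        push Not at hcon
        exact hnn ⟨hn0, by linarith [hcon.1], hcon.2⟩
      · intro p
        rw [Set.mem_ofPred_eq, inner3, hn0, hc]
        constructor
        · rintro ⟨a, b⟩
          exact ⟨a, by linarith⟩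
        · rintro ⟨a, b⟩
          exact ⟨a, by linarith⟩
    · refine wedge_not_pyramid (i := 1) (j := 0) (Or.inr ⟨rfl, rfl⟩) (r := 1) (Or.inr rfl)
        (α := n 1) (β := n 2) (by linarith) (by linarith) ?_ ?_ hpyr
      · by_contra hcon
        push Not at hcon
        exact hnn ⟨hn0, by linarith [hcon.1], hcon.2⟩
      · intro p
        rw [Set.mem_ofPred_eq, inner3, hn0, hc]
        constructor
        · rintro ⟨a, b⟩
          exact ⟨a, by linarith⟩
        · rintro ⟨a, b⟩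
          exact ⟨a, by linarith⟩
  · rcases hc with hc | hc
    · refine wedge_not_pyramid (i := 0) (j := 1) (Or.inl ⟨rfl, rfl⟩) (r := 0) (Or.inl rfl)
        (α := - n 0) (β := n 2) (by linarith) (by linarith) ?_ ?_ hpyr
      · by_contra hcon
        push Not at hcon
        exact hnn ⟨by linarith [hcon.1], hn1, hcon.2⟩
      · intro p
        rw [Set.mem_ofPred_eq, inner3, hn1, hc]
        constructor
        · rintro ⟨a, b⟩
          exact ⟨a, by linarith⟩
        · rintro ⟨a, b⟩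
          exact ⟨a, by linarith⟩
    · refine wedge_not_pyramid (i := 0) (j := 1) (Or.inl ⟨rfl, rfl⟩) (r := 1) (Or.inr rfl)
        (α := n 0) (β := n 2) (by linarith) (by linarith) ?_ ?_ hpyr
      · by_contra hcon
        push Not at hcon
        exact hnn ⟨by linarith [hcon.1], hn1, hcon.2⟩
      · intro p
        rw [Set.mem_ofPred_eq, inner3, hn1, hc]
        constructor
        · rintro ⟨a, b⟩
          exact ⟨a, by linarith⟩
        · rintro ⟨a, b⟩
          exact ⟨a, by linarith⟩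

theorem cube_ne_pyr : cube ≠ pyr := by
  intro h
  have h1 : pt 0 0 1 ∈ cube := by
    refine ⟨⟨?_, ?_⟩, ⟨?_, ?_⟩, ⟨?_, ?_⟩⟩ <;> simp
  rw [h] at h1
  have := (pyr_ineq h1).2.1
  simp at this
  linarith

theorem not_succeeds : ¬ Succeeds bot pyr cube := by
  intro h
  rcases Relation.ReflTransGen.cases_head h with h | ⟨P', h, -⟩
  · exact cube_ne_pyr h
  · exact no_cut P' h

end Pool.Agent.R748.Dome
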