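import Mathlib

/-! Certificate for MP_a2d1c1_co: 58 lattice points whose unit-distance graph (for the octagon
`|x| ≤ 4, |y| ≤ 4, |x| + |y| ≤ 6`) is not 4-colourable. -/

namespace R748.Oct

/-- Search trees refuting 4-colourability. -/
inductive T : Type
  | D : T
  | N : ℕ → T → T → T → T → T

open T

/-- packed adjacency masks (64 bits per vertex). -/
def adjBig : ℕ := 0x208001c000000000000508e000000000104080700000000000224478000000020800223c00000000820010418000000020800821c000000000040110c000000010410488e0000000002282046000000208004042700000008200102030000000410800204e00000000040009278000000022828293e000010410204040f0000041080020203000010200100042080000810800200108000040800810208c000020040008084c000010410505142e00010800400082170000420010004083000021080020004100020400100041008003020800200084c003d08400080022e001e862828204197000e40040008000300062102040020430002100100041001000008800200082100018101000410448001e08081020422e000fa5050518019f0003d240008008430000c81000410421000020200041040400003010200080220000390808002011000018810518010000001c448204108800000c220080080400000e10400200420000060820008021000001f02020420100000078891801000000001c428008080000000e2041040200000001c040802000000000e12020100000000078941080000000003e4200440000000001c082010000000000c840100000000000e421000000000000721808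

/-- adjacency mask of the vertex `v`. -/
def am (v : ℕ) : ℕ := (adjBig >>> (64 * v)) % 18446744073709551616

/-- checker: with colour classes (as bit masks) `m0 … m3`, the tree refutes every extension. -/
def check : T → ℕ → ℕ → ℕ → ℕ → Bool
  | D, _, _, _, _ => false
  | N v t0 t1 t2 t3, m0, m1, m2, m3 =>
    (!(Nat.beq (am v &&& m0) 0) || check t0 (m0 ||| 1 <<< v) m1 m2 m3) &&
    ((!(Nat.beq (am v &&& m1) 0) || check t1 m0 (m1 ||| 1 <<< v) m2 m3) &&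
    ((!(Nat.beq (am v &&& m2) 0) || check t2 m0 m1 (m2 ||| 1 <<< v) m3) &&
    ((!(Nat.beq (am v &&& m3) 0) || check t3 m0 m1 m2 (m3 ||| 1 <<< v)))))

/-- all vertices in the tree are `< 58`. -/
def small : T → Bool
  | D => true
  | N v t0 t1 t2 t3 => Nat.blt v 58 && (small t0 && (small t1 && (small t2 && small t3)))

/-- the refutation tree. -/
def tree : T :=
  (N 35 (N 51 D (N 22 D D (N 24 D D D (N 36 (N 34 D D D (N 8 D (N 10 D D (N 52 D (N 49 (N 21 D (N 38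
  D D D (N 11 D D (N 47 (N 0 D D D (N 20 D (N 29 (N 5 D D D (N 30 D D (N 6 D D D D) D)) D D (N 5 (N
  31 D (N 15 D D (N 25 D D D D) D) D D) D D D)) D D)) D D D) D)) D (N 11 D D (N 47 (N 0 D (N 20 D D
  D (N 38 D (N 15 D D (N 12 D D D (N 29 (N 54 D D (N 30 D D D (N 27 D (N 5 D D D D) D D)) D) D D D))
  D) D D)) D D) D D D) D)) D D D) D D) D) D D)) D (N 10 D (N 8 D D D (N 34 (N 29 (N 11 D D D (N 38 D
  D (N 0 D (N 21 (N 47 D D D (N 20 (N 25 D D (N 1 D (N 18 D D D (N 15 D (N 43 D D D (N 17 D D (N 44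
  D D D D) D)) D D)) D D) D) D D D)) D D D) D D) D)) D (N 11 (N 21 D (N 49 D D D (N 31 (N 6 D D D D)
  D D D)) D (N 47 (N 49 D (N 20 D D D (N 38 D D (N 25 D D D (N 15 D (N 43 (N 12 D D D (N 42 (N 44 D
  D (N 16 D (N 31 D D D (N 7 (N 5 D (N 33 D (N 48 (N 52 (N 56 D (N 41 D (N 54 D D D (N 30 D D (N 28
  (N 4 D (N 17 D D D (N 13 D D D D)) D D) D D D) D)) D D) D D) D D D) D D D) D D) D D) D D D)) D D)
  D) D D D)) D D D) D D)) D)) D D) D D D)) D D (N 38 D D (N 0 D (N 21 (N 6 D (N 47 D D D (N 12 D D D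
  (N 15 D (N 42 (N 30 D D (N 44 D D (N 17 D D D (N 13 D D D D)) D) D) D D D) D D))) D D) D D D) D D)
  D)) D) D D D)) D D) D)) (N 24 D D (N 36 (N 34 D D (N 8 D (N 10 D D D (N 1 (N 21 D (N 49 (N 38 D D
  (N 11 D D D (N 47 (N 0 D D (N 20 D (N 29 (N 5 D D D (N 30 D D (N 27 D (N 4 D D (N 17 D D D (N 43
  (N 16 D D D (N 14 D (N 42 (N 44 D D D D) D D D) D D)) D D D)) D) D D) D)) D (N 31 D (N 15 D D D (N
  25 D D D D)) D D) D) D D) D) D D D)) D) D D D) D (N 11 D D (N 38 D (N 15 D D D (N 0 D (N 20 D D (N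
  12 D D (N 46 D (N 49 (N 47 (N 25 D D (N 40 D (N 29 (N 4 D (N 6 D D D D) D D) D D (N 54 (N 28 D D D
  (N 56 D D (N 30 D D D (N 31 D (N 43 (N 16 D D D (N 33 D D (N 53 (N 37 D (N 42 (N 27 D D (N 17 D D
  D (N 6 (N 4 D (N 41 D (N 48 (N 2 (N 52 D (N 50 D (N 32 D D (N 57 D D D D) D) D D) D D) D D D) D D
  D) D D) D D) D D D)) D) D D D) D D) D D D) D)) D D D) D D)) D)) D D D)) D D) D) D D D) D D D) D D)
  D) D) D D)) D D) D)) D D D)) D D) D) D D (N 10 D (N 8 D D (N 34 (N 49 D (N 52 (N 29 (N 11 D D (N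
  38 D D D (N 21 (N 47 D D (N 30 D D D (N 5 D (N 28 (N 18 D D (N 15 D (N 45 D (N 44 D D D (N 17 D D
  (N 4 D (N 6 D D D D) D D) D)) D D) D D) D) D D D) D D)) D) D D D)) D) D D (N 30 D D (N 47 (N 21 D
  D D (N 54 D (N 20 D D (N 0 D (N 12 D D (N 56 D (N 42 (N 44 D (N 15 D D D (N 13 D (N 43 (N 41 D D D
  D) D D D) D D)) D D) D D D) D D) D) D D) D) D D)) D D D) (N 21 (N 11 D D (N 47 D D (N 20 (N 5 D (N
  12 D D (N 41 D (N 43 D D D (N 15 D (N 42 (N 16 D (N 48 D D (N 54 D D (N 27 (N 53 D D (N 6 D (N 4 D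
  D (N 17 D (N 0 D D D D) D D) D) D D) D) D D D) D) D) D D) D D D) D D)) D D) D) D D) D D D) D) D) D
  D (N 38 D D (N 11 (N 54 D (N 47 (N 20 D D (N 25 D D (N 0 D (N 12 D D (N 41 (N 40 D D (N 17 D D D
  (N 43 D (N 15 D D D (N 14 D D D (N 37 D D (N 53 (N 27 D D D D) D D D) D))) D D)) D) D D D) D) D D)
  D) D) D D D) D D) D D D) D)))) D D D) D D) D D D) D) D D)) D)) D (N 22 D (N 24 D D (N 36 (N 11 D D
  (N 0 D D D (N 20 D D (N 47 (N 21 D (N 38 D D D (N 10 D (N 46 D D D (N 49 (N 40 D D D (N 29 (N 6 D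
  D D (N 30 D D (N 27 D D D (N 44 (N 42 D D D (N 4 D D (N 31 D D (N 15 D (N 54 D (N 28 (N 50 D D D
  D) D D D) D D) D D) D) D)) D D D)) D)) (N 12 D D (N 15 D (N 56 D D (N 30 D D D (N 27 D D (N 53 (N
  28 D (N 42 (N 17 D (N 13 D D (N 31 D D D (N 43 (N 54 (N 39 D D D (N 16 D (N 5 (N 37 D D D (N 14 D
  (N 52 D (N 6 (N 4 D D D (N 50 D D D (N 32 D D (N 7 D D D D) D))) D D D) D D) D D)) D D D) D D)) D
  D D) D D D)) D) D D) D D D) D D) D D D) D)) D) D D) D) D D)) D D D)) D D)) D D) D D D) D)) (N 0 D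
  D (N 20 D D D (N 10 D (N 38 D D (N 47 (N 21 D (N 46 D D (N 40 D D (N 29 (N 5 D (N 6 D D D (N 30 D
  D (N 4 D D (N 31 D D (N 13 D (N 43 (N 16 D (N 14 D (N 12 D D D (N 15 D (N 42 (N 44 D D D (N 17 D D
  D D)) D D D) D D)) D D) D D) D D D) D D) D) D) D)) D D) (N 5 (N 56 D D D (N 30 D D (N 42 (N 27 D D
  D (N 44 D D D D)) D D D) D)) D D D) D D) D) D) D D) D D D) D) D D)) D)) D D (N 10 D (N 11 (N 40 D
  D (N 29 D (N 56 D D D (N 30 (N 42 D D (N 5 D D D (N 12 D D D D)) D) D (N 42 (N 47 (N 20 D D (N 13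
  D (N 17 D D D (N 0 D D D D)) D D) D) D D D) D D D) D)) (N 8 D D D (N 1 (N 18 D (N 15 D D (N 38 D D
  D (N 21 D (N 46 (N 20 D D (N 49 D D D (N 31 (N 6 D D D (N 4 (N 27 D D (N 30 (N 47 D D D D) D D D)
  D) D D D)) D D D)) D) D D D) D D)) (N 31 (N 43 D (N 16 (N 44 D D D D) D D D) D D) D D D)) D D) D D
  D)) D) D) D (N 38 D D D (N 0 D D D (N 40 (N 49 D D D (N 29 (N 31 D D (N 15 D (N 18 D D (N 45 D D D
  (N 43 (N 20 D D (N 47 (N 21 D (N 46 D D D D) D D) D D D) D) D D D)) D) D D) D) (N 12 D D (N 15 D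
  (N 43 (N 41 D D D (N 20 D D (N 47 (N 21 D (N 31 D D (N 39 D D D (N 16 D (N 56 D D D (N 30 D D (N
  27 (N 54 D D D D) D D D) D)) D D)) D) D D) D D D) D)) D D (N 41 (N 21 D (N 54 D D (N 27 (N 30 D D
  D (N 5 D D D D)) D D D) D) D D) D D D)) D D) D) D D)) D D D))) D) D D)) D) (N 24 D (N 10 D D (N 36
  (N 34 D D D (N 8 D (N 52 D D D (N 29 (N 30 (N 47 D (N 20 D D D (N 5 D (N 27 D D D (N 4 D (N 17 D D
  (N 44 (N 21 D D D (N 38 D D D D)) D D D) D) D D)) D D)) D D) D (N 54 D (N 45 D D D (N 38 D D D (N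
  11 D D (N 28 (N 6 D D D (N 31 D (N 43 (N 15 D D (N 4 D (N 17 D D (N 49 (N 21 D (N 48 (N 27 D D D
  (N 5 D (N 18 D D D D) D D)) D D D) D D) D D D) D) D D) D) D D D) D D)) D D D) D))) D D) D) D (N 11
  D D D (N 38 D (N 21 (N 47 D D D D) D D D) D D)) D)) D D)) D D (N 34 (N 52 (N 30 D D (N 11 (N 40 D
  (N 49 D D D (N 21 D (N 47 (N 20 D (N 56 D D D (N 38 D D D (N 54 D (N 29 D D (N 27 (N 28 (N 53 D (N
  5 D D D (N 12 D (N 15 D D (N 42 (N 13 D (N 44 D D D (N 17 D D (N 26 (N 16 D D (N 48 D D D (N 33 (N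
  43 D D D (N 25 D D D D)) D D D)) D) D D D) D)) D D) D D D) D) D D)) D D) D D D) D D D) D) D D))) D
  D) D D D) D D)) D D) D (N 29 (N 6 D D D (N 4 D (N 31 D (N 49 D D D (N 27 (N 26 (N 56 D D D (N 43
  (N 20 D (N 47 (N 21 D (N 48 D D D (N 5 D D D (N 28 (N 13 D (N 42 (N 45 D (N 18 D D (N 15 D D D (N
  38 D D D D)) D) D D) D D D) D D) D D D))) D D) D D D) D D) D D (N 15 D D (N 25 D D D D) D))) D D
  D) D D D)) D D) D D)) (N 54 D D D (N 45 (N 18 D D (N 38 D (N 15 D D D (N 43 D (N 28 (N 4 D D D (N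
  53 D D (N 44 (N 21 D D D (N 42 D (N 20 (N 47 D D D D) D D D) D D)) D D D) D)) D D D) D D)) D D) D)
  D D D)) D D) D) (N 11 (N 40 D (N 49 D D D (N 21 D (N 47 (N 20 D (N 5 (N 27 D (N 54 D D (N 29 D (N
  31 (N 43 D D D (N 17 D D (N 18 D D (N 15 D (N 7 D D D D) D D) D) D)) D D D) D D) D) D D) D D D) D
  D) D D D) D D)) D D) D (N 29 (N 5 D (N 27 (N 20 (N 6 D D (N 47 D (N 18 D D (N 44 D D D (N 15 D (N
  43 D D D (N 31 D D D D)) D D)) D) D D) D) D D D) D D D) D D) (N 5 (N 27 D (N 20 D (N 47 (N 49 D D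
  D (N 21 D (N 31 (N 43 D D D (N 17 D D (N 54 D D (N 18 D D (N 15 D (N 7 D D D D) D D) D) D) D)) D D
  D) D D)) D D D) D D) D D) D D D) D D) D)) D D D) D D D)) (N 8 D (N 29 (N 36 (N 20 D (N 5 D D D (N
  47 (N 30 D D (N 0 D D D (N 21 D (N 11 D D (N 38 D D D D) D) D D)) D) D D D)) D D) D (N 11 D D D (N
  0 D (N 21 (N 47 D (N 20 (N 38 D D (N 1 D D D (N 18 D (N 15 D D D (N 43 D (N 5 D D D (N 13 (N 30 D
  D (N 42 D (N 31 D D (N 45 D D D (N 48 D (N 54 D (N 27 (N 28 (N 17 D D (N 44 D D D D) D) D D D) D D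
  D) D D) D D)) D) D D) D) D D D)) D D)) D D)) D) D D D) D D) D D D) D D)) D) D (N 36 (N 11 D D D (N
  20 D (N 0 D D D D) D D)) D (N 11 (N 21 D (N 47 (N 20 D (N 38 D D (N 25 D D D (N 43 (N 15 D (N 31 D
  D D D) D D) D D D)) D) D D) D D D) D (N 6 (N 31 D (N 49 (N 0 D (N 20 (N 43 D D D (N 15 D D (N 17 D
  D (N 27 D (N 16 D D (N 53 (N 33 D D D D) D D D) D) D D) D) D)) D D D) D D) D D D) D D) D D D)) D D
  (N 0 D (N 21 (N 47 D (N 6 D D D (N 12 D D D (N 41 D (N 13 (N 43 D D D (N 30 D D (N 42 D (N 15 D D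
  (N 38 D D D D) D) D D) D)) D D D) D D))) D D) D D D) D D)) D) D) D D)) D D) D)) D D (N 51 (N 22 D
  (N 49 (N 21 D (N 24 D D (N 36 (N 10 D (N 27 D D (N 30 (N 6 D D D (N 4 (N 17 D (N 31 D D (N 29 D (N
  56 D D D D) D D) D) D D) D D D)) D D (N 6 (N 4 D D D (N 47 D D (N 20 D D D (N 38 (N 28 D (N 54 D D
  D D) D D) D D D)) D)) D D D)) (N 44 (N 30 (N 5 D (N 6 D D D (N 29 D D (N 31 D D D D) D)) D D) D (N
  42 D D D (N 13 D (N 17 D D (N 4 (N 47 D D D (N 20 D D (N 25 D D (N 15 D (N 0 D D D (N 11 D D (N 37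
  (N 14 D (N 6 D D D (N 29 D (N 54 (N 38 D D D D) D D D) D D)) D D) D D D) D)) D D) D) D)) D D D) D)
  D D)) D) D D D)) D D) D D (N 46 D D (N 20 (N 10 D (N 34 D D (N 8 (N 40 D D (N 11 (N 38 D D (N 47 D
  D D (N 52 D (N 1 D D D (N 29 D (N 5 D D D (N 27 D D (N 30 (N 56 D D D D) D D D) D)) D (N 5 D (N 31
  D D (N 6 (N 30 D D (N 4 D D (N 27 D D D (N 44 (N 42 D D D (N 15 D (N 43 D D D (N 16 D (N 17 D (N
  13 D D D D) D D) D D)) D D)) D D D)) D) D) D D D) D) D D))) D D)) D) D D D) D) D D D) D) D D) D D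
  D) D)) (N 52 D (N 36 (N 11 D D (N 38 (N 0 D D D (N 20 D D (N 10 D (N 47 D D D (N 46 D D D (N 29 D
  (N 40 D D D (N 30 (N 5 D D D (N 27 D D (N 28 D (N 44 (N 16 D (N 53 D D D (N 17 D (N 6 D D (N 31 D
  D D (N 43 (N 33 D D (N 54 D D D (N 41 D D (N 18 D D (N 45 D D D D) D) D)) D) D D D)) D) D D)) D D)
  D D D) D D) D)) D (N 27 D D D (N 54 D D D D)) D)) D D))) D D) D)) D D D) (N 0 D D (N 20 D D D (N
  47 D D (N 38 (N 46 D D (N 29 D (N 5 (N 12 D D D D) D D D) D D) D) D D D) D)) D)) D (N 46 D D D (N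
  20 (N 10 D (N 34 D D D (N 40 D D D (N 11 (N 38 D D (N 15 D (N 43 D D D (N 31 D D (N 29 D (N 5 D D
  D (N 27 D D (N 30 (N 6 D D D D) D D D) D)) D D) D)) D D) D) D D D))) D D) D D D)) D) D D)) D (N 47
  D D (N 0 D D (N 11 (N 38 D (N 1 (N 8 D D (N 10 (N 20 D D D (N 36 D D (N 24 D D D (N 52 D (N 46 D
  (N 29 D D D (N 18 D (N 5 (N 30 D D D (N 28 D D D (N 13 D (N 43 (N 17 D D D D) D D D) D D))) D D D)
  D D)) D D) D D)) D)) D D D) D) D D D) D D) D D D) D) D)) D D (N 21 (N 1 D D D (N 11 D D (N 38 D (N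
  0 D D D (N 40 (N 36 D D D (N 24 D D (N 10 (N 20 D D (N 8 D D (N 47 D D D (N 46 D (N 29 D D D (N 6
  D (N 31 D D (N 15 D D D (N 44 D (N 27 D D (N 17 D D D D) D) D D)) D) D D)) D D)) D) D) D D D) D))
  D D D)) D D) (N 0 D D (N 29 D (N 12 (N 5 D D D (N 20 (N 36 D D (N 46 D D D D) D) D D D)) D D D) (N
  8 (N 46 D (N 34 D D (N 36 (N 20 D D D (N 47 D D (N 18 D (N 15 D D D (N 44 D D (N 42 (N 30 D D D (N
  16 D (N 43 (N 25 D D D D) D D D) D D)) D D D) D)) D D) D)) D D D) D) D D) D D D) D) D))) (N 24 D D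
  (N 36 (N 10 D (N 46 D D (N 20 D D D (N 47 D D (N 38 (N 0 D D (N 11 D D D (N 29 D (N 5 (N 12 D D D
  D) D D D) D D)) D) D D D) D)) D) D D) D D (N 11 (N 38 D D (N 47 D D D (N 40 D D (N 30 (N 6 D D D
  (N 56 D (N 29 D D (N 4 (N 25 D D D D) D D D) D) D D)) D (N 15 D (N 43 (N 17 D (N 13 D D D D) D D)
  D D (N 14 D (N 27 (N 17 D (N 10 D (N 13 (N 42 D D D (N 44 D D D D)) D D D) D D) D D) (N 17 (N 45 D
  D (N 10 (N 8 D D (N 31 D D (N 18 (N 5 D D D (N 29 D (N 13 D (N 20 D D (N 19 D D D (N 39 D D (N 44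
  D D D (N 42 (N 56 D D D D) D D D)) D)) D) D D) D D)) D D D) D) D) D D D) D) D D D) D D) D D)) D (N
  42 (N 44 D D D D) D D D)) D) D)) D) D (N 38 (N 10 D (N 0 D D D (N 40 (N 29 D (N 56 D D (N 31 (N 6
  D D D (N 30 (N 42 D D D (N 27 D D (N 53 D D D (N 28 D (N 17 D (N 43 D D D (N 5 D D D (N 44 (N 16 D
  (N 4 (N 54 D D D (N 18 D D (N 15 D (N 13 D D (N 41 (N 2 D D D (N 45 (N 37 (N 39 (N 52 D (N 50 (N
  32 D D (N 7 D D D D) D) D D D) D D) D D D) D D D) D D D)) D D D) D) D D) D)) D D D) D D) D D D)))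
  D D) D D)) D)) D D D)) D D D) D) D (N 6 (N 4 D D (N 27 (N 5 D (N 44 D D D (N 31 D D (N 15 D (N 28
  D D D (N 37 D D D (N 17 D (N 13 D D (N 30 D D D (N 41 (N 43 D D D (N 42 (N 50 D D D D) D D D)) D D
  D)) D) D D))) D D) D)) D D) D D D) D) D D D)) D D D)) D D) D D D) D)) (N 36 (N 46 D D (N 20 D D D
  (N 47 D D (N 38 (N 0 D D (N 11 D D D (N 29 D (N 5 (N 12 D D D D) D D D) D D)) D) D D D) D)) D) D
  (N 46 (N 20 D D D (N 47 D D (N 38 (N 11 D D D (N 10 D (N 34 (N 8 D D (N 29 D (N 5 (N 30 D D D (N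
  27 D D (N 54 D D D D) D)) D D D) D D) D) D D D) D D)) D D D) D)) D D D) D)) D D)) (N 47 D (N 21 (N
  38 D D (N 11 D D D (N 0 D (N 29 D (N 8 (N 10 D (N 24 D D D (N 6 D D (N 34 D D D (N 15 D (N 44 D D
  (N 16 D (N 17 (N 43 D D D (N 45 D D D D)) D D D) D D) D) D D)) D)) D D) D D D) (N 12 (N 36 (N 10 D
  (N 24 D D D (N 6 D (N 20 D D D (N 5 D (N 18 D D D (N 15 D (N 43 (N 42 D D D (N 17 D D (N 13 D D D
  D) D)) D D D) D D)) D D)) D D)) D D) D (N 15 D (N 42 D D D (N 44 D D (N 17 (N 43 D D D (N 31 (N 10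
  D (N 27 D D D (N 53 D (N 4 D (N 5 D (N 49 D (N 40 D D D D) D D) D D) D D) D D)) D D) D D D)) D D
  D) D)) D (N 42 D (N 44 D D (N 17 (N 43 D (N 31 (N 56 D D D D) D D D) D D) D D D) D) D D)) D) D D
  D) D) D D)) D) D D (N 0 D (N 11 (N 38 D D (N 36 D D (N 15 D (N 43 (N 17 D D (N 44 (N 42 D D D (N
  18 D D D (N 20 D D D (N 13 D (N 41 D D (N 29 D (N 45 D D D D) D D) D) D D)))) D D D) D) D D (N 20
  (N 10 D (N 8 (N 24 D D D (N 14 D (N 46 D (N 49 (N 31 D D (N 29 D D D (N 5 D (N 18 (N 44 D D (N 27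
  D D D (N 16 D (N 17 (N 4 D (N 13 D (N 1 D D D D) D D) D D) D D D) D D)) D) D D D) D D)) D) D D D)
  D D) D D)) D D D) D D) D D D)) D (N 34 (N 49 D (N 8 D (N 10 (N 31 D D (N 29 D D D (N 54 D (N 45 (N
  43 D (N 17 D D (N 27 D D D (N 48 D (N 14 D D D (N 18 D (N 5 (N 30 D D (N 28 D D D (N 44 (N 42 D (N
  46 (N 55 D (N 37 D D (N 53 D (N 50 (N 56 (N 12 D D (N 7 D (N 32 D D D (N 16 D D (N 39 D D D D) D))
  D D) D) D D D) D D D) D D) D) D D) D D D) D D) D D D)) D) D D D) D D)) D D)) D) D D) D D D) D D))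
  D) D D D) D D) D D) D D D)) (N 24 D (N 10 (N 20 D D D D) D D D) D D)) D) D (N 38 (N 29 D (N 8 (N
  34 D D D (N 36 (N 54 D D (N 20 D D D (N 5 (N 30 D D D (N 27 D (N 49 (N 41 (N 43 D (N 15 D D (N 12
  D D D D) D) D D) D D D) D D D) D D)) D D D)) D) D D D)) D D D) D (N 36 (N 20 D D D (N 34 D D D (N
  43 (N 17 D D (N 45 D (N 48 (N 54 D D (N 18 D D (N 15 D (N 31 D D (N 10 D (N 44 (N 42 D D D (N 30
  (N 27 D D D (N 6 D (N 13 D D D D) D D)) D D D)) D D D) D D) D) D D) D) D) D D D) D D) D) (N 15 D D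
  (N 31 (N 45 (N 17 D D (N 13 D D D (N 48 D (N 49 D (N 52 D D D (N 24 D (N 44 (N 27 D D D (N 42 D (N
  16 D D (N 37 (N 6 D D (N 30 (N 5 D (N 18 D D D D) D D) D D D) D) D D D) D) D D)) D D D) D D)) D D)
  D D)) D) D D D) D D D) D) D D))) D D (N 24 D (N 10 D D (N 20 (N 5 D (N 28 D D D (N 34 (N 49 D (N
  31 (N 6 D D (N 7 D D D (N 30 (N 52 D D D D) D D D)) D) D D D) D D) D D D)) D D) D D D) D) D D))) D
  D D) D) D D)) D (N 30 (N 21 (N 11 D D (N 38 D (N 29 D (N 5 D D D (N 28 (N 4 D D D (N 8 (N 10 D D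
  (N 27 D (N 49 D D D (N 34 D D D D)) D D) D) D D D)) D D D)) D (N 5 D (N 20 (N 36 D D D (N 10 D D
  (N 27 D D D (N 49 D (N 52 D D D D) D D)) D)) D D D) D D)) D D) (N 0 D (N 20 (N 36 D D (N 10 D (N 8
  (N 24 D D D (N 34 D D D (N 49 D (N 52 D D D D) D D))) D D D) D D) D) D D D) D D)) (N 0 D D D (N 42
  D (N 56 D D (N 29 D (N 5 D D D (N 8 (N 34 D D D (N 15 D D (N 49 (N 54 D D (N 27 D (N 10 D D (N 36
  (N 18 D D D D) D D D) D) D D) D) D D D) D)) D D D)) D (N 5 D (N 20 (N 6 D D (N 13 D D D (N 43 D (N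
  36 D D (N 46 D D D D) D) D D)) D) D D D) D D)) D) D (N 15 D (N 7 D D D (N 5 D (N 20 (N 43 D D D (N
  29 D D (N 11 (N 31 (N 49 D D D (N 46 D D D D)) D D D) D D D) (N 6 D D (N 13 D (N 31 (N 49 D D D (N
  27 D D (N 10 D (N 53 D (N 54 D (N 44 (N 17 D D D D) D D D) D D) D D) D D) D)) D D D) D D) D))) D D
  D) D D)) (N 44 (N 38 (N 11 D D (N 25 (N 29 D (N 4 D D D (N 5 D D D (N 18 D D D D))) D (N 4 D (N 5
  D (N 18 D D D D) D D) D D)) D D D) D) D D D) D D D) D))) D D) D (N 21 (N 11 D D (N 38 D (N 29 D (N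
  8 (N 10 D D (N 6 D D D (N 4 (N 31 (N 56 D D D D) D D D) D D D)) D) D D D) D (N 54 (N 28 D D D (N
  45 D (N 6 D (N 4 (N 17 D D (N 24 D D D (N 36 (N 20 D (N 44 D (N 10 D D (N 31 (N 43 D D D (N 13 D D
  D D)) D D D) D) D D) D D) D D D)) D) D D D) D D) D D)) D D D)) D D) (N 0 D (N 20 (N 36 D D (N 10 D
  (N 8 (N 24 D D D (N 6 D (N 29 D D (N 12 (N 34 D D D (N 49 D (N 38 D D (N 15 D (N 43 D D D (N 42 D
  D D (N 44 D D (N 17 (N 13 D D D D) D D D) D))) D D) D) D D)) D D D) D) D D)) D D D) D D) D) D D D)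
  D D)) (N 0 D D D (N 11 (N 38 D D (N 36 D D (N 15 D (N 43 (N 20 D (N 10 (N 8 D (N 25 D D (N 29 D D
  D (N 5 (N 18 D D D D) D D D)) D) D D) D D D) D D) D D (N 14 D (N 10 (N 31 D D (N 8 D (N 29 D D D
  (N 18 (N 5 D (N 20 D D D D) D D) D D D)) D D) D) (N 8 (N 24 D D D (N 6 (N 31 D D (N 13 D (N 33 D D
  (N 20 (N 46 D D D (N 29 D (N 4 D D D (N 27 (N 49 D D D D) D D D)) D D)) D D D) D) D D) D) D D D))
  D D D) D D) D D)) D (N 34 (N 49 D D D (N 8 D (N 10 (N 27 D (N 54 D D D (N 29 D D (N 53 D D D (N 31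
  D (N 43 (N 25 D D D D) D D D) D D)) D)) D D) D D D) D D)) D D D)) (N 24 D (N 10 (N 8 D (N 20 D (N
  34 (N 49 D D D (N 27 D (N 54 D D D (N 29 D D (N 31 D (N 15 D D D (N 43 (N 25 D D D D) D D D)) D D)
  D)) D D)) D D D) D D) D D) D D D) D D)) D) D (N 38 (N 29 D (N 54 D D D (N 28 D (N 45 (N 8 (N 34 D
  D D D) D D D) D D D) D D)) D (N 54 D (N 28 D D D (N 45 (N 6 (N 4 D (N 17 D D (N 48 D D D (N 26 (N
  36 D D D (N 24 D (N 10 D D (N 31 D (N 43 D D D (N 15 D D (N 16 D D (N 18 D (N 5 (N 27 D D D (N 49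
  (N 34 D D D D) D D D)) D D D) D D) D) D)) D D) D) D D)) D D D)) D) D D) D D D) D D D)) D D)) D D
  D) D)) D D) D)) (N 49 (N 34 D D (N 36 (N 21 D (N 47 D D (N 20 D (N 10 D D (N 24 D (N 38 (N 0 D D
  (N 11 D D D (N 1 (N 8 D (N 29 D D (N 52 D D D (N 30 (N 5 D D D (N 27 D (N 4 (N 17 D D D D) D D D)
  D D)) D D D)) D) D D) D D D)) D) D D D) D D) D) D D) D) D (N 11 D D (N 0 D (N 20 D D (N 10 D (N 47
  D (N 24 D D (N 8 (N 38 (N 46 D (N 29 D D D (N 31 D D (N 54 D (N 28 D D D (N 1 D (N 18 D D (N 45 (N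
  17 D D (N 27 D D D (N 13 D D D (N 43 D (N 16 D D D (N 15 D D D (N 37 (N 33 D D (N 48 D (N 53 D (N
  14 D D D (N 26 D D (N 19 D D (N 40 D (N 56 (N 30 D D (N 42 D (N 55 (N 39 D D D D) D D D) D D) D) D
  D D) D D) D) D)) D D) D D) D) D D D))) D D))) D) D D D) D) D D)) D D) D)) D D) D D D) D D D) D) D
  D) D D) D) D D) D)) D D (N 52 D (N 24 D D (N 21 D (N 47 D D (N 38 (N 11 D D (N 0 D D D D) D) D D
  D) D) D (N 15 D (N 44 (N 42 D D (N 12 (N 18 D D (N 29 D (N 5 D D D (N 30 (N 6 D D D D) D D D)) D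
  (N 31 D D (N 5 D (N 7 (N 30 D D D (N 27 D D (N 17 D (N 53 D (N 4 (N 28 D D D (N 13 (N 43 D D D (N
  16 D (N 45 (N 8 (N 10 D (N 0 D D (N 11 (N 14 D (N 2 D D D D) D D) D D D) D) D D) D D D) D D D) D
  D)) D D D)) D D D) D D) D D) D)) D D D) D D) D)) D) D D D) D) D D D) D (N 43 (N 25 D D (N 47 D (N
  20 D D (N 0 D (N 17 D D (N 13 D (N 45 D (N 29 D D D (N 54 (N 6 (N 4 D (N 27 D D D (N 30 D D (N 42
  (N 28 D D D (N 56 D (N 40 D D D D) D D)) D D D) D)) D D) D D D) D D D)) D D) D D) D) D D) D) D D)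
  D) (N 31 D D (N 29 D (N 8 (N 16 D D D (N 10 D (N 6 (N 4 D D (N 27 D D D (N 30 D D (N 13 D D D D)
  D)) D) D D D) D D)) D D D) D (N 16 (N 20 D D (N 47 D (N 44 D (N 0 D (N 8 D (N 10 (N 38 D D (N 11
  (N 14 D D D (N 1 (N 13 D D (N 42 (N 30 D D D (N 27 D D (N 53 D (N 37 D D D D) D D) D)) D D D) D) D
  D D)) D D D) D) D D D) D D) D D) D D) D D) D) D D (N 5 (N 20 D D (N 47 D (N 0 D (N 12 D D (N 41 (N
  54 D (N 28 D D D (N 13 D D (N 30 D D D (N 27 D D (N 53 D (N 17 (N 4 D (N 45 D D (N 48 D (N 44 D (N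
  18 D D D D) D D) D D) D) D D) D D D) D D) D)) D)) D D) D D D) D) D D) D D) D) (N 7 (N 30 D D (N 27
  D D D (N 13 (N 42 D (N 17 D D (N 47 D (N 45 (N 0 D (N 55 (N 28 D D D (N 41 D D (N 48 D (N 18 D D
  (N 40 D (N 6 D (N 4 (N 2 D (N 19 D D (N 37 (N 11 D D (N 39 D D D D) D) D D D) D) D D) D D D) D D)
  D D) D) D D) D)) D D D) D D) D D D) D D) D) D D) D D D)) (N 27 D D (N 17 (N 53 D (N 4 D (N 13 D D
  (N 45 D D (N 41 (N 48 D (N 12 D D (N 0 D (N 44 D (N 42 (N 14 D D D (N 37 D D D D)) D D D) D D) D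
  D) D) D D) D D D) D) D) D D) D D) D D D) D)) D D D) D D))) D) D D))) D) D D)) D) (N 21 (N 1 D (N
  11 D D (N 38 D (N 47 D D (N 0 D (N 20 (N 36 D D D (N 10 D D (N 24 D (N 8 (N 52 (N 30 D D D (N 27
  (N 17 D D (N 4 D (N 29 D D D (N 31 (N 44 D D D (N 15 D D (N 34 D D D D) D)) D D D)) D D) D) D D
  D)) D D D) D D D) D D) D)) D D D) D D) D) D D) (N 29 D (N 36 (N 52 D D D (N 34 D D (N 8 (N 40 D D
  (N 56 (N 30 D D (N 42 D (N 15 D D D (N 44 D D (N 18 D D D D) D)) D D) D) D D D) D) D D D) D)) D (N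
  24 D (N 10 (N 20 D (N 47 D D (N 8 D D (N 38 D (N 0 D D (N 12 (N 5 D D D (N 30 (N 27 D D (N 4 (N 28
  D D D D) D D D) D) D D D)) D D D) D) D D) D) D) D D) D D D) D D) D) (N 8 (N 46 D D D (N 34 D D (N
  36 (N 18 D D D (N 15 D (N 44 D D (N 42 (N 12 D D D D) D D D) D) D D)) D D D) D)) D D D) D)) D D) D
  D (N 11 (N 40 D D (N 36 D D D (N 52 (N 30 D D (N 47 D (N 38 D D (N 15 D (N 42 (N 44 D D (N 13 D (N
  17 (N 43 D D D (N 27 D D D (N 6 (N 31 D D (N 12 D D (N 18 (N 1 D D D D) D D D) D) D) D D D))) D D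
  D) D D) D) D D D) D (N 43 (N 17 D (N 13 D D D D) D D) (N 17 (N 13 D D D D) D D D) D D)) D) D D) (N
  27 (N 5 D (N 17 D (N 4 D D (N 29 D D D (N 44 D D (N 18 (N 45 D D (N 54 D (N 38 D D (N 10 D (N 24 D
  D D D) D D) D) D D) D) D D D) D)) D) D D) D D) D (N 4 (N 17 D (N 44 (N 0 D D (N 2 D (N 14 D D D (N
  43 (N 20 D (N 10 (N 5 (N 45 D D (N 19 D D D D) D) D D D) D D D) D D) D D D)) D D) D) D D D) D D)
  (N 17 (N 44 D (N 24 D D (N 6 (N 2 (N 29 D D (N 31 D D D (N 43 D (N 45 D D D D) D D)) (N 31 D D (N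
  15 D D D (N 43 D (N 53 D (N 45 D D (N 37 D D D (N 14 D D D D)) D) D D) D D)) D)) D D D) D D D) D)
  D D) D D D) D D) D)) D D D)) D) D (N 0 D (N 40 (N 36 D D D (N 17 D D (N 52 (N 29 D (N 4 (N 27 D D
  D (N 30 D D (N 6 D D D D) D)) D D D) D (N 30 D D (N 47 D (N 38 (N 54 D (N 28 D D D (N 45 (N 56 D
  (N 42 (N 44 D (N 13 D (N 43 D D D (N 15 D D (N 12 D D D D) D)) D D) D D) D D D) D D) D D D)) D D)
  D D D) D D) (N 27 (N 44 D (N 4 D (N 5 D (N 24 D D (N 10 D (N 37 D D D (N 38 (N 28 D D D (N 6 (N 31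
  D D (N 15 D D D (N 13 D (N 43 (N 16 D D D (N 45 D (N 41 D D (N 54 D D D D) D) D D)) D D D) D D))
  D) D D D)) D D D)) D D) D) D D) D D) D D) D D D))) D D D) D)) D D D) D D) D)) D D)) (N 22 D D (N
  24 D D D (N 36 (N 34 D D D (N 52 D (N 49 (N 21 D (N 0 D D D (N 11 D D (N 20 D (N 10 D D (N 38 (N
  47 D D D (N 29 (N 5 D D D (N 27 D (N 4 D D D (N 28 D (N 6 D D (N 30 (N 7 D (N 15 D D (N 25 D D D
  D) D) D D) D D D) D) D D)) D D)) D D (N 5 (N 30 D D (N 31 D (N 15 D D (N 44 (N 16 D D (N 54 D (N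
  45 (N 43 D D D (N 13 D (N 42 D D D (N 28 D D D (N 48 D D D (N 27 D D D (N 55 (N 17 D D (N 26 D (N
  4 (N 6 D D D D) D D D) D D) D) D D D))))) D D)) D D D) D D) D) D D D) D) D D) D) D D D))) D D D)
  D) D D) D)) D (N 11 D D (N 47 (N 38 D (N 15 D D (N 10 D D (N 0 D (N 12 (N 29 D D D (N 25 D D D D))
  D D D) D D) D) D) D D) D D D) D)) D D D) D D)) D (N 11 (N 29 D D (N 21 D (N 38 D D (N 6 (N 0 D D D
  (N 30 D D (N 15 D (N 31 D D D (N 43 (N 49 (N 20 D (N 16 D D (N 44 (N 42 D D D (N 41 D D D (N 48 (N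
  10 (N 18 D D D (N 5 (N 7 D D D D) D D D)) D D D) D D D))) D D D) D) D D) D D D) D D D)) D (N 31 D
  (N 43 (N 25 D D D D) D D D) D D)) (N 13 D (N 42 (N 44 D D (N 17 (N 43 D D D (N 27 D (N 15 D (N 12
  D D D D) D D) D D)) D D D) D) D D D) D D))) D D D) D) D (N 47 (N 0 D (N 20 D D D (N 12 (N 5 D (N
  41 D (N 43 (N 17 D D (N 48 (N 13 D D D (N 30 D D (N 42 D (N 44 (N 27 D D D (N 53 (N 28 D D D (N 54
  (N 18 D D D (N 15 D D (N 14 D D D (N 56 (N 34 D D D (N 37 D D (N 50 (N 33 D (N 8 (N 10 D (N 38 D D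
  D D) D D) D D D) D D) D D D) D)) D D D)) D)) D D D)) D D D)) D D D) D D) D)) D D D) D) D D D) D D)
  D D) D D D)) D D) D D D)) (N 21 D (N 38 D D (N 0 D D D (N 46 (N 49 D D D (N 20 D (N 5 (N 10 (N 18
  D (N 15 D D D (N 43 (N 45 D D D D) D D D)) D D) D D D) D D D) D D)) D D D)) D) D (N 47 (N 0 D (N
  20 D D D (N 25 D D (N 30 D D (N 43 (N 17 D D (N 45 D (N 54 (N 48 (N 18 (N 44 D (N 15 D D D (N 34 D
  D D D)) D D) D D D) D D D) D D D) D D) D) (N 15 D D D (N 45 (N 54 D (N 17 D D (N 48 D (N 14 D D D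
  (N 18 D (N 5 (N 27 D D D (N 28 D D D (N 12 D D (N 7 D (N 44 (N 16 D D (N 39 D D D D) D) D D D) D
  D) D))) D D D) D D)) D D) D) D D) D D D)) D D) (N 43 (N 17 D D (N 13 D (N 42 (N 44 D (N 27 (N 15 D
  D D (N 16 D D (N 53 D D (N 49 D (N 10 D (N 4 D (N 5 D (N 45 D (N 48 (N 54 D D (N 38 D D D D) D) D
  D D) D D) D D) D D) D D) D D) D) D)) D D D) D D) D D D) D D) D) (N 15 D D D (N 13 (N 42 D (N 17 D
  D (N 45 (N 48 D (N 44 (N 27 D (N 16 D D (N 39 D D D D) D) D D) D D D) D D) D D D) D) D D) D D D))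
  D D)) D)) D D) D D D))) D D (N 0 D (N 21 (N 47 D D D (N 20 (N 10 D (N 8 (N 29 D D (N 6 D (N 12 (N
  34 D D D (N 49 D (N 38 D D (N 15 D (N 43 D D D (N 42 D D D (N 44 D D (N 17 (N 13 D D D D) D D D)
  D))) D D) D) D D)) D D D) D D) D) D D D) D D) D D D)) D D D) D D)) D)) (N 24 D D (N 36 (N 10 D (N
  20 D D (N 47 (N 38 D D (N 11 D D D (N 21 D (N 0 D D D D) D D)) D) D D D) D) D D) D D (N 11 (N 29 D
  D (N 21 D (N 49 (N 46 D D D D) D D D) D (N 4 (N 6 D (N 25 D D D (N 2 D (N 14 D D D (N 43 (N 31 D D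
  D (N 13 D D (N 17 D (N 45 D D D D) D D) D)) (N 15 D D (N 17 D D (N 41 (N 13 D D D D) D D D) D) D)
  D D)) D D)) D D) (N 6 (N 2 (N 30 D D (N 13 D (N 42 (N 44 D (N 47 (N 12 D (N 18 (N 1 D D D D) D D
  D) D D) D D D) D D) D D D) D D) (N 27 (N 17 D D (N 10 D (N 31 D D D (N 53 D D D (N 28 (N 44 D (N
  15 D D (N 38 D D D D) D) D D) D D D))) D D) D) D (N 17 (N 45 D (N 43 D D D (N 31 D (N 15 D D (N 10
  (N 49 (N 34 D D D D) D D D) D D D) D) D D)) D D) D D D) D)) D D D) D D D) D D)) (N 21 D (N 49 (N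
  38 D D (N 6 (N 47 (N 0 D D (N 20 D (N 5 (N 10 (N 12 D (N 15 D D D (N 43 (N 16 D D D (N 17 D (N 4 D
  D (N 25 D D D D) D) D D)) D D D)) D D) D D D) D D D) D D) D) D D D) D D D) D) D D D) D (N 5 (N 30
  D D (N 47 (N 7 D (N 25 D D (N 15 D D D (N 43 (N 13 D (N 42 (N 17 D D (N 31 D D (N 45 D (N 54 (N 44
  D (N 16 D D D (N 27 D D D (N 0 D (N 50 D (N 28 D D D (N 41 D D (N 12 D D D D) D)) D D) D D))) D D)
  D D D) D D) D) D) D D D) D D) (N 13 (N 42 D (N 17 D D (N 20 D D (N 45 (N 54 D (N 27 D D D (N 28 D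
  D D (N 37 D D (N 53 (N 33 D D (N 48 D (N 19 D (N 10 (N 31 D D (N 8 D (N 1 D D D D) D D) D) D D D)
  D D) D D) D) D D D) D))) D D) D D D) D) D) D D) D D D) D D)) D) D D) D D D) (N 27 D (N 10 (N 44 (N
  17 D D (N 4 (N 49 (N 34 D D (N 54 (N 45 D (N 8 D (N 16 D D D (N 43 (N 13 D (N 6 D D D D) D D) D D
  D)) D D) D D) D D D) D) D D D) D D D) D) D D D) D D D) (N 53 (N 17 (N 4 D (N 28 D D D (N 44 D (N
  18 D D (N 15 D D D (N 43 D (N 45 D D D D) D D)) D) D D)) D D) (N 4 (N 44 (N 25 D D (N 47 (N 0 D D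
  (N 20 D (N 16 D D D (N 43 (N 10 (N 13 D D (N 42 D (N 12 D D D D) D D) D) D D D) D D D)) D D) D) D
  D D) D) D D D) D D D) D D) D D D) D)) (N 10 (N 20 D D (N 47 (N 25 D D (N 0 D (N 30 D D (N 27 D D D
  (N 7 (N 15 D (N 42 (N 44 D D D D) D D D) D (N 43 (N 17 D D (N 13 D (N 42 (N 45 D (N 54 (N 28 D D D
  (N 19 D D (N 6 (N 56 D (N 40 D D D D) D D) D D D) D)) D D D) D D) D D D) D D) D) (N 13 (N 42 D (N
  17 D D (N 45 (N 54 D (N 31 D D (N 14 D D D (N 39 D D (N 48 D (N 50 (N 28 D D D (N 44 (N 16 D D D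
  (N 1 D (N 8 D D (N 37 D D (N 53 (N 33 D D D D) D D D) D) D) D D)) D D D)) D D D) D D) D)) D) D D)
  D D D) D) D D) D D D) D D)) D D D)) (N 27 D D (N 17 (N 53 (N 28 D D D (N 44 D (N 15 D D D (N 43 D
  (N 31 D D (N 13 D D (N 42 (N 45 D D (N 4 D (N 33 D D (N 41 (N 8 D (N 19 D (N 39 D D (N 54 D (N 26
  D D (N 14 D D D (N 37 D D D D)) D) D D) D) D D) D D) D D D) D) D D) D) D D D) D) D) D D)) D D)) D
  D D) D D D) D)) D D) D) D D D) D) (N 38 D D (N 47 (N 20 D D (N 25 D D (N 0 D (N 30 D D (N 7 (N 31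
  D D (N 42 (N 44 D (N 13 D (N 15 D D D (N 43 (N 16 D D D (N 17 D D (N 45 D (N 54 (N 28 D D D (N 27
  D D D (N 37 D D (N 53 (N 41 D D (N 12 D D D D) D) D D D) D))) D D D) D D) D)) D D D)) D D) D D) (N
  44 (N 17 D D (N 27 D D D (N 15 D D D (N 13 (N 43 D (N 16 D D D (N 45 (N 41 D D (N 48 D (N 14 D D D
  (N 50 (N 28 D D D (N 1 D (N 19 D D (N 37 D D D D) D) D D)) D D D)) D D) D) D D D)) D D) D D D)))
  D) D D D) D D) D) D D D) (N 15 D (N 44 (N 42 D D (N 17 D D (N 27 D D D D) D) D) D D D) D (N 43 (N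
  17 D D (N 27 (N 53 D D (N 49 D (N 40 D D D D) D D) D) D D D) D) (N 14 D D D (N 37 D D (N 27 (N 53
  D D D D) D D D) D)) D D))) D D) D) D) D D D) D) D D) D D))) D (N 0 D (N 29 (N 12 D D (N 15 D (N 42
  (N 44 D D D (N 21 (N 38 D D D D) D D D)) D D D) D (N 25 D D (N 4 D (N 47 (N 21 D D D (N 6 D D D
  D)) D D D) D D) D)) D) D D (N 21 (N 49 D (N 47 D D (N 20 (N 5 D (N 10 D (N 38 D D D D) D D) D D) D
  D D) D) D D) D D (N 5 (N 20 D D (N 47 (N 38 D (N 28 D D D (N 10 (N 12 D D (N 15 D D D (N 25 D D (N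
  30 D D (N 54 (N 41 D (N 43 (N 13 D D D D) D D D) D D) D D D) (N 43 (N 17 D D (N 27 D (N 49 (N 13 D
  (N 41 D D D D) D D) D D D) D D) D) (N 31 D D (N 41 (N 13 D D (N 17 (N 44 D (N 27 D D (N 54 D D D
  D) D) D D) D D D) D) D D D) D) D D)) D)) D) D D D)) D D) D D D) D) (N 17 (N 44 D (N 40 D (N 49 (N
  34 D D (N 15 D D D (N 43 D (N 13 D D (N 42 (N 30 D D D (N 31 D D (N 56 D D D D) D)) D D D) D) D
  D)) D) D D D) D D) D D) D (N 27 (N 10 D (N 53 D D (N 4 D (N 49 D (N 44 D (N 38 (N 47 D D (N 30 D D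
  D (N 28 D D D (N 20 (N 16 D D D (N 43 D (N 13 (N 6 D D D D) D D D) D D)) D D D))) D) D D D) D D) D
  D) D D) D) D D) D D (N 30 (N 13 D (N 6 D D D D) D D) D (N 47 (N 20 D D (N 38 D (N 54 (N 28 D D D
  (N 45 D (N 10 (N 37 D (N 42 (N 13 D (N 7 (N 44 D (N 41 D D (N 12 D D D D) D) D D) D D D) D D) D D
  D) D D) D D D) D D)) D D D) D D) D) D D D) D)) D) D D))) D D) D)) D)) D D))

set_option maxRecDepth 100000 in
theorem check_tree : check tree (1 <<< 3) (1 <<< 9) (1 <<< 23) 0 = true := by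
  decide +kernel

set_option maxRecDepth 100000 in
theorem small_tree : small tree = true := by
  decide +kernel

end R748.Oct
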