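import Mathlib
import Pool.Agent.R748.OctCert

/-! Soundness of the 4-colouring refutation used for MP_a2d1c1_co. -/

namespace R748.Oct
open T

/-- first coordinate of the vertex `i`. -/
def px (i : ℕ) : ℕ := (0x9999988888887777766666666555555554444433333333222211110000 >>> (4 * i)) % 16

/-- second coordinate of the vertex `i`. -/
def py (i : ℕ) : ℕ := (0x7654397654318642098765310986432109753198654320753186427653 >>> (4 * i)) % 16

/-- colour of the vertex `i` in a proper 5-colouring. -/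
def pc (i : ℕ) : ℕ := (0x3330013033001331100333111112211110422104220003120033001110 >>> (4 * i)) % 16

/-- the unit-distance relation between the vertices `i` and `j`. -/
def un (i j : ℕ) : Bool :=
  (Nat.ble ((px i - px j) + (px j - px i)) 4 &&
    (Nat.ble ((py i - py j) + (py j - py i)) 4 &&
      Nat.ble (((px i - px j) + (px j - px i)) + ((py i - py j) + (py j - py i))) 6)) &&
  (Nat.beq ((px i - px j) + (px j - px i)) 4 ||
    (Nat.beq ((py i - py j) + (py j - py i)) 4 ||
      Nat.beq (((px i - px j) + (px j - px i)) + ((py i - py j) + (py j - py i))) 6))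

theorem am_un : ∀ i : Fin 58, ∀ j : Fin 58, (am i.1).testBit j.1 = true → un i.1 j.1 = true := by
  decide +kernel

theorem am_lt : ∀ i : Fin 58, am i.1 < 2 ^ 58 := by
  decide +kernel

theorem un_pc : ∀ i : Fin 58, ∀ j : Fin 58, un i.1 j.1 = true → pc i.1 ≠ pc j.1 := by
  decide +kernel

theorem pc_lt : ∀ i : Fin 58, pc i.1 < 5 := by
  decide +kernel

theorem p_inj : ∀ i : Fin 58, ∀ j : Fin 58, px i.1 = px j.1 → py i.1 = py j.1 → i = j := by
  decide +kernel

theorem un_symm : ∀ i : Fin 58, ∀ j : Fin 58, un i.1 j.1 = true → un j.1 i.1 = true := by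
  decide +kernel

theorem un_irrefl : ∀ i : Fin 58, un i.1 i.1 = false := by
  decide +kernel

theorem tri1 : un 3 9 = true := by decide +kernel
theorem tri2 : un 3 23 = true := by decide +kernel
theorem tri3 : un 9 23 = true := by decide +kernel

theorem exists_bit {v m : ℕ} (hv : v < 58) (h : Nat.beq (am v &&& m) 0 = false) :
    ∃ u : Fin 58, un v u.1 = true ∧ m.testBit u.1 = true := by
  have h0 : am v &&& m ≠ 0 := by
    intro h1
    rw [h1] at h
    exact absurd h (by decide)
  obtain ⟨u, hu⟩ := Nat.exists_testBit_of_ne_zero h0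
  rw [Nat.testBit_land, Bool.and_eq_true] at hu
  have hu58 : u < 58 := by
    by_contra hcon
    have h1 : am v < 2 ^ u := lt_of_lt_of_le (am_lt ⟨v, hv⟩)
      (Nat.pow_le_pow_right (by norm_num) (by omega))
    have h2 := Nat.testBit_lt_two_pow h1
    rw [hu.1] at h2
    exact absurd h2 (by decide)
  exact ⟨⟨u, hu58⟩, am_un ⟨v, hv⟩ ⟨u, hu58⟩ hu.1, hu.2⟩

theorem step {v : ℕ} (hv : v < 58) {col : Fin 58 → Fin 4}
    (hcol : ∀ i j : Fin 58, un i.1 j.1 = true → col i ≠ col j) {m : ℕ} {c : Fin 4}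
    (hm : ∀ u : Fin 58, m.testBit u.1 = true → col u = c) (hc : col ⟨v, hv⟩ = c) {b : Bool}
    (h : (!(Nat.beq (am v &&& m) 0) || b) = true) :
    b = true ∧ (∀ u : Fin 58, (m ||| 1 <<< v).testBit u.1 = true → col u = c) := by
  rw [Bool.or_eq_true] at h
  constructor
  · rcases h with h | h
    · exfalso
      rw [Bool.not_eq_true'] at h
      obtain ⟨u, hu1, hu2⟩ := exists_bit hv h
      exact hcol ⟨v, hv⟩ u hu1 (by rw [hc, hm u hu2])
    · exact h
  · intro u hu
    rw [Nat.testBit_lor, Bool.or_eq_true] at hu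
    rcases hu with hu | hu
    · exact hm u hu
    · rw [Nat.one_shiftLeft, Nat.testBit_two_pow] at hu
      have : v = u.1 := by simpa using hu
      have hu' : u = ⟨v, hv⟩ := Fin.ext this.symm
      rw [hu', hc]

theorem sound (col : Fin 58 → Fin 4)
    (hcol : ∀ i j : Fin 58, un i.1 j.1 = true → col i ≠ col j) :
    ∀ (t : T) (m0 m1 m2 m3 : ℕ), small t = true →
      (∀ u : Fin 58, m0.testBit u.1 = true → col u = 0) →
      (∀ u : Fin 58, m1.testBit u.1 = true → col u = 1) →
      (∀ u : Fin 58, m2.testBit u.1 = true → col u = 2) →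
      (∀ u : Fin 58, m3.testBit u.1 = true → col u = 3) →
      check t m0 m1 m2 m3 = true → False := by
  intro t
  induction t with
  | D => intro m0 m1 m2 m3 _ _ _ _ _ h; simp [check] at h
  | N v t0 t1 t2 t3 ih0 ih1 ih2 ih3 =>
    intro m0 m1 m2 m3 hs h0 h1 h2 h3 h
    simp only [small, Bool.and_eq_true] at hs
    obtain ⟨hv, hs0, hs1, hs2, hs3⟩ := hs
    have hv : v < 58 := by simpa using hv
    rw [check, Bool.and_eq_true, Bool.and_eq_true, Bool.and_eq_true] at h
    obtain ⟨k0, k1, k2, k3⟩ := h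
    have hcases : col ⟨v, hv⟩ = 0 ∨ col ⟨v, hv⟩ = 1 ∨ col ⟨v, hv⟩ = 2 ∨ col ⟨v, hv⟩ = 3 := by
      generalize col ⟨v, hv⟩ = c
      revert c
      decide
    rcases hcases with hc | hc | hc | hc
    · obtain ⟨hb, hm⟩ := step hv hcol h0 hc k0
      exact ih0 _ _ _ _ hs0 hm h1 h2 h3 hb
    · obtain ⟨hb, hm⟩ := step hv hcol h1 hc k1
      exact ih1 _ _ _ _ hs1 h0 hm h2 h3 hb
    · obtain ⟨hb, hm⟩ := step hv hcol h2 hc k2
      exact ih2 _ _ _ _ hs2 h0 h1 hm h3 hb
    · obtain ⟨hb, hm⟩ := step hv hcol h3 hc k3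
      exact ih3 _ _ _ _ hs3 h0 h1 h2 hm hb

theorem perm_exists : ∀ a b c : Fin 4, a ≠ b → a ≠ c → b ≠ c →
    ∃ σ : Equiv.Perm (Fin 4), σ a = 0 ∧ σ b = 1 ∧ σ c = 2 := by
  decide

theorem no_col (col : Fin 58 → Fin 4)
    (hcol : ∀ i j : Fin 58, un i.1 j.1 = true → col i ≠ col j) : False := by
  obtain ⟨σ, h0, h1, h2⟩ := perm_exists (col 3) (col 9) (col 23) (hcol 3 9 tri1)
    (hcol 3 23 tri2) (hcol 9 23 tri3)
  refine sound (fun i => σ (col i)) (fun i j hij h => hcol i j hij (σ.injective h)) tree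
    (1 <<< 3) (1 <<< 9) (1 <<< 23) 0 small_tree ?_ ?_ ?_ ?_ check_tree
  · intro u hu
    rw [Nat.one_shiftLeft, Nat.testBit_two_pow] at hu
    have : 3 = u.1 := by simpa using hu
    have hu' : u = 3 := Fin.ext this.symm
    rw [hu']; exact h0
  · intro u hu
    rw [Nat.one_shiftLeft, Nat.testBit_two_pow] at hu
    have : 9 = u.1 := by simpa using hu
    have hu' : u = 9 := Fin.ext this.symm
    rw [hu']; exact h1
  · intro u hu
    rw [Nat.one_shiftLeft, Nat.testBit_two_pow] at hu
    have : 23 = u.1 := by simpa using hu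
    have hu' : u = 23 := Fin.ext this.symm
    rw [hu']; exact h2
  · intro u hu
    simp at hu

end R748.Oct
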