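import Pool.Agent.R748.RevDefs

set_option autoImplicit false

namespace Pool.Agent.R748.Rev

open Real Set MeasureTheory Filter Topology
open scoped ContDiff

/-- `r` as a function of the angle `α` -/
noncomputable def rc (a : ℝ) : ℝ := a - (1/5) * sin (2*a) + (1/20) * sin (4*a)

noncomputable def rcd (a : ℝ) : ℝ := 1 - (2/5) * cos (2*a) + (1/5) * cos (4*a)

theorem rcd_eq (a : ℝ) : rcd a = (4/5) * (1 - sin a ^ 2 + 2 * (sin a ^ 2)^2) := by
  have h4 : cos (4*a) = 2 * cos (2*a)^2 - 1 := by
    rw [show (4:ℝ)*a = 2*(2*a) by ring, cos_two_mul]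
  have h2 : cos (2*a) = 1 - 2 * sin a ^ 2 := by
    rw [cos_two_mul, cos_sq']; ring
  unfold rcd
  rw [h4, h2]; ring

theorem rcd_pos (a : ℝ) : 0 < rcd a := by
  rw [rcd_eq]
  nlinarith [sq_nonneg (sin a ^ 2 - 1/4)]

theorem hasDerivAt_rc (a : ℝ) : HasDerivAt rc (rcd a) a := by
  have h1 : HasDerivAt (fun a : ℝ => sin (2*a)) (cos (2*a) * 2) a := by
    have := ((hasDerivAt_id a).const_mul 2).sin
    simpa using this
  have h2 : HasDerivAt (fun a : ℝ => sin (4*a)) (cos (4*a) * 4) a := by
    have := ((hasDerivAt_id a).const_mul 4).sin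
    simpa using this
  have h := ((hasDerivAt_id a).sub (h1.const_mul (1/5))).add (h2.const_mul (1/20))
  have e : rcd a = 1 - 1/5 * (cos (2*a) * 2) + 1/20 * (cos (4*a) * 4) := by
    unfold rcd; ring
  rw [e]
  exact h

theorem continuous_rc : Continuous rc := by unfold rc; fun_prop

theorem contDiff_rc : ContDiff ℝ ∞ rc := by unfold rc; fun_prop

theorem strictMono_rc : StrictMono rc := by
  apply strictMono_of_deriv_pos
  intro a
  rw [(hasDerivAt_rc a).deriv]
  exact rcd_pos a

theorem surj_rc : Function.Surjective rc := by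
  apply continuous_rc.surjective
  · apply tendsto_atTop_mono (f := fun a : ℝ => a - 1/4)
    · intro a
      unfold rc
      nlinarith [sin_le_one (2*a), neg_one_le_sin (4*a)]
    · exact tendsto_atTop_add_const_right _ _ tendsto_id
  · apply tendsto_atBot_mono (f := fun a : ℝ => a + 1/4)
    · intro a
      unfold rc
      nlinarith [neg_one_le_sin (2*a), sin_le_one (4*a)]
    · exact tendsto_atBot_add_const_right _ _ tendsto_id

noncomputable def rcHom : ℝ ≃ₜ ℝ := (StrictMono.orderIsoOfSurjective rc strictMono_rc surj_rc).toHomeomorph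

noncomputable def al : ℝ → ℝ := rcHom.symm

theorem rc_al (r : ℝ) : rc (al r) = r := rcHom.apply_symm_apply r
theorem al_rc (a : ℝ) : al (rc a) = a := rcHom.symm_apply_apply a

theorem contDiff_al : ContDiff ℝ ∞ al :=
  Homeomorph.contDiff_symm_deriv rcHom (f' := rcd) (fun x => (rcd_pos x).ne') hasDerivAt_rc contDiff_rc

theorem hasDerivAt_al (r : ℝ) : HasDerivAt al (rcd (al r))⁻¹ r := by
  have h := (hasDerivAt_rc (al r)).of_local_left_inverse (g := al) (a := r)
    (contDiff_al.continuous.continuousAt) (rcd_pos _).ne' (Eventually.of_forall rc_al)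
  exact h

theorem strictMono_al : StrictMono al := by
  intro x y h
  by_contra hc
  have := strictMono_rc.monotone (not_lt.1 hc)
  rw [rc_al, rc_al] at this
  linarith

theorem rc_neg (a : ℝ) : rc (-a) = - rc a := by
  unfold rc
  rw [show 2 * -a = -(2*a) by ring, show 4 * -a = -(4*a) by ring, sin_neg, sin_neg]; ring

theorem rc_pi_sub (a : ℝ) : rc (π - a) = π - rc a := by
  unfold rc
  have h1 : sin (2 * (π - a)) = - sin (2*a) := by
    rw [show 2 * (π - a) = 2*π - 2*a by ring, sin_two_pi_sub]
  have h2 : sin (4 * (π - a)) = - sin (4*a) := by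
    rw [show 4 * (π - a) = (2*π - 4*a) + 2*π by ring, sin_add_two_pi, sin_two_pi_sub]
  rw [h1, h2]; ring

theorem rc_zero : rc 0 = 0 := by unfold rc; simp
theorem rc_pi_div_two : rc (π/2) = π/2 := by
  unfold rc
  rw [show 2 * (π/2) = π by ring, show 4 * (π/2) = 2 * π by ring, sin_pi, sin_two_pi]; ring
theorem rc_pi : rc π = π := by
  have := rc_pi_sub 0
  rw [rc_zero] at this
  simpa using this

theorem al_neg (r : ℝ) : al (-r) = - al r := by
  apply strictMono_rc.injective
  rw [rc_al, rc_neg, rc_al]
theorem al_pi_sub (r : ℝ) : al (π - r) = π - al r := by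
  apply strictMono_rc.injective
  rw [rc_al, rc_pi_sub, rc_al]
theorem al_zero : al 0 = 0 := by
  have := al_rc 0
  rwa [rc_zero] at this
theorem al_pi_div_two : al (π/2) = π/2 := by
  have := al_rc (π/2)
  rwa [rc_pi_div_two] at this
theorem al_pi : al π = π := by
  have := al_rc π
  rwa [rc_pi] at this

/-- the profile -/
noncomputable def mm (r : ℝ) : ℝ := (4/5) * sin (al r)

theorem hasDerivAt_mm (r : ℝ) : HasDerivAt mm ((4/5) * (cos (al r) * (rcd (al r))⁻¹)) r :=
  ((hasDerivAt_al r).sin).const_mul (4/5)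

theorem mm_pi_div_two : mm (π/2) = 4/5 := by
  unfold mm
  rw [al_pi_div_two, sin_pi_div_two]; ring

theorem isProfile_mm : IsProfile mm where
  smooth := by
    unfold mm
    exact contDiff_const.mul (contDiff_sin.comp contDiff_al)
  odd := by
    intro r
    unfold mm
    rw [al_neg, sin_neg]; ring
  deriv_zero := by
    rw [(hasDerivAt_mm 0).deriv, al_zero, cos_zero, rcd_eq, sin_zero]
    norm_num
  symm := by
    intro r
    unfold mm
    rw [al_pi_sub, sin_pi_sub]
  pos := by
    intro r hr
    unfold mm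
    have h1 := strictMono_al hr.1
    have h2 := strictMono_al hr.2
    rw [al_zero] at h1
    rw [al_pi] at h2
    have := sin_pos_of_pos_of_lt_pi h1 h2
    positivity
  deriv_pos := by
    intro r hr
    rw [(hasDerivAt_mm r).deriv]
    have h1 := strictMono_al hr.1
    have h2 := strictMono_al hr.2
    rw [al_zero] at h1
    rw [al_pi_div_two] at h2
    have := cos_pos_of_mem_Ioo ⟨by linarith [pi_pos], h2⟩
    have := rcd_pos (al r)
    positivity

end Pool.Agent.R748.Rev
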