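import Pool.Agent.R748.Rev1

set_option autoImplicit false

namespace Pool.Agent.R748.Rev

open Real Set MeasureTheory Filter Topology
open scoped ContDiff

/-- antiderivative for the half period -/
noncomputable def GG (b : ℝ) (a : ℝ) : ℝ :=
  arccos (tan b * (cos a / sin a)) -
    sin b * (sin b ^ 2 * arcsin (cos a / cos b) + cos a * √(cos b ^ 2 - cos a ^ 2))

theorem hasDerivAt_GG {b a : ℝ} (hb : 0 < b) (hba : b < a) (ha : a ≤ π / 2) :
    HasDerivAt (GG b)
      (sin b * (1 - sin a ^ 2 + 2 * (sin a ^ 2)^2) / (sin a * √(sin a ^ 2 - sin b ^ 2))) a := by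
  have hpi := pi_pos
  have hsb : 0 < sin b := sin_pos_of_pos_of_lt_pi hb (by linarith)
  have hcb : 0 < cos b := cos_pos_of_mem_Ioo ⟨by linarith, by linarith⟩
  have hsa : 0 < sin a := sin_pos_of_pos_of_lt_pi (by linarith) (by linarith)
  have hca : 0 ≤ cos a := cos_nonneg_of_mem_Icc ⟨by linarith, by linarith⟩
  have hcc : cos a < cos b := cos_lt_cos_of_nonneg_of_le_pi_div_two hb.le ha hba
  have hb2 : cos b ^ 2 = 1 - sin b ^ 2 := by rw [cos_sq']
  have ha2 : cos a ^ 2 = 1 - sin a ^ 2 := by rw [cos_sq']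
  have hd : 0 < cos b ^ 2 - cos a ^ 2 := by nlinarith
  have hdd : cos b ^ 2 - cos a ^ 2 = sin a ^ 2 - sin b ^ 2 := by rw [hb2, ha2]; ring
  set D := √(sin a ^ 2 - sin b ^ 2) with hD
  have hDpos : 0 < D := Real.sqrt_pos.2 (hdd ▸ hd)
  have hDsq : D ^ 2 = sin a ^ 2 - sin b ^ 2 := Real.sq_sqrt (hdd ▸ hd).le
  -- first term
  have hw : HasDerivAt (fun a => tan b * (cos a / sin a)) (tan b * (-1 / sin a ^ 2)) a := by
    have h := ((hasDerivAt_cos a).div (hasDerivAt_sin a) hsa.ne').const_mul (tan b)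
    have e : (-sin a * sin a - cos a * cos a) / sin a ^ 2 = -1 / sin a ^ 2 := by
      have : -sin a * sin a - cos a * cos a = -1 := by nlinarith [sin_sq_add_cos_sq a]
      rw [this]
    rw [e] at h
    exact h
  have hW : tan b * (cos a / sin a) = (sin b * cos a) / (cos b * sin a) := by
    rw [tan_eq_sin_div_cos]; field_simp
  have hW1 : 1 - (tan b * (cos a / sin a)) ^ 2 = (D / (cos b * sin a)) ^ 2 := by
    rw [hW, div_pow, div_pow, hDsq]
    field_simp
    rw [hb2, ha2]; ring
  have hWsq : √(1 - (tan b * (cos a / sin a)) ^ 2) = D / (cos b * sin a) := by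
    rw [hW1]
    exact Real.sqrt_sq (by positivity)
  have hWlt : tan b * (cos a / sin a) < 1 := by
    have h1 : (tan b * (cos a / sin a)) ^ 2 < 1 := by
      have : 0 < (D / (cos b * sin a)) ^ 2 := by positivity
      linarith
    nlinarith
  have hWge : 0 ≤ tan b * (cos a / sin a) := by
    rw [hW]; positivity
  have h1 := (hasDerivAt_arccos (x := tan b * (cos a / sin a)) (by linarith) (by linarith)).comp a hw
  have h1' : HasDerivAt (fun a => arccos (tan b * (cos a / sin a))) (sin b / (sin a * D)) a := by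
    refine HasDerivAt.congr_deriv h1 ?_
    rw [hWsq, tan_eq_sin_div_cos]
    field_simp
  -- second term
  have hv : HasDerivAt (fun a => cos a / cos b) (-sin a / cos b) a := (hasDerivAt_cos a).div_const _
  have hV1 : 1 - (cos a / cos b) ^ 2 = (D / cos b) ^ 2 := by
    rw [div_pow, div_pow, hDsq, ← hdd]
    field_simp
  have hVsq : √(1 - (cos a / cos b) ^ 2) = D / cos b := by
    rw [hV1]
    exact Real.sqrt_sq (by positivity)
  have hVlt : cos a / cos b < 1 := by rw [div_lt_one hcb]; exact hcc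
  have hVge : 0 ≤ cos a / cos b := by positivity
  have h2 := (hasDerivAt_arcsin (x := cos a / cos b) (by linarith) (by linarith)).comp a hv
  have h2' : HasDerivAt (fun a => arcsin (cos a / cos b)) (-sin a / D) a := by
    refine HasDerivAt.congr_deriv h2 ?_
    rw [hVsq]
    field_simp
  -- third term
  have h3 : HasDerivAt (fun a => √(cos b ^ 2 - cos a ^ 2)) (sin a * cos a / D) a := by
    have h0 : HasDerivAt (fun a => cos b ^ 2 - cos a ^ 2) (-(2 * cos a * -sin a)) a := by
      have := ((hasDerivAt_cos a).fun_pow 2).const_sub (cos b ^ 2)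
      simpa using this
    refine HasDerivAt.congr_deriv (h0.sqrt hd.ne') ?_
    rw [hdd, ← hD]
    field_simp
  have h4 := h1'.sub (((h2'.const_mul (sin b ^ 2)).add ((hasDerivAt_cos a).mul h3)).const_mul (sin b))
  refine HasDerivAt.congr_deriv h4 ?_
  rw [show √(cos b ^ 2 - cos a ^ 2) = D by rw [hdd]]
  field_simp
  have : cos a ^ 2 = 1 - sin a ^ 2 := ha2
  rw [hDsq, ha2]
  ring

theorem continuousOn_GG {b : ℝ} (hb : 0 < b) (hb2 : b < π / 2) :
    ContinuousOn (GG b) (Icc b (π / 2)) := by
  unfold GG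
  have hcb : 0 < cos b := cos_pos_of_mem_Ioo ⟨by linarith, by linarith⟩
  apply ContinuousOn.sub
  · apply continuous_arccos.comp_continuousOn
    apply continuousOn_const.mul
    apply continuous_cos.continuousOn.div continuous_sin.continuousOn
    intro x hx
    exact (sin_pos_of_pos_of_lt_pi (by linarith [hx.1]) (by linarith [hx.2, pi_pos])).ne'
  · apply Continuous.continuousOn
    have h1 : Continuous fun a : ℝ => arcsin (cos a / cos b) :=
      continuous_arcsin.comp (continuous_cos.div_const _)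
    have h2 : Continuous fun a : ℝ => √(cos b ^ 2 - cos a ^ 2) := by fun_prop
    fun_prop

theorem GG_left {b : ℝ} (hb : 0 < b) (hb2 : b < π / 2) : GG b b = -(sin b ^ 3 * (π / 2)) := by
  have hcb : 0 < cos b := cos_pos_of_mem_Ioo ⟨by linarith, by linarith⟩
  have hsb : 0 < sin b := sin_pos_of_pos_of_lt_pi hb (by linarith)
  unfold GG
  have e1 : tan b * (cos b / sin b) = 1 := by
    rw [tan_eq_sin_div_cos]; field_simp
  rw [e1, div_self hcb.ne', arccos_one, arcsin_one, sub_self, Real.sqrt_zero]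
  ring

theorem GG_right {b : ℝ} : GG b (π / 2) = π / 2 := by
  unfold GG
  simp [cos_pi_div_two]

theorem minv_mm {b : ℝ} (hb : 0 < b) (hb2 : b < π / 2) : minv mm ((4/5) * sin b) = rc b := by
  have hmem : rc b ∈ Icc 0 (π / 2) := by
    constructor
    · rw [← rc_zero]; exact (strictMono_rc hb).le
    · rw [← rc_pi_div_two]; exact (strictMono_rc hb2).le
  have hval : mm (rc b) = (4/5) * sin b := by unfold mm; rw [al_rc]
  have hex : ∃ a ∈ Icc 0 (π / 2), mm a = (4/5) * sin b := ⟨_, hmem, hval⟩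
  have h1 := Function.invFunOn_mem hex
  have h2 := Function.invFunOn_eq hex
  -- injectivity
  have key : ∀ x ∈ Icc (0:ℝ) (π / 2), ∀ y ∈ Icc (0:ℝ) (π / 2), mm x = mm y → x = y := by
    intro x hx y hy h
    unfold mm at h
    have h' : sin (al x) = sin (al y) := by linarith
    have a1 : 0 ≤ al x := by rw [← al_zero]; exact strictMono_al.monotone hx.1
    have a2 : al x ≤ π / 2 := by
      have := strictMono_al.monotone hx.2
      rwa [al_pi_div_two] at this
    have b1 : 0 ≤ al y := by rw [← al_zero]; exact strictMono_al.monotone hy.1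
    have b2 : al y ≤ π / 2 := by
      have := strictMono_al.monotone hy.2
      rwa [al_pi_div_two] at this
    have := injOn_sin ⟨by linarith [pi_pos], a2⟩ ⟨by linarith [pi_pos], b2⟩ h'
    exact strictMono_al.injective this
  exact key _ h1 _ hmem (h2.trans hval.symm)

theorem halfPeriod_sin {b : ℝ} (hb : 0 < b) (hb2 : b < π / 2) :
    halfPeriod mm ((4/5) * sin b) = π * (1 + sin b ^ 3) := by
  have hpi := pi_pos
  have hsb : 0 < sin b := sin_pos_of_pos_of_lt_pi hb (by linarith)
  have hle : rc b ≤ π / 2 := by rw [← rc_pi_div_two]; exact (strictMono_rc hb2).le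
  have hcont : ContinuousOn (fun x => GG b (al x)) (Icc (rc b) (π / 2)) := by
    apply (continuousOn_GG hb hb2).comp contDiff_al.continuous.continuousOn
    intro x hx
    have h1 := strictMono_al.monotone hx.1
    have h2 := strictMono_al.monotone hx.2
    rw [al_rc] at h1
    rw [al_pi_div_two] at h2
    exact ⟨h1, h2⟩
  have hder : ∀ x ∈ Ioo (rc b) (π / 2), HasDerivAt (fun x => GG b (al x))
      ((4/5) * sin b / (mm x * √(mm x ^ 2 - ((4/5) * sin b) ^ 2))) x := by
    intro x hx
    have h1 := strictMono_al hx.1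
    have h2 := strictMono_al hx.2
    rw [al_rc] at h1
    rw [al_pi_div_two] at h2
    have h := (hasDerivAt_GG hb h1 h2.le).comp x (hasDerivAt_al x)
    refine HasDerivAt.congr_deriv h ?_
    have hsa : 0 < sin (al x) := sin_pos_of_pos_of_lt_pi (by linarith) (by linarith)
    have hss : sin b < sin (al x) := sin_lt_sin_of_lt_of_le_pi_div_two (by linarith) h2.le h1
    have hD : 0 < √(sin (al x) ^ 2 - sin b ^ 2) := Real.sqrt_pos.2 (by nlinarith)
    have e1 : √(mm x ^ 2 - ((4/5) * sin b) ^ 2) = (4/5) * √(sin (al x) ^ 2 - sin b ^ 2) := by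
      unfold mm
      rw [show ((4/5) * sin (al x)) ^ 2 - ((4/5) * sin b) ^ 2 =
        (4/5)^2 * (sin (al x) ^ 2 - sin b ^ 2) by ring, Real.sqrt_mul (by positivity),
        Real.sqrt_sq (by norm_num)]
    have e2 := rcd_eq (al x)
    have e3 := rcd_pos (al x)
    rw [e1, e2]
    rw [e2] at e3
    have e4 : 0 < 1 - sin (al x) ^ 2 + 2 * (sin (al x) ^ 2) ^ 2 := by linarith
    unfold mm
    generalize 1 - sin (al x) ^ 2 + 2 * (sin (al x) ^ 2) ^ 2 = q at e4
    have e5 : q ≠ 0 := e4.ne'
    field_simp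
  have hint : IntervalIntegrable
      (fun x => (4/5) * sin b / (mm x * √(mm x ^ 2 - ((4/5) * sin b) ^ 2))) volume (rc b) (π / 2) := by
    rw [intervalIntegrable_iff_integrableOn_Ioc_of_le hle]
    apply intervalIntegral.integrableOn_deriv_of_nonneg hcont hder
    intro x hx
    have h1 := strictMono_al hx.1
    have h2 := strictMono_al hx.2
    rw [al_rc] at h1
    rw [al_pi_div_two] at h2
    have hsa : 0 < sin (al x) := sin_pos_of_pos_of_lt_pi (by linarith) (by linarith)
    have : 0 < mm x := by unfold mm; positivity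
    positivity
  have h := intervalIntegral.integral_eq_sub_of_hasDerivAt_of_le hle hcont hder hint
  unfold halfPeriod
  rw [minv_mm hb hb2, h, al_rc, al_pi_div_two, GG_left hb hb2, GG_right]
  ring

theorem halfPeriod_eq {ν : ℝ} (hν : ν ∈ Ioo 0 (mm (π / 2))) :
    halfPeriod mm ν = π * (1 + (ν / mm (π / 2)) ^ 3) := by
  rw [mm_pi_div_two] at hν ⊢
  have h1 : -1 ≤ 5/4 * ν := by linarith [hν.1]
  have h2 : 5/4 * ν ≤ 1 := by linarith [hν.2]
  have h3 := sin_arcsin h1 h2
  have h4 : 0 < arcsin (5/4 * ν) := arcsin_pos.2 (by linarith [hν.1])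
  have h5 : arcsin (5/4 * ν) < π / 2 := arcsin_lt_pi_div_two.2 (by linarith [hν.2])
  have h := halfPeriod_sin h4 h5
  rw [h3] at h
  rw [show (4:ℝ)/5 * (5/4 * ν) = ν by ring] at h
  rw [h, show ν / (4/5) = 5/4 * ν by ring]

theorem halfPeriod_strictMono : StrictMonoOn (halfPeriod mm) (Ioo 0 (mm (π / 2))) := by
  intro x hx y hy hxy
  rw [halfPeriod_eq hx, halfPeriod_eq hy]
  have hm : 0 < mm (π / 2) := by rw [mm_pi_div_two]; norm_num
  have h1 : x / mm (π / 2) < y / mm (π / 2) := by gcongr
  have h0 : 0 ≤ x / mm (π / 2) := by have := hx.1; positivity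
  have : (x / mm (π / 2)) ^ 3 < (y / mm (π / 2)) ^ 3 := pow_lt_pow_left₀ h1 h0 (by norm_num)
  have := pi_pos
  nlinarith

end Pool.Agent.R748.Rev
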