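import Pool.Agent.R748.Rev2

set_option autoImplicit false

namespace Pool.Agent.R748.Rev

open Real Set MeasureTheory Filter Topology
open scoped ContDiff

/-- components of the derivative -/
theorem deriv_apply {c : ℝ → E3} {t : ℝ} (hc : DifferentiableAt ℝ c t) (i : Fin 3) :
    (deriv c t) i = deriv (fun s => c s i) t := by
  have h := (EuclideanSpace.proj (𝕜 := ℝ) i).hasFDerivAt.comp_hasDerivAt t hc.hasDerivAt
  exact (h.deriv).symm

theorem pt_zero (r θ : ℝ) : pt r θ 0 = sin r * cos θ := rfl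
theorem pt_one (r θ : ℝ) : pt r θ 1 = sin r * sin θ := rfl
theorem pt_two (r θ : ℝ) : pt r θ 2 = -cos r := rfl

theorem norm_pt (r θ : ℝ) : ‖pt r θ‖ = 1 := by
  have h : ‖pt r θ‖ ^ 2 = 1 := by
    rw [EuclideanSpace.real_norm_sq_eq, Fin.sum_univ_three, pt_zero, pt_one, pt_two]
    have h1 := sin_sq_add_cos_sq r
    have h2 := sin_sq_add_cos_sq θ
    calc (sin r * cos θ) ^ 2 + (sin r * sin θ) ^ 2 + (-cos r) ^ 2
        = sin r ^ 2 * (sin θ ^ 2 + cos θ ^ 2) + cos r ^ 2 := by ring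
      _ = 1 := by rw [h2, mul_one, h1]
  have h0 := norm_nonneg (pt r θ)
  nlinarith

theorem rad_pt {r : ℝ} (hr : r ∈ Icc 0 π) (θ : ℝ) : rad (pt r θ) = r := by
  unfold rad
  rw [pt_two, neg_neg, arccos_cos hr.1 hr.2]

section curve

variable {r θ : ℝ → ℝ} {t r' θ' : ℝ}

theorem curve_deriv (hr : HasDerivAt r r' t) (hθ : HasDerivAt θ θ' t) :
    DifferentiableAt ℝ (fun s => pt (r s) (θ s)) t ∧
    (deriv (fun s => pt (r s) (θ s)) t) 0 = r' * cos (r t) * cos (θ t) - θ' * sin (r t) * sin (θ t) ∧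
    (deriv (fun s => pt (r s) (θ s)) t) 1 = r' * cos (r t) * sin (θ t) + θ' * sin (r t) * cos (θ t) ∧
    (deriv (fun s => pt (r s) (θ s)) t) 2 = r' * sin (r t) := by
  have h0 : HasDerivAt (fun s => pt (r s) (θ s) 0)
      (r' * cos (r t) * cos (θ t) - θ' * sin (r t) * sin (θ t)) t := by
    have := hr.sin.mul hθ.cos
    refine HasDerivAt.congr_deriv this ?_
    ring
  have h1 : HasDerivAt (fun s => pt (r s) (θ s) 1)
      (r' * cos (r t) * sin (θ t) + θ' * sin (r t) * cos (θ t)) t := by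
    have := hr.sin.mul hθ.sin
    refine HasDerivAt.congr_deriv this ?_
    ring
  have h2 : HasDerivAt (fun s => pt (r s) (θ s) 2) (r' * sin (r t)) t := by
    have := hr.cos.neg
    refine HasDerivAt.congr_deriv this ?_
    ring
  have hd : DifferentiableAt ℝ (fun s => pt (r s) (θ s)) t := by
    rw [differentiableAt_euclidean]
    intro i
    fin_cases i
    · exact h0.differentiableAt
    · exact h1.differentiableAt
    · exact h2.differentiableAt
  refine ⟨hd, ?_, ?_, ?_⟩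
  · rw [deriv_apply hd, h0.deriv]
  · rw [deriv_apply hd, h1.deriv]
  · rw [deriv_apply hd, h2.deriv]

theorem curve_norm (hr : HasDerivAt r r' t) (hθ : HasDerivAt θ θ' t) :
    ‖deriv (fun s => pt (r s) (θ s)) t‖ ^ 2 = r' ^ 2 + sin (r t) ^ 2 * θ' ^ 2 := by
  obtain ⟨-, h0, h1, h2⟩ := curve_deriv hr hθ
  rw [EuclideanSpace.real_norm_sq_eq, Fin.sum_univ_three, h0, h1, h2]
  have e1 := sin_sq_add_cos_sq (r t)
  have e2 := sin_sq_add_cos_sq (θ t)
  calc _ = (r' ^ 2 * cos (r t) ^ 2 + θ' ^ 2 * sin (r t) ^ 2) * (sin (θ t) ^ 2 + cos (θ t) ^ 2)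
        + r' ^ 2 * sin (r t) ^ 2 := by ring
    _ = r' ^ 2 * (sin (r t) ^ 2 + cos (r t) ^ 2) + sin (r t) ^ 2 * θ' ^ 2 := by rw [e2]; ring
    _ = _ := by rw [e1]; ring

theorem curve_den (r θ : ℝ) : pt r θ 0 ^ 2 + pt r θ 1 ^ 2 = sin r ^ 2 := by
  rw [pt_zero, pt_one]
  have e2 := sin_sq_add_cos_sq θ
  calc _ = sin r ^ 2 * (sin θ ^ 2 + cos θ ^ 2) := by ring
    _ = _ := by rw [e2, mul_one]

theorem curve_angVel (hr : HasDerivAt r r' t) (hθ : HasDerivAt θ θ' t) (hs : sin (r t) ≠ 0) :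
    angVel (pt (r t) (θ t)) (deriv (fun s => pt (r s) (θ s)) t) = θ' := by
  obtain ⟨-, h0, h1, h2⟩ := curve_deriv hr hθ
  unfold angVel
  rw [curve_den, h0, h1, pt_zero, pt_one]
  have e2 := sin_sq_add_cos_sq (θ t)
  rw [div_eq_iff (by positivity)]
  calc _ = sin (r t) ^ 2 * θ' * (sin (θ t) ^ 2 + cos (θ t) ^ 2) := by ring
    _ = _ := by rw [e2]; ring

theorem curve_gSq (m : ℝ → ℝ) (hr : HasDerivAt r r' t) (hθ : HasDerivAt θ θ' t)
    (hs : r t ∈ Ioo 0 π) :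
    gSq m (pt (r t) (θ t)) (deriv (fun s => pt (r s) (θ s)) t) = r' ^ 2 + m (r t) ^ 2 * θ' ^ 2 := by
  have hs' : sin (r t) ≠ 0 := (sin_pos_of_pos_of_lt_pi hs.1 hs.2).ne'
  unfold gSq
  rw [curve_norm hr hθ, curve_angVel hr hθ hs', curve_den, rad_pt ⟨hs.1.le, hs.2.le⟩]
  ring

end curve

theorem contDiff_pt {r θ : ℝ → ℝ} {n : WithTop ℕ∞} (hr : ContDiff ℝ n r) (hθ : ContDiff ℝ n θ) :
    ContDiff ℝ n (fun s => pt (r s) (θ s)) := by
  rw [contDiff_euclidean]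
  intro i
  fin_cases i
  · exact (contDiff_sin.comp hr).mul (contDiff_cos.comp hθ)
  · exact (contDiff_sin.comp hr).mul (contDiff_sin.comp hθ)
  · exact (contDiff_cos.comp hr).neg

/-- The meridian circle `t ↦ pt (a - t) 0`. -/
theorem meridian_gSq (m : ℝ → ℝ) (a t : ℝ) :
    gSq m (pt (a - t) 0) (deriv (fun s => pt (a - s) 0) t) = 1 := by
  have hr : HasDerivAt (fun s => a - s) (-1) t := by
    simpa using (hasDerivAt_id t).const_sub a
  have hθ : HasDerivAt (fun _ : ℝ => (0:ℝ)) 0 t := hasDerivAt_const t 0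
  have h1 := curve_norm (t := t) hr hθ
  obtain ⟨-, h0, h1', h2⟩ := curve_deriv hr hθ
  have hang : angVel (pt (a - t) 0) (deriv (fun s => pt (a - s) 0) t) = 0 := by
    unfold angVel
    rw [h1', pt_one]
    simp
  unfold gSq
  rw [hang, h1]
  ring

/-- general criterion -/
theorem isGeodesic_of {m : ℝ → ℝ} {r θ : ℝ → ℝ} (hr : ContDiff ℝ ∞ r) (hθ : ContDiff ℝ ∞ θ)
    (hmem : ∀ t, r t ∈ Ioo 0 π) (hunit : ∀ t, deriv r t ^ 2 + m (r t) ^ 2 * deriv θ t ^ 2 = 1)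
    (hrad : ∀ t, deriv (deriv r) t = m (r t) * deriv m (r t) * deriv θ t ^ 2)
    (hang : ∀ t, deriv (fun s => m (r s) ^ 2 * deriv θ s) t = 0) :
    IsGeodesic m (fun t => pt (r t) (θ t)) := by
  have hr' : ∀ t, HasDerivAt r (deriv r t) t := fun t =>
    (hr.differentiable (by simp) t).hasDerivAt
  have hθ' : ∀ t, HasDerivAt θ (deriv θ t) t := fun t =>
    (hθ.differentiable (by simp) t).hasDerivAt
  have hsin : ∀ t, sin (r t) ≠ 0 := fun t => (sin_pos_of_pos_of_lt_pi (hmem t).1 (hmem t).2).ne'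
  have hrd : ∀ t, rad (pt (r t) (θ t)) = r t := fun t => rad_pt ⟨(hmem t).1.le, (hmem t).2.le⟩ _
  have hav : ∀ t, angVel (pt (r t) (θ t)) (deriv (fun s => pt (r s) (θ s)) t) = deriv θ t :=
    fun t => curve_angVel (hr' t) (hθ' t) (hsin t)
  refine ⟨contDiff_pt hr hθ, fun t => norm_pt _ _, fun t => ?_, fun t _ => ?_, fun t _ => ?_⟩
  · rw [curve_gSq m (hr' t) (hθ' t) (hmem t), hunit]
  · simp only [hrd, hav]
    exact hrad t
  · simp only [hrd, hav]
    exact hang t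

end Pool.Agent.R748.Rev
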