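import Pool.Agent.R748.Rev3

set_option autoImplicit false

namespace Pool.Agent.R748.Rev

open Real Set MeasureTheory Filter Topology
open scoped ContDiff

/-- `sin² α` along the geodesic -/
noncomputable def sf (u : ℝ) : ℝ := 1 - (3/4) * sin u ^ 2
noncomputable def hf (u : ℝ) : ℝ := 1 - sf u + 2 * sf u ^ 2

theorem sf_pos (u : ℝ) : 0 < sf u := by
  unfold sf
  nlinarith [sin_sq_le_one u]
theorem sf_ge (u : ℝ) : 1/4 ≤ sf u := by
  unfold sf
  nlinarith [sin_sq_le_one u]
theorem hf_pos (u : ℝ) : 0 < hf u := by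
  unfold hf
  nlinarith [sq_nonneg (sf u - 1/4)]

theorem hasDerivAt_sf (u : ℝ) : HasDerivAt sf (-(3/2) * sin u * cos u) u := by
  have := (((hasDerivAt_sin u).fun_pow 2).const_mul (3/4)).const_sub 1
  refine HasDerivAt.congr_deriv this ?_
  ring

theorem contDiff_sf : ContDiff ℝ ∞ sf := by unfold sf; fun_prop

/-- arc length -/
noncomputable def TT (u : ℝ) : ℝ := 83/80 * u + (9/40) * sin (2*u) + (9/320) * sin (4*u)

theorem hasDerivAt_TT (u : ℝ) : HasDerivAt TT ((4/5) * hf u) u := by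
  have h1 : HasDerivAt (fun a : ℝ => sin (2*a)) (cos (2*u) * 2) u := by
    have := ((hasDerivAt_id u).const_mul 2).sin
    simpa using this
  have h2 : HasDerivAt (fun a : ℝ => sin (4*a)) (cos (4*u) * 4) u := by
    have := ((hasDerivAt_id u).const_mul 4).sin
    simpa using this
  have h := (((hasDerivAt_id u).const_mul (83/80)).add (h1.const_mul (9/40))).add (h2.const_mul (9/320))
  refine HasDerivAt.congr_deriv h ?_
  have h4 : cos (4*u) = 2 * cos (2*u)^2 - 1 := by
    rw [show (4:ℝ)*u = 2*(2*u) by ring, cos_two_mul]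
  have h2 : cos (2*u) = 1 - 2 * sin u ^ 2 := by
    rw [cos_two_mul, cos_sq']; ring
  unfold hf sf
  rw [h4, h2]; ring

theorem contDiff_TT : ContDiff ℝ ∞ TT := by unfold TT; fun_prop

theorem strictMono_TT : StrictMono TT := by
  apply strictMono_of_deriv_pos
  intro a
  rw [(hasDerivAt_TT a).deriv]
  have := hf_pos a
  positivity

theorem surj_TT : Function.Surjective TT := by
  apply contDiff_TT.continuous.surjective
  · apply tendsto_atTop_mono (f := fun a : ℝ => 83/80 * a - 1)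
    · intro a
      unfold TT
      nlinarith [neg_one_le_sin (2*a), neg_one_le_sin (4*a)]
    · exact tendsto_atTop_add_const_right _ _ (tendsto_id.const_mul_atTop (by norm_num))
  · apply tendsto_atBot_mono (f := fun a : ℝ => 83/80 * a + 1)
    · intro a
      unfold TT
      nlinarith [sin_le_one (2*a), sin_le_one (4*a)]
    · exact tendsto_atBot_add_const_right _ _ (tendsto_id.const_mul_atBot (by norm_num))

noncomputable def TTHom : ℝ ≃ₜ ℝ := (StrictMono.orderIsoOfSurjective TT strictMono_TT surj_TT).toHomeomorph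

noncomputable def UU : ℝ → ℝ := TTHom.symm

theorem TT_UU (r : ℝ) : TT (UU r) = r := TTHom.apply_symm_apply r
theorem UU_TT (a : ℝ) : UU (TT a) = a := TTHom.symm_apply_apply a

theorem contDiff_UU : ContDiff ℝ ∞ UU :=
  Homeomorph.contDiff_symm_deriv TTHom (f' := fun u => (4/5) * hf u)
    (fun x => by have := hf_pos x; positivity) hasDerivAt_TT contDiff_TT

theorem hasDerivAt_UU (t : ℝ) : HasDerivAt UU ((4/5) * hf (UU t))⁻¹ t := by
  have h := (hasDerivAt_TT (UU t)).of_local_left_inverse (g := UU) (a := t)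
    (contDiff_UU.continuous.continuousAt) (by have := hf_pos (UU t); positivity)
    (Eventually.of_forall TT_UU)
  exact h

theorem strictMono_UU : StrictMono UU := by
  intro x y h
  by_contra hc
  have := strictMono_TT.monotone (not_lt.1 hc)
  rw [TT_UU, TT_UU] at this
  linarith

/-- the angle -/
noncomputable def Th (u : ℝ) : ℝ := 9/8 * u + (3/16) * sin (2*u) - arctan (sin (2*u) / (3 + cos (2*u)))

theorem contDiff_Th : ContDiff ℝ ∞ Th := by
  unfold Th
  have h : ContDiff ℝ ∞ fun u : ℝ => sin (2*u) / (3 + cos (2*u)) := by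
    apply ContDiff.div
    · fun_prop
    · fun_prop
    · intro x
      have := neg_one_le_cos (2*x)
      linarith
  have h2 : ContDiff ℝ ∞ fun u : ℝ => arctan (sin (2*u) / (3 + cos (2*u))) := contDiff_arctan.comp h
  have h3 : ContDiff ℝ ∞ fun u : ℝ => 9/8 * u + (3/16) * sin (2*u) := by fun_prop
  exact h3.sub h2

theorem hasDerivAt_Th (u : ℝ) : HasDerivAt Th (hf u / (2 * sf u)) u := by
  have h1 : HasDerivAt (fun a : ℝ => sin (2*a)) (cos (2*u) * 2) u := by
    have := ((hasDerivAt_id u).const_mul 2).sin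
    simpa using this
  have h2 : HasDerivAt (fun a : ℝ => cos (2*a)) (-sin (2*u) * 2) u := by
    have := ((hasDerivAt_id u).const_mul 2).cos
    simpa using this
  have hne : 3 + cos (2*u) ≠ 0 := by
    have := neg_one_le_cos (2*u)
    linarith
  have h3 := (h1.div (h2.const_add 3) hne).arctan
  have h := (((hasDerivAt_id u).const_mul (9/8)).add (h1.const_mul (3/16))).sub h3
  refine HasDerivAt.congr_deriv h ?_
  have hs2 : sin (2*u) ^ 2 = 1 - cos (2*u) ^ 2 := by rw [sin_sq]
  have hc : sf u = (5 + 3 * cos (2*u)) / 8 := by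
    unfold sf
    have : cos (2*u) = 1 - 2 * sin u ^ 2 := by rw [cos_two_mul, cos_sq']; ring
    rw [this]; ring
  have hsf := sf_pos u
  unfold hf
  rw [hc] at hsf ⊢
  have hp : 0 < 5 + 3 * cos (2*u) := by linarith
  have hq : (1 + (sin (2*u) / (3 + cos (2*u))) ^ 2) = (2 * (5 + 3 * cos (2*u))) / (3 + cos (2*u)) ^ 2 := by
    rw [div_pow, hs2]
    field_simp
    ring
  simp only [Pi.div_apply]
  rw [hq]
  have e : cos (2*u) * 2 * (3 + cos (2*u)) - sin (2*u) * (-sin (2*u) * 2) = 2 + 6 * cos (2*u) := by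
    linear_combination 2 * hs2
  rw [e]
  field_simp
  ring

theorem strictMono_Th : StrictMono Th := by
  apply strictMono_of_deriv_pos
  intro a
  rw [(hasDerivAt_Th a).deriv]
  have := hf_pos a
  have := sf_pos a
  positivity

theorem Th_zero : Th 0 = 0 := by unfold Th; simp
theorem Th_pi : Th π = 9/8 * π := by
  unfold Th
  simp [sin_two_pi]

/-- the radius -/
noncomputable def aa (u : ℝ) : ℝ := arccos (√3/2 * sin u)
noncomputable def RR (u : ℝ) : ℝ := rc (aa u)

theorem sqrt3_sq : (√3 / 2) ^ 2 = (3/4 : ℝ) := by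
  rw [div_pow, Real.sq_sqrt (by norm_num)]; norm_num
theorem sqrt3_lt : √3 / 2 < (1 : ℝ) := by
  have h := sqrt3_sq
  have h0 : 0 ≤ √3 / 2 := by positivity
  nlinarith

theorem sqrt3_sin (u : ℝ) : (√3/2 * sin u) ^ 2 = 3/4 * sin u ^ 2 := by rw [mul_pow, sqrt3_sq]

theorem abs_w (u : ℝ) : -1 < √3/2 * sin u ∧ √3/2 * sin u < 1 := by
  have h := sqrt3_sin u
  have h1 := sin_sq_le_one u
  constructor <;> nlinarith

theorem sin_aa (u : ℝ) : sin (aa u) = √(sf u) := by
  unfold aa
  rw [sin_arccos, sqrt3_sin]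
  rfl

theorem sin_aa_sq (u : ℝ) : sin (aa u) ^ 2 = sf u := by
  rw [sin_aa, Real.sq_sqrt (sf_pos u).le]

theorem cos_aa (u : ℝ) : cos (aa u) = √3/2 * sin u := by
  unfold aa
  exact cos_arccos (abs_w u).1.le (abs_w u).2.le

theorem rcd_aa (u : ℝ) : rcd (aa u) = (4/5) * hf u := by
  rw [rcd_eq, sin_aa_sq]; rfl

theorem hasDerivAt_aa (u : ℝ) : HasDerivAt aa (-(√3/2 * cos u) / √(sf u)) u := by
  have h := (hasDerivAt_arccos (x := √3/2 * sin u) (abs_w u).1.ne' (abs_w u).2.ne).comp u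
    ((hasDerivAt_sin u).const_mul (√3/2))
  refine HasDerivAt.congr_deriv h ?_
  rw [sqrt3_sin]
  unfold sf
  ring

theorem contDiff_aa : ContDiff ℝ ∞ aa := by
  rw [contDiff_iff_contDiffAt]
  intro u
  have h1 : ContDiffAt ℝ ∞ arccos (√3/2 * sin u) :=
    contDiffAt_arccos (abs_w u).1.ne' (abs_w u).2.ne
  have h2 : ContDiffAt ℝ ∞ (fun u : ℝ => √3/2 * sin u) u := by fun_prop
  exact h1.comp u h2

theorem contDiff_RR : ContDiff ℝ ∞ RR := contDiff_rc.comp contDiff_aa

theorem hasDerivAt_RR (u : ℝ) :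
    HasDerivAt RR ((4/5) * hf u * (-(√3/2 * cos u) / √(sf u))) u := by
  have h := (hasDerivAt_rc (aa u)).comp u (hasDerivAt_aa u)
  rw [rcd_aa] at h
  exact h

theorem aa_mem (u : ℝ) : aa u ∈ Ioo 0 π := by
  have h := abs_w u
  unfold aa
  constructor
  · exact arccos_pos.2 h.2
  · rw [arccos_lt_pi]
    exact h.1

theorem RR_mem (u : ℝ) : RR u ∈ Ioo 0 π := by
  have h := aa_mem u
  unfold RR
  constructor
  · rw [← rc_zero]; exact strictMono_rc h.1
  · have := strictMono_rc h.2
    rwa [rc_pi] at this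

theorem mm_RR (u : ℝ) : mm (RR u) = (4/5) * √(sf u) := by
  unfold mm RR
  rw [al_rc, sin_aa]

theorem deriv_mm_RR (u : ℝ) : deriv mm (RR u) = √3/2 * sin u / hf u := by
  rw [(hasDerivAt_mm _).deriv]
  unfold RR
  rw [al_rc, cos_aa, rcd_aa]
  have := hf_pos u
  field_simp

/-- the coordinates of the geodesic -/
noncomputable def gr (t : ℝ) : ℝ := RR (UU t)
noncomputable def gθ (t : ℝ) : ℝ := Th (UU t)

theorem hasDerivAt_gr (t : ℝ) : HasDerivAt gr (-(√3/2 * cos (UU t)) / √(sf (UU t))) t := by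
  have h := (hasDerivAt_RR (UU t)).comp t (hasDerivAt_UU t)
  refine HasDerivAt.congr_deriv h ?_
  have h1 := hf_pos (UU t)
  have h2 : 0 < √(sf (UU t)) := Real.sqrt_pos.2 (sf_pos _)
  field_simp

theorem hasDerivAt_gθ (t : ℝ) : HasDerivAt gθ (5 / (8 * sf (UU t))) t := by
  have h := (hasDerivAt_Th (UU t)).comp t (hasDerivAt_UU t)
  refine HasDerivAt.congr_deriv h ?_
  have h1 := hf_pos (UU t)
  have h2 := sf_pos (UU t)
  field_simp
  norm_num

theorem deriv_gr : deriv gr = fun t => -(√3/2 * cos (UU t)) / √(sf (UU t)) := by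
  funext t; exact (hasDerivAt_gr t).deriv
theorem deriv_gθ : deriv gθ = fun t => 5 / (8 * sf (UU t)) := by
  funext t; exact (hasDerivAt_gθ t).deriv

theorem contDiff_gr : ContDiff ℝ ∞ gr := contDiff_RR.comp contDiff_UU
theorem contDiff_gθ : ContDiff ℝ ∞ gθ := contDiff_Th.comp contDiff_UU

/-- the geodesic -/
noncomputable def gam (t : ℝ) : E3 := pt (gr t) (gθ t)

theorem isGeodesic_gam : IsGeodesic mm gam := by
  apply isGeodesic_of contDiff_gr contDiff_gθ (fun t => RR_mem _)
  · intro t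
    have h2 := sf_pos (UU t)
    have h3 : √(sf (UU t)) ^ 2 = sf (UU t) := Real.sq_sqrt h2.le
    have h4 : cos (UU t) ^ 2 = 1 - sin (UU t) ^ 2 := by rw [cos_sq']
    have h5 : sf (UU t) = 1 - (3/4) * sin (UU t) ^ 2 := rfl
    rw [deriv_gr, deriv_gθ]
    simp only
    unfold gr
    rw [mm_RR, div_pow, neg_sq, mul_pow, sqrt3_sq, h3, mul_pow, h3, h4]
    have h6 : sin (UU t) ^ 2 = (4/3) * (1 - sf (UU t)) := by linarith
    rw [h6]
    field_simp
    ring
  · intro t
    rw [deriv_gr, deriv_gθ]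
    have h2 := sf_pos (UU t)
    have hs : 0 < √(sf (UU t)) := Real.sqrt_pos.2 h2
    have h3 : √(sf (UU t)) ^ 2 = sf (UU t) := Real.sq_sqrt h2.le
    have h1 := hf_pos (UU t)
    have d1 : HasDerivAt (fun t => -(√3/2 * cos (UU t)))
        (-(√3/2 * (-sin (UU t) * ((4/5) * hf (UU t))⁻¹))) t :=
      (((hasDerivAt_UU t).cos).const_mul (√3/2)).neg
    have d2 : HasDerivAt (fun t => √(sf (UU t)))
        ((-(3/2) * sin (UU t) * cos (UU t)) * ((4/5) * hf (UU t))⁻¹ / (2 * √(sf (UU t)))) t :=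
      ((hasDerivAt_sf (UU t)).comp t (hasDerivAt_UU t)).sqrt h2.ne'
    have d3 := d1.div d2 hs.ne'
    have e : deriv (fun t => -(√3/2 * cos (UU t)) / √(sf (UU t))) t = _ := d3.deriv
    rw [e]
    simp only
    unfold gr
    rw [mm_RR, deriv_mm_RR]
    have h4 : cos (UU t) ^ 2 = 1 - sin (UU t) ^ 2 := by rw [cos_sq']
    have h5 : sf (UU t) = 1 - (3/4) * sin (UU t) ^ 2 := rfl
    have h6 : sin (UU t) ^ 2 = (4/3) * (1 - sf (UU t)) := by linarith
    have h7 : cos (UU t) ^ 2 = (4 * sf (UU t) - 1) / 3 := by rw [h4, h6]; ring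
    generalize UU t = u at *
    generalize √(sf u) = S at *
    generalize sf u = s at *
    subst h3
    have hS : S ≠ 0 := hs.ne'
    have hhf : hf u ≠ 0 := h1.ne'
    field_simp
    rw [h7]
    ring
  · intro t
    have e : (fun s => mm (gr s) ^ 2 * deriv gθ s) = fun _ => (2/5 : ℝ) := by
      funext s
      rw [deriv_gθ]
      unfold gr
      rw [mm_RR]
      have h2 := sf_pos (UU s)
      have h3 : √(sf (UU s)) ^ 2 = sf (UU s) := Real.sq_sqrt h2.le
      rw [mul_pow, h3]
      field_simp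
      norm_num
    rw [e]
    simp

end Pool.Agent.R748.Rev
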