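import Pool.Agent.R748.Rev4

set_option autoImplicit false

namespace Pool.Agent.R748.Rev

open Real Set MeasureTheory Filter Topology
open scoped ContDiff

theorem isPathLength_nonneg {m : ℝ → ℝ} {p q : E3} {L : ℝ} (h : IsPathLength m p q L) : 0 ≤ L := by
  induction h with
  | refl => exact le_refl _
  | @snoc q q' L a b c h hc ih =>
    have : 0 ≤ arcLength m c a b := by
      unfold arcLength
      exact intervalIntegral.integral_nonneg hc.le (fun t _ => Real.sqrt_nonneg _)
    linarith

theorem gDist_le {m : ℝ → ℝ} {p q : E3} {L : ℝ} (h : IsPathLength m p q L) : gDist m p q ≤ L :=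
  csInf_le ⟨0, fun _ h' => isPathLength_nonneg h'⟩ h

theorem arcLength_of_unit {m : ℝ → ℝ} {c : ℝ → E3} {a b : ℝ}
    (h : ∀ t, gSq m (c t) (deriv c t) = 1) : arcLength m c a b = b - a := by
  unfold arcLength
  simp [h]

theorem gSq_neg (m : ℝ → ℝ) (x v : E3) : gSq m x (-v) = gSq m x v := by
  unfold gSq angVel
  rw [norm_neg]
  have e : x 0 * (-v) 1 - x 1 * (-v) 0 = -(x 0 * v 1 - x 1 * v 0) := by
    simp only [PiLp.neg_apply]; ring
  rw [e, neg_div, neg_sq]

theorem exists_uT : ∃ u ∈ Icc (3 * π / 4) π, Th u = π := by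
  have hpi := pi_pos
  have h1 : Th (3 * π / 4) ≤ π := by
    unfold Th
    have e : 2 * (3 * π / 4) = 3 * (π / 2) := by ring
    have e1 : sin (2 * (3 * π / 4)) = -1 := by
      rw [show 2 * (3 * π / 4) = π + π / 2 by ring, sin_add, sin_pi, cos_pi, sin_pi_div_two]; simp
    have e2 : cos (2 * (3 * π / 4)) = 0 := by
      rw [show 2 * (3 * π / 4) = π + π / 2 by ring, cos_add, sin_pi, cos_pi, cos_pi_div_two]; simp
    rw [e1, e2]
    have h3 : -(1/3 : ℝ) ≤ arctan (-1 / (3 + 0)) := by
      have : (-1 : ℝ) / (3 + 0) = -(1/3) := by norm_num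
      rw [this, arctan_neg]
      have h4 : arctan (1/3) ≤ 1/3 := by
        have h5 : 0 ≤ arctan (1/3 : ℝ) := arctan_nonneg.2 (by norm_num)
        have h6 : arctan (1/3 : ℝ) < π / 2 := arctan_lt_pi_div_two _
        have h7 := le_tan h5 h6
        rwa [tan_arctan] at h7
      linarith
    have := pi_gt_three
    linarith
  have h2 : π ≤ Th π := by rw [Th_pi]; linarith
  have := intermediate_value_Icc (by linarith : 3 * π / 4 ≤ π) contDiff_Th.continuous.continuousOn
  exact this ⟨h1, h2⟩

theorem key_ineq {u : ℝ} (hu : u ∈ Icc (3 * π / 4) π) (hT : Th u = π) :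
    π / 2 + RR u < TT u := by
  have hpi := pi_pos
  have hder : ∀ x, HasDerivAt (fun u => TT u - RR u - Th u / 4)
      ((4/5) * hf x - (4/5) * hf x * (-(√3/2 * cos x) / √(sf x)) - hf x / (2 * sf x) / 4) x :=
    fun x => ((hasDerivAt_TT x).sub (hasDerivAt_RR x)).sub ((hasDerivAt_Th x).div_const 4)
  have hanti : AntitoneOn (fun u => TT u - RR u - Th u / 4) (Icc (3 * π / 4) π) := by
    apply antitoneOn_of_deriv_nonpos (convex_Icc _ _)
    · exact fun x _ => (hder x).continuousAt.continuousWithinAt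
    · exact fun x _ => (hder x).differentiableAt.differentiableWithinAt
    · intro x hx
      rw [interior_Icc] at hx
      rw [(hder x).deriv]
      have hs := sf_pos x
      have hh := hf_pos x
      set S := √(sf x) with hS
      have hSp : 0 < S := Real.sqrt_pos.2 hs
      have hS2 : S ^ 2 = sf x := Real.sq_sqrt hs.le
      -- cosine bound
      have hc : cos x ≤ -(√2 / 2) := by
        have h1 : cos x ≤ cos (3 * π / 4) :=
          cos_le_cos_of_nonneg_of_le_pi (by linarith) hx.2.le hx.1.le
        have h2 : cos (3 * π / 4) = -(√2 / 2) := by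
          rw [show 3 * π / 4 = π - π / 4 by ring, cos_pi_sub, cos_pi_div_four]
        linarith
      have h22 : √2 ^ 2 = (2:ℝ) := Real.sq_sqrt (by norm_num)
      have h20 : 0 < √2 := by positivity
      have hc2 : 1/2 ≤ cos x ^ 2 := by nlinarith
      have hcneg : cos x < 0 := by linarith
      have hsc : sf x = 1/4 + 3/4 * cos x ^ 2 := by
        unfold sf
        rw [sin_sq]; ring
      set κ := -(√3/2 * cos x) / S with hκ
      have hκ0 : 0 ≤ κ := by
        rw [hκ]
        apply div_nonneg _ hSp.le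
        have : 0 ≤ √3 := by positivity
        nlinarith
      have hκ2 : κ ^ 2 * sf x = 3/4 * cos x ^ 2 := by
        rw [hκ, div_pow, hS2, neg_sq, mul_pow, sqrt3_sq]
        field_simp
      have hκ3 : 3/5 ≤ κ := by
        by_contra hlt
        have h1 : κ ^ 2 < (3/5) ^ 2 := by
          have := not_le.1 hlt
          nlinarith
        have h2 : κ ^ 2 * sf x < (3/5)^2 * sf x := by nlinarith
        rw [hκ2, hsc] at h2
        nlinarith
      have hprod : (1 - κ) * (1 + κ) * sf x = 1/4 := by
        have : (1 - κ) * (1 + κ) * sf x = sf x - κ ^ 2 * sf x := by ring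
        rw [this, hκ2, hsc]; ring
      have h1 : (4/5) * (1 - κ) * sf x ≤ 1/8 := by
        have h3 : 0 < (1 - κ) * sf x := by
          have : (1 - κ) * sf x * (1 + κ) = 1/4 := by linarith
          have h4 : 0 < (1 - κ) * sf x * (1 + κ) := by rw [this]; norm_num
          exact (pos_iff_pos_of_mul_pos h4).2 (by linarith)
        nlinarith
      have h2 : (4/5) * hf x - (4/5) * hf x * κ - hf x / (2 * sf x) / 4 =
          hf x / sf x * ((4/5) * (1 - κ) * sf x - 1/8) := by
        field_simp
        ring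
      rw [h2]
      have h5 : 0 < hf x / sf x := by positivity
      nlinarith
  have h := hanti hu (right_mem_Icc.2 (by linarith)) hu.2
  simp only at h
  have hTTpi : TT π = 83/80 * π := by
    unfold TT
    rw [sin_two_pi, show 4 * π = 2 * π + 2 * π by ring, sin_add_two_pi, sin_two_pi]; ring
  have hRRpi : RR π = π / 2 := by
    unfold RR aa
    rw [sin_pi, mul_zero, arccos_zero, rc_pi_div_two]
  rw [hTTpi, hRRpi, Th_pi, hT] at h
  linarith

theorem main : ∃ q ∈ cutLocus mm (pt (π / 2) 0), q ∉ halfMeridian π := by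
  have hpi := pi_pos
  obtain ⟨u, hu, hT⟩ := exists_uT
  have hkey := key_ineq hu hT
  set T0 := TT u with hT0
  set ℓ := π / 2 + RR u with hℓ
  have hRR := RR_mem u
  have hu0 : 0 < u := by linarith [hu.1]
  have hTT0 : TT 0 = 0 := by unfold TT; simp
  have hUU0 : UU 0 = 0 := by
    have := UU_TT 0
    rwa [hTT0] at this
  have hT0pos : 0 < T0 := by rw [← hTT0]; exact strictMono_TT hu0
  have hg0 : gam 0 = pt (π / 2) 0 := by
    unfold gam gr gθ
    rw [hUU0, Th_zero]
    have : RR 0 = π / 2 := by
      unfold RR aa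
      rw [sin_zero, mul_zero, arccos_zero, rc_pi_div_two]
    rw [this]
  have hUT : UU T0 = u := UU_TT u
  have hgT : gam T0 = pt (RR u) π := by
    unfold gam gr gθ
    rw [hUT, hT]
  -- the meridian path
  have hpt : pt (π / 2 - ℓ) 0 = gam T0 := by
    rw [hgT, hℓ]
    have e : π / 2 - (π / 2 + RR u) = -RR u := by ring
    rw [e]
    unfold pt
    rw [sin_neg, cos_neg, cos_zero, sin_zero, cos_pi, sin_pi]
    congr 1
    ext i
    fin_cases i <;> simp
  have hℓ0 : 0 ≤ ℓ := by rw [hℓ]; linarith [hRR.1]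
  have harc1 : IsArc (fun t => pt (π / 2 - t) 0) 0 ℓ (gam 0) (gam T0) := by
    refine ⟨hℓ0, ?_, fun t _ => norm_pt _ _, ?_, hpt⟩
    · exact contDiff_pt (by fun_prop) (by fun_prop)
    · rw [hg0]
      show pt (π / 2 - 0) 0 = pt (π / 2) 0
      rw [sub_zero]
  have hpath1 : IsPathLength mm (gam 0) (gam T0) ℓ := by
    have h := IsPathLength.snoc (IsPathLength.refl (m := mm) (p := gam 0)) harc1
    rw [arcLength_of_unit (fun t => meridian_gSq mm (π / 2) t)] at h
    convert h using 1
    ring
  have hgamC1 : ContDiff ℝ 1 gam := isGeodesic_gam.smooth.of_le (by norm_cast)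
  -- forward
  have hfwd : ∀ t, T0 ≤ t → gDist mm (gam 0) (gam t) ≤ ℓ + (t - T0) := by
    intro t ht
    have harc : IsArc gam T0 t (gam T0) (gam t) :=
      ⟨ht, hgamC1, fun s _ => isGeodesic_gam.mem s, rfl, rfl⟩
    have h := IsPathLength.snoc hpath1 harc
    rw [arcLength_of_unit isGeodesic_gam.unit] at h
    exact gDist_le h
  have hbwd : ∀ t, t ≤ T0 → gDist mm (gam 0) (gam t) ≤ ℓ + (T0 - t) := by
    intro t ht
    have harc : IsArc (fun s => gam (T0 - s)) 0 (T0 - t) (gam T0) (gam t) := by
      refine ⟨by linarith, ?_, fun s _ => isGeodesic_gam.mem _, ?_, ?_⟩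
      · exact hgamC1.comp (by fun_prop)
      · simp
      · simp
    have h := IsPathLength.snoc hpath1 harc
    have hun : ∀ s, gSq mm (gam (T0 - s)) (deriv (fun s => gam (T0 - s)) s) = 1 := by
      intro s
      rw [deriv_comp_const_sub, gSq_neg]
      exact isGeodesic_gam.unit _
    rw [arcLength_of_unit (c := fun s => gam (T0 - s)) hun] at h
    have h' := gDist_le h
    linarith
  have hbound : ∀ t ∈ minTimes mm gam, t ≤ (T0 + ℓ) / 2 := by
    intro t ht
    by_contra hc
    have hc := not_le.1 hc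
    rcases le_total T0 t with h | h
    · have := hfwd t h
      rw [ht.2] at this
      linarith
    · have := hbwd t h
      rw [ht.2] at this
      linarith
  refine ⟨gam (sSup (minTimes mm gam)), ⟨gam, isGeodesic_gam, hg0, ⟨_, hbound⟩, rfl⟩, ?_⟩
  have hs0 : 0 ≤ sSup (minTimes mm gam) := Real.sSup_nonneg fun t ht => ht.1
  have hs1 : sSup (minTimes mm gam) < T0 := by
    have : sSup (minTimes mm gam) ≤ (T0 + ℓ) / 2 := by
      apply Real.sSup_le hbound
      linarith
    linarith
  generalize sSup (minTimes mm gam) = τ at hs0 hs1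
  rintro ⟨r', hr', he⟩
  have hθ0 : 0 ≤ gθ τ := by
    have h1 := (strictMono_Th.comp strictMono_UU).monotone hs0
    simp only [Function.comp] at h1
    rw [hUU0, Th_zero] at h1
    exact h1
  have hθ1 : gθ τ < π := by
    have h1 := (strictMono_Th.comp strictMono_UU) hs1
    simp only [Function.comp] at h1
    rw [hUT, hT] at h1
    exact h1
  have hr := RR_mem (UU τ)
  have hsr : 0 < sin (gr τ) := sin_pos_of_pos_of_lt_pi hr.1 hr.2
  have hsr' : 0 < sin r' := sin_pos_of_pos_of_lt_pi hr'.1 hr'.2
  have e0 : sin (gr τ) * cos (gθ τ) = sin r' * cos π := congrArg (fun x : E3 => x 0) he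
  have e1 : sin (gr τ) * sin (gθ τ) = sin r' * sin π := congrArg (fun x : E3 => x 1) he
  rw [sin_pi, mul_zero] at e1
  have hsin : sin (gθ τ) = 0 := by
    rcases mul_eq_zero.1 e1 with h | h
    · exact absurd h hsr.ne'
    · exact h
  have hz : gθ τ = 0 := by
    by_contra hne
    have : 0 < sin (gθ τ) := sin_pos_of_pos_of_lt_pi (lt_of_le_of_ne hθ0 (Ne.symm hne)) hθ1
    linarith
  rw [hz, cos_zero, cos_pi] at e0
  linarith

end Pool.Agent.R748.Rev
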