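import Mathlib

/-!
# Spheres of revolution, their half period function and cut loci

The sphere is the unit sphere of `ℝ³`; `pt r θ` is the point with geodesic polar coordinates
`(r, θ)` about the south pole `(0, 0, -1)`. The metric `g = dr² + m(r)² dθ²` is written as
(round metric) `+ (m(r)² - sin² r) dθ²`.
-/

set_option autoImplicit false

namespace Pool.Agent.R748.Rev

open Real Set MeasureTheory
open scoped ContDiff

/-- Euclidean three-space. -/
abbrev E3 := EuclideanSpace ℝ (Fin 3)

/-- The point of the unit sphere with polar coordinates `(r, θ)` about the south pole; `r = 0` is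
the south pole and `r = π` the north pole. -/
noncomputable def pt (r θ : ℝ) : E3 := !₂[sin r * cos θ, sin r * sin θ, -cos r]

/-- The open half meridian `θ = θ₀`, `0 < r < π`. -/
def halfMeridian (θ₀ : ℝ) : Set E3 := {x | ∃ r ∈ Ioo 0 π, x = pt r θ₀}

/-- The profile functions `m` of the problem (here smooth and odd on the whole line). -/
structure IsProfile (m : ℝ → ℝ) : Prop where
  smooth : ContDiff ℝ ∞ m
  odd : ∀ r, m (-r) = -m r
  deriv_zero : deriv m 0 = 1
  symm : ∀ r, m (π - r) = m r
  pos : ∀ r ∈ Ioo 0 π, 0 < m r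
  deriv_pos : ∀ r ∈ Ioo 0 (π / 2), 0 < deriv m r

/-- The inverse of the restriction of `m` to `[0, π/2]`. -/
noncomputable def minv (m : ℝ → ℝ) : ℝ → ℝ := Function.invFunOn m (Icc 0 (π / 2))

/-- The half period function `φ_m`. -/
noncomputable def halfPeriod (m : ℝ → ℝ) (ν : ℝ) : ℝ :=
  2 * ∫ x in (minv m ν)..(π / 2), ν / (m x * √(m x ^ 2 - ν ^ 2))

/-- The coordinate `r` of a point of the unit sphere: the round distance to the south pole. -/
noncomputable def rad (x : E3) : ℝ := arccos (-x 2)

/-- `dθ(v)` for a vector `v` at the point `x`, for `x` not a pole (and `0` at the poles). -/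
noncomputable def angVel (x v : E3) : ℝ := (x 0 * v 1 - x 1 * v 0) / (x 0 ^ 2 + x 1 ^ 2)

/-- `g(v, v)` for a tangent vector `v` of the unit sphere at `x`: the round metric plus
`(m(r)² - sin² r) dθ²`, which off the poles is `dr² + m(r)² dθ²`, and which is the round metric
at the poles. -/
noncomputable def gSq (m : ℝ → ℝ) (x v : E3) : ℝ :=
  ‖v‖ ^ 2 + (m (rad x) ^ 2 - (x 0 ^ 2 + x 1 ^ 2)) * angVel x v ^ 2

/-- `c`, restricted to `[a, b]`, is a `C¹` arc on the sphere from `p` to `q`. -/
structure IsArc (c : ℝ → E3) (a b : ℝ) (p q : E3) : Prop where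
  le : a ≤ b
  contDiff : ContDiff ℝ 1 c
  mem : ∀ t ∈ Icc a b, ‖c t‖ = 1
  left : c a = p
  right : c b = q

/-- The `g`-length of the arc `c` on `[a, b]`. -/
noncomputable def arcLength (m : ℝ → ℝ) (c : ℝ → E3) (a b : ℝ) : ℝ :=
  ∫ t in a..b, √(gSq m (c t) (deriv c t))

/-- `L` is the `g`-length of a piecewise `C¹` path on the sphere from `p` to `q`. -/
inductive IsPathLength (m : ℝ → ℝ) (p : E3) : E3 → ℝ → Prop
  | refl : IsPathLength m p p 0
  | snoc {q q' : E3} {L a b : ℝ} {c : ℝ → E3} (h : IsPathLength m p q L)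
      (hc : IsArc c a b q q') : IsPathLength m p q' (L + arcLength m c a b)

/-- The Riemannian distance of `g`. -/
noncomputable def gDist (m : ℝ → ℝ) (p q : E3) : ℝ := sInf {L | IsPathLength m p q L}

/-- `γ` is a unit speed geodesic of `g`, defined for all times: a smooth curve on the sphere with
`g(γ', γ') = 1` which satisfies, at all times at which it is not at a pole, the geodesic equations
`r'' = m(r) m'(r) θ'²` and `(m(r)² θ')' = 0`. -/
structure IsGeodesic (m : ℝ → ℝ) (γ : ℝ → E3) : Prop where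
  smooth : ContDiff ℝ ∞ γ
  mem : ∀ t, ‖γ t‖ = 1
  unit : ∀ t, gSq m (γ t) (deriv γ t) = 1
  radial : ∀ t, rad (γ t) ∈ Ioo 0 π → deriv (deriv fun s => rad (γ s)) t =
    m (rad (γ t)) * deriv m (rad (γ t)) * angVel (γ t) (deriv γ t) ^ 2
  angular : ∀ t, rad (γ t) ∈ Ioo 0 π →
    deriv (fun s => m (rad (γ s)) ^ 2 * angVel (γ s) (deriv γ s)) t = 0

/-- The times `t ≥ 0` up to which `γ` is a shortest path from `γ 0`. -/
def minTimes (m : ℝ → ℝ) (γ : ℝ → E3) : Set ℝ := {t | 0 ≤ t ∧ gDist m (γ 0) (γ t) = t}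

/-- The cut locus of `p`: the last points up to which the unit speed geodesics from `p` are
shortest paths. -/
def cutLocus (m : ℝ → ℝ) (p : E3) : Set E3 :=
  {q | ∃ γ : ℝ → E3, IsGeodesic m γ ∧ γ 0 = p ∧ BddAbove (minTimes m γ) ∧
    q = γ (sSup (minTimes m γ))}

end Pool.Agent.R748.Rev
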